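import Pool.Agent.T9h38.TM.Types
import Pool.Agent.R917.MT

set_option autoImplicit false
set_option maxHeartbeats 1000000
set_option linter.unusedSectionVars false
set_option linter.unusedVariables false

/-!
# The real structure of the complex homology of an abelian variety
-/

open Module Function TensorProduct

noncomputable section

namespace Pool.Agent.T9h38.TM.AbR

open Pool.Agent.Y102 Pool.Agent.W516.DR Pool.Agent.H204R3.GP Pool.Agent.W516.KC
  Pool.Agent.H204R3.SP
open Pool.Agent.N192.GP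

variable {g : ℕ} (A : AbVar g)

/-- The basis of the complex homology. -/
def bC : Basis (Fin (2 * g)) ℂ (ℂ ⊗[ℚ] A.H1) := Algebra.TensorProduct.basis ℂ A.bas

theorem bC_apply (i : Fin (2 * g)) : bC A i = (1 : ℂ) ⊗ₜ[ℚ] A.bas i :=
  Algebra.TensorProduct.basis_apply _ _

theorem tmul_eq (z : ℂ) (v : A.H1) : z ⊗ₜ[ℚ] v = ∑ i, (z * (v i : ℂ)) • bC A i := by
  have h1 : v = ∑ i, v i • A.bas i := by
    conv_lhs => rw [← A.bas.sum_repr v]
    refine Finset.sum_congr rfl fun i _ => ?_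
    unfold AbVar.bas
    rw [Pi.basisFun_repr]
  conv_lhs => rw [h1]
  rw [TensorProduct.tmul_sum]
  refine Finset.sum_congr rfl fun i _ => ?_
  rw [bC_apply, TensorProduct.tmul_smul, TensorProduct.smul_tmul', TensorProduct.smul_tmul',
    smul_eq_mul, mul_one, Rat.smul_def]
  exact congrArg (fun t : ℂ => t ⊗ₜ[ℚ] A.bas i) (mul_comm _ _)

/-- The complex conjugation. -/
def cj (u : ℂ ⊗[ℚ] A.H1) : ℂ ⊗[ℚ] A.H1 := ∑ i, (starRingEnd ℂ ((bC A).repr u i)) • bC A i

theorem cj_add (u v : ℂ ⊗[ℚ] A.H1) : cj A (u + v) = cj A u + cj A v := by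
  unfold cj
  rw [← Finset.sum_add_distrib]
  refine Finset.sum_congr rfl fun i _ => ?_
  rw [map_add, Finsupp.add_apply, map_add, add_smul]

theorem cj_smul (z : ℂ) (u : ℂ ⊗[ℚ] A.H1) : cj A (z • u) = (starRingEnd ℂ z) • cj A u := by
  unfold cj
  rw [Finset.smul_sum]
  refine Finset.sum_congr rfl fun i _ => ?_
  rw [map_smul, Finsupp.smul_apply, smul_eq_mul, map_mul, mul_smul]

theorem cj_bC (i : Fin (2 * g)) : cj A (bC A i) = bC A i := by
  unfold cj
  rw [Finset.sum_eq_single i]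
  · rw [Basis.repr_self, Finsupp.single_eq_same, map_one, one_smul]
  · intro j _ hj
    rw [Basis.repr_self, Finsupp.single_eq_of_ne hj, map_zero, zero_smul]
  · intro h
    exact absurd (Finset.mem_univ _) h

theorem cj_zero : cj A 0 = 0 := by
  have h := cj_smul A 0 0
  rwa [zero_smul, map_zero, zero_smul] at h

theorem cj_sum {ι : Type} (s : Finset ι) (f : ι → ℂ ⊗[ℚ] A.H1) :
    cj A (∑ i ∈ s, f i) = ∑ i ∈ s, cj A (f i) := by
  classical
  induction s using Finset.induction_on with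
  | empty => rw [Finset.sum_empty, Finset.sum_empty, cj_zero]
  | insert a s ha ih => rw [Finset.sum_insert ha, Finset.sum_insert ha, cj_add, ih]

theorem cj_comb (a : Fin (2 * g) → ℂ) : cj A (∑ i, a i • bC A i) =
    ∑ i, (starRingEnd ℂ (a i)) • bC A i := by
  rw [cj_sum]
  exact Finset.sum_congr rfl fun i _ => by rw [cj_smul, cj_bC]

theorem cj_cj (u : ℂ ⊗[ℚ] A.H1) : cj A (cj A u) = u := by
  conv_lhs => rw [show cj A u = ∑ i, (starRingEnd ℂ ((bC A).repr u i)) • bC A i from rfl]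
  rw [cj_comb]
  simp only [Complex.conj_conj]
  exact (bC A).sum_repr u

theorem cj_tmul (z : ℂ) (v : A.H1) : cj A (z ⊗ₜ[ℚ] v) = (starRingEnd ℂ z) ⊗ₜ[ℚ] v := by
  rw [tmul_eq, tmul_eq, cj_comb]
  refine Finset.sum_congr rfl fun i _ => ?_
  rw [map_mul]
  congr 2
  exact Complex.conj_ofReal (v i : ℝ)

/-- The real points. -/
def rho (x : Fin g → ℂ) : ℂ ⊗[ℚ] A.H1 := ∑ i, ((A.lam.repr x i : ℝ) : ℂ) • bC A i

theorem rho_add (x y : Fin g → ℂ) : rho A (x + y) = rho A x + rho A y := by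
  unfold rho
  rw [← Finset.sum_add_distrib]
  refine Finset.sum_congr rfl fun i _ => ?_
  rw [map_add, Finsupp.add_apply, Complex.ofReal_add, add_smul]

theorem rho_smul (t : ℝ) (x : Fin g → ℂ) : rho A (t • x) = (t : ℂ) • rho A x := by
  unfold rho
  rw [Finset.smul_sum]
  refine Finset.sum_congr rfl fun i _ => ?_
  rw [map_smul, Finsupp.smul_apply, smul_eq_mul, Complex.ofReal_mul, mul_smul]

theorem rho_lam (i : Fin (2 * g)) : rho A (A.lam i) = bC A i := by
  unfold rho
  rw [Finset.sum_eq_single i]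
  · rw [Basis.repr_self, Finsupp.single_eq_same, Complex.ofReal_one, one_smul]
  · intro j _ hj
    rw [Basis.repr_self, Finsupp.single_eq_of_ne hj, Complex.ofReal_zero, zero_smul]
  · intro h
    exact absurd (Finset.mem_univ _) h

theorem rho_zero : rho A 0 = 0 := by
  have h := rho_smul A 0 0
  rwa [zero_smul, Complex.ofReal_zero, zero_smul] at h

theorem rho_sum {ι : Type} (s : Finset ι) (f : ι → (Fin g → ℂ)) :
    rho A (∑ i ∈ s, f i) = ∑ i ∈ s, rho A (f i) := by
  classical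
  induction s using Finset.induction_on with
  | empty => rw [Finset.sum_empty, Finset.sum_empty, rho_zero]
  | insert a s ha ih => rw [Finset.sum_insert ha, Finset.sum_insert ha, rho_add, ih]

theorem cj_rho (x : Fin g → ℂ) : cj A (rho A x) = rho A x := by
  unfold rho
  rw [cj_comb]
  exact Finset.sum_congr rfl fun i _ => by rw [Complex.conj_ofReal]

/-- Every element has a real and an imaginary part. -/
theorem exists_ri (u : ℂ ⊗[ℚ] A.H1) : ∃ x y : Fin g → ℂ, u = rho A x + Complex.I • rho A y := by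
  refine ⟨∑ i, ((bC A).repr u i).re • A.lam i, ∑ i, ((bC A).repr u i).im • A.lam i, ?_⟩
  rw [rho_sum, rho_sum, Finset.smul_sum, ← Finset.sum_add_distrib]
  conv_lhs => rw [← (bC A).sum_repr u]
  refine Finset.sum_congr rfl fun i _ => ?_
  rw [rho_smul, rho_smul, rho_lam, smul_smul, ← add_smul, mul_comm Complex.I,
    Complex.re_add_im]

theorem cj_ri (x y : Fin g → ℂ) : cj A (rho A x + Complex.I • rho A y) =
    rho A x - Complex.I • rho A y := by
  rw [cj_add, cj_smul, cj_rho, cj_rho, Complex.conj_I, neg_smul, sub_eq_add_neg]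

/-- The complex structure. -/
def Jc : Module.End ℂ (ℂ ⊗[ℚ] A.H1) := (bC A).constr ℂ fun i => rho A (Complex.I • A.lam i)

theorem Jc_bC (i : Fin (2 * g)) : Jc A (bC A i) = rho A (Complex.I • A.lam i) :=
  (bC A).constr_basis ℂ _ i

theorem Jc_rho (x : Fin g → ℂ) : Jc A (rho A x) = rho A (Complex.I • x) := by
  conv_rhs => rw [← A.lam.sum_repr x]
  rw [Finset.smul_sum, rho_sum]
  unfold rho
  rw [map_sum]
  refine Finset.sum_congr rfl fun i _ => ?_
  rw [map_smul, Jc_bC]
  change _ = rho A (Complex.I • A.lam.repr x i • A.lam i)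
  rw [smul_comm, rho_smul]

theorem Jc_sq : Jc A * Jc A = -1 := by
  refine (bC A).ext fun i => ?_
  rw [Module.End.mul_apply, Jc_bC, Jc_rho, smul_smul, Complex.I_mul_I, neg_one_smul,
    LinearMap.neg_apply, Module.End.one_apply, ← rho_lam]
  have h := rho_smul A (-1) (A.lam i)
  rw [neg_one_smul] at h
  rw [h, Complex.ofReal_neg, Complex.ofReal_one, neg_one_smul]

theorem Jc_cj (u : ℂ ⊗[ℚ] A.H1) : cj A (Jc A u) = Jc A (cj A u) := by
  obtain ⟨x, y, rfl⟩ := exists_ri A u
  rw [map_add, map_smul, Jc_rho, Jc_rho, cj_ri, cj_ri, map_sub, map_smul, Jc_rho, Jc_rho]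

/-- The components of the complex structure are in the Lie algebra. -/
theorem Jc_mem : Jc A ∈ cx A.NA := by
  classical
  obtain ⟨s, hs⟩ := R917.exists_coords (fun p : Fin (2 * g) × Fin (2 * g) =>
    A.lam.repr (Complex.I • A.lam p.1) p.2)
  let f : Basis.ofVectorSpaceIndex ℚ ℝ → (ℝ →ₗ[ℚ] ℚ) := fun k => (Basis.ofVectorSpace ℚ ℝ).coord k
  have h1 : Jc A = ∑ k ∈ s, ((Basis.ofVectorSpace ℚ ℝ k : ℝ) : ℂ) •
      (A.cmpE (f k) AbVar.JJ).baseChange ℂ := by
    refine (bC A).ext fun p => ?_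
    rw [Jc_bC, LinearMap.sum_apply]
    have h2 : ∀ k, (((Basis.ofVectorSpace ℚ ℝ k : ℝ) : ℂ) •
        (A.cmpE (f k) AbVar.JJ).baseChange ℂ) (bC A p) = ∑ q, (((Basis.ofVectorSpace ℚ ℝ k : ℝ) : ℂ)
          * ((f k (A.lam.repr (Complex.I • A.lam p) q) : ℚ) : ℂ)) • bC A q := by
      intro k
      rw [LinearMap.smul_apply, bC_apply, LinearMap.baseChange_tmul, tmul_eq, Finset.smul_sum]
      refine Finset.sum_congr rfl fun q _ => ?_
      rw [smul_smul, one_mul]
      congr 3
      rw [AbVar.cmpE_apply, A.per_bas]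
      rfl
    rw [Finset.sum_congr rfl fun k _ => h2 k, Finset.sum_comm]
    unfold rho
    refine Finset.sum_congr rfl fun q _ => ?_
    rw [← Finset.sum_smul]
    congr 1
    have h3 := hs (p, q)
    simp only at h3
    conv_lhs => rw [h3]
    push_cast
    exact Finset.sum_congr rfl fun k _ => mul_comm _ _
  rw [h1]
  exact Submodule.sum_mem _ fun k _ => Submodule.smul_mem _ _ (bc_mem (A.MA_le_NA (A.J_mem (f k))))

/-- The Riemann form. -/
def EC : LinearMap.BilinForm ℂ (ℂ ⊗[ℚ] A.H1) := LinearMap.BilinForm.baseChange ℂ A.om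

theorem EC_tmul (z w : ℂ) (u v : A.H1) : EC A (z ⊗ₜ u) (w ⊗ₜ v) = (A.om u v : ℂ) * (z * w) := by
  unfold EC
  rw [LinearMap.BilinForm.baseChange_tmul, Rat.smul_def]

theorem EC_skew {X : Module.End ℂ (ℂ ⊗[ℚ] A.H1)} (hX : X ∈ cx A.NA) (u v : ℂ ⊗[ℚ] A.H1) :
    EC A (X u) v = -EC A u (X v) := by
  unfold cx at hX
  induction hX using Submodule.span_induction with
  | mem X hX =>
    obtain ⟨X, hX, rfl⟩ := hX
    induction u using TensorProduct.induction_on with
    | zero => simp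
    | add u u' hu hu' =>
      rw [map_add, map_add, LinearMap.add_apply, hu, hu', map_add, LinearMap.add_apply]
      ring
    | tmul z u =>
      induction v using TensorProduct.induction_on with
      | zero => simp
      | add v v' hv hv' =>
        rw [map_add, hv, hv', map_add, map_add]
        ring
      | tmul w v =>
        rw [LinearMap.baseChange_tmul, LinearMap.baseChange_tmul, EC_tmul, EC_tmul]
        have h1 := A.NA_skew hX u v
        have h2 : A.om (X u) v = -A.om u (X v) := eq_neg_of_add_eq_zero_left h1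
        rw [h2]
        push_cast
        ring
  | zero => simp
  | add X Y _ _ h1 h2 =>
    rw [LinearMap.add_apply, map_add, LinearMap.add_apply, h1, h2, LinearMap.add_apply, map_add]
    ring
  | smul t X _ h1 =>
    rw [LinearMap.smul_apply, map_smul, LinearMap.smul_apply, h1, LinearMap.smul_apply, map_smul,
      smul_neg]

theorem EC_bC (i j : Fin (2 * g)) : EC A (bC A i) (bC A j) = ((A.E (A.lam i) (A.lam j) : ℝ) : ℂ) := by
  rw [bC_apply, bC_apply, EC_tmul, mul_one, mul_one, ← A.per_bas, ← A.per_bas, ← A.om_coe,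
    Complex.ofReal_ratCast]

theorem EC_rho (x y : Fin g → ℂ) : EC A (rho A x) (rho A y) = ((A.E x y : ℝ) : ℂ) := by
  have h1 : A.E x y = ∑ j, ∑ i, A.lam.repr x i * (A.lam.repr y j * A.E (A.lam i) (A.lam j)) := by
    conv_lhs => rw [← A.lam.sum_repr x, ← A.lam.sum_repr y]
    rw [map_sum]
    refine Finset.sum_congr rfl fun j _ => ?_
    rw [map_sum, LinearMap.sum_apply]
    refine Finset.sum_congr rfl fun i _ => ?_
    simp only [map_smul, LinearMap.smul_apply, smul_eq_mul]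
    ring
  unfold rho
  rw [h1, map_sum]
  push_cast
  refine Finset.sum_congr rfl fun j _ => ?_
  rw [map_sum, LinearMap.sum_apply]
  refine Finset.sum_congr rfl fun i _ => ?_
  simp only [map_smul, LinearMap.smul_apply, smul_eq_mul, EC_bC]
  ring

/-- The hermitian form, as a bilinear form. -/
def BC : (ℂ ⊗[ℚ] A.H1) →ₗ[ℂ] (ℂ ⊗[ℚ] A.H1) →ₗ[ℂ] ℂ := LinearMap.compl₂ (EC A) (Jc A)

theorem BC_apply (u v : ℂ ⊗[ℚ] A.H1) : BC A u v = EC A u (Jc A v) := rfl

theorem BC_pos (u : ℂ ⊗[ℚ] A.H1) (hu : u ≠ 0) : ∃ r : ℝ, 0 < r ∧ BC A u (cj A u) = r := by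
  obtain ⟨x, y, rfl⟩ := exists_ri A u
  refine ⟨A.PF x x + A.PF y y, ?_, ?_⟩
  · by_cases hx : x = 0
    · by_cases hy : y = 0
      · exfalso
        apply hu
        rw [hx, hy, rho_zero, smul_zero, add_zero]
      · rw [hx, map_zero, zero_add]
        exact A.PF_pos hy
    · have h1 := A.PF_pos hx
      by_cases hy : y = 0
      · rw [hy, map_zero, add_zero]
        exact h1
      · exact add_pos h1 (A.PF_pos hy)
  · rw [cj_ri, BC_apply, map_sub, map_smul, Jc_rho, Jc_rho]
    have h1 := A.PF_symm x y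
    rw [A.PF_apply, A.PF_apply] at h1
    rw [A.PF_apply, A.PF_apply]
    simp only [map_add, map_sub, map_smul, LinearMap.add_apply, LinearMap.smul_apply, EC_rho,
      smul_eq_mul]
    rw [h1]
    push_cast
    linear_combination (-(A.E y (Complex.I • y) : ℂ)) * Complex.I_mul_I

/-- The real structure. -/
def abRS : RS (cx A.NA) where
  c := cj A
  cadd := cj_add A
  csmul := cj_smul A
  cc := cj_cj A
  B := BC A
  pos := BC_pos A
  J := Jc A
  JJ := Jc_sq A
  Jc := Jc_cj A
  JM := Jc_mem A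
  sk X hX h u v := by
    rw [BC_apply, BC_apply, EC_skew A hX]
    have h1 : X (Jc A v) = Jc A (X v) := LinearMap.congr_fun h v
    rw [h1]
  sy X hX h u v := by
    rw [BC_apply, BC_apply, EC_skew A hX]
    have h1 : X (Jc A v) = -Jc A (X v) := LinearMap.congr_fun h v
    rw [h1, map_neg, neg_neg]

theorem re_bc (X : Module.End ℚ A.H1) : (abRS A).Re (X.baseChange ℂ) := by
  intro u
  change cj A _ = X.baseChange ℂ (cj A u)
  induction u using TensorProduct.induction_on with
  | zero => rw [map_zero, cj_zero, map_zero]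
  | add u v hu hv => rw [map_add, cj_add, hu, hv, cj_add, map_add]
  | tmul z v => rw [LinearMap.baseChange_tmul, cj_tmul, cj_tmul, LinearMap.baseChange_tmul]

theorem re_smul {M : Submodule ℂ (Module.End ℂ (ℂ ⊗[ℚ] A.H1))} (R : RS M) (t : ℝ)
    {X : Module.End ℂ (ℂ ⊗[ℚ] A.H1)} (h : R.Re X) : R.Re ((t : ℂ) • X) := fun u => by
  rw [LinearMap.smul_apply, LinearMap.smul_apply, R.csmul, h, Complex.conj_ofReal]

theorem re_zero {M : Submodule ℂ (Module.End ℂ (ℂ ⊗[ℚ] A.H1))} (R : RS M) :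
    R.Re (0 : Module.End ℂ (ℂ ⊗[ℚ] A.H1)) := fun u => by
  rw [LinearMap.zero_apply, LinearMap.zero_apply, R.czero]

/-- The rational elements are real. -/
theorem dec_cx2 {g' : ℕ} (A' : AbVar g')
    (𝔮 : Submodule ℚ (Module.End ℚ A.H1 × Module.End ℚ A'.H1)) :
    Dec (abRS A) (abRS A') (cx2 𝔮) := by
  intro p hp
  unfold cx2 at hp
  induction hp using Submodule.span_induction with
  | mem p hp =>
    obtain ⟨q, hq, rfl⟩ := hp
    refine ⟨_, Submodule.subset_span ⟨q, hq, rfl⟩, 0, Submodule.zero_mem _, ?_,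
      ⟨re_bc A _, re_bc A' _⟩, re_zero A _, re_zero A' _⟩
    rw [smul_zero, add_zero]
  | zero =>
    refine ⟨0, Submodule.zero_mem _, 0, Submodule.zero_mem _, ?_,
      ⟨re_zero A _, re_zero A' _⟩, re_zero A _, re_zero A' _⟩
    rw [smul_zero, add_zero]
  | add p q _ _ hp hq =>
    obtain ⟨p1, h1, p2, h2, rfl, ⟨h3, h4⟩, h5, h6⟩ := hp
    obtain ⟨q1, k1, q2, k2, rfl, ⟨k3, k4⟩, k5, k6⟩ := hq
    refine ⟨p1 + q1, Submodule.add_mem _ h1 k1, p2 + q2, Submodule.add_mem _ h2 k2, ?_,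
      ⟨RS.Re.add _ h3 k3, RS.Re.add _ h4 k4⟩, RS.Re.add _ h5 k5, RS.Re.add _ h6 k6⟩
    module
  | smul z p _ hp =>
    obtain ⟨p1, h1, p2, h2, rfl, ⟨h3, h4⟩, h5, h6⟩ := hp
    refine ⟨(z.re : ℂ) • p1 - (z.im : ℂ) • p2, Submodule.sub_mem _ (Submodule.smul_mem _ _ h1)
      (Submodule.smul_mem _ _ h2), (z.im : ℂ) • p1 + (z.re : ℂ) • p2, Submodule.add_mem _
      (Submodule.smul_mem _ _ h1) (Submodule.smul_mem _ _ h2), ?_, ⟨RS.Re.sub _ (re_smul A _ _ h3)
      (re_smul A _ _ h5), RS.Re.sub _ (re_smul A' _ _ h4) (re_smul A' _ _ h6)⟩,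
      RS.Re.add _ (re_smul A _ _ h3) (re_smul A _ _ h5),
      RS.Re.add _ (re_smul A' _ _ h4) (re_smul A' _ _ h6)⟩
    conv_lhs => rw [← Complex.re_add_im z]
    have h7 : ((z.re : ℂ) • p1 - (z.im : ℂ) • p2) + Complex.I • ((z.im : ℂ) • p1 + (z.re : ℂ) • p2) =
        ((z.re : ℂ) + (z.im : ℂ) * Complex.I) • (p1 + Complex.I • p2) := by
      have hI : ((z.im : ℂ) * Complex.I) • (Complex.I • p2) = -((z.im : ℂ) • p2) := by
        rw [smul_smul, mul_assoc, Complex.I_mul_I]
        module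
      rw [smul_add ((z.re : ℂ) + (z.im : ℂ) * Complex.I), add_smul, add_smul _ _ (Complex.I • p2), hI]
      module
    exact h7.symm

end Pool.Agent.T9h38.TM.AbR
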