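import Pool.Agent.T9h38.TM.Types

set_option autoImplicit false
set_option maxHeartbeats 1000000
set_option linter.unusedSectionVars false
set_option linter.unusedVariables false

/-!
# Clifford generators with colours of size three or four
-/

open Module Function TensorProduct

noncomputable section

namespace Pool.Agent.T9h38.TM

open Pool.Agent.Y102 Pool.Agent.Y102.SP

variable {U : Type} [AddCommGroup U] [Module ℂ U] [FiniteDimensional ℂ U] [Nontrivial U]

/-- The quaternion algebras of colours of size three. -/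
theorem exists_three {N k : ℕ} {E : Fin N → Module.End ℂ U}
    {c : Fin N → Fin k} (hE : CE E)
    (hc : ∀ σ : Fin k, (Finset.univ.filter fun j => c j = σ).card = 3) :
    ∃ Q : QS k (soC E c), ∀ s, Q.e s = 1 := by
  choose b hbi hbc hbs using fun σ => Small_idx hc σ
  have hne : ∀ σ (i j : Fin 3), i ≠ j → b σ i ≠ b σ j := fun σ i j h h' => h (hbi σ h')
  have hm : ∀ σ (i j : Fin 3), i ≠ j → E (b σ i) * E (b σ j) ∈ soS E c σ := fun σ i j h =>
    Submodule.subset_span ⟨_, _, hne σ i j h, hbc σ i, hbc σ j, rfl⟩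
  have hQ : ∀ σ, SmallQ (1 : Module.End ℂ U) (E (b σ 0) * E (b σ 1)) (E (b σ 1) * E (b σ 2)) ∧
      E (b σ 0) * E (b σ 1) * (E (b σ 1) * E (b σ 2)) = E (b σ 0) * E (b σ 2) := fun σ =>
    Small_q3 (hE.sq _) (hE.sq _) (hE.sq _) (hE.anti _ _ (hne σ 1 0 (by decide)))
      (hE.anti _ _ (hne σ 2 0 (by decide))) (hE.anti _ _ (hne σ 2 1 (by decide)))
  have hcm : ∀ {σ τ}, σ ≠ τ → ∀ {u v : Module.End ℂ U}, u ∈ soS E c σ → v ∈ soS E c τ →
      u * v = v * u := fun h _ _ hu hv => soS_comm hE h hu hv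
  refine ⟨⟨fun _ => 1, fun σ => E (b σ 0) * E (b σ 1), fun σ => E (b σ 1) * E (b σ 2),
    fun σ => (hQ σ).1, fun s t h => hcm h (hm s 0 1 (by decide)) (hm t 0 1 (by decide)),
    fun s t h => hcm h (hm s 0 1 (by decide)) (hm t 1 2 (by decide)),
    fun s t h => hcm h (hm s 1 2 (by decide)) (hm t 1 2 (by decide)), fun _ => one_ne_zero,
    le_antisymm ?_ (Submodule.span_le.2 ?_)⟩, fun _ => rfl⟩
  · refine Small_D hE b hbs _ fun σ i j hij => ?_
    have m01 : E (b σ 0) * E (b σ 1) ∈ Submodule.span ℂ {z : Module.End ℂ U | ∃ j : Fin k,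
        z = E (b j 0) * E (b j 1) ∨ z = E (b j 1) * E (b j 2) ∨
        z = E (b j 0) * E (b j 1) * (E (b j 1) * E (b j 2))} :=
      Submodule.subset_span ⟨σ, Or.inl rfl⟩
    have m12 : E (b σ 1) * E (b σ 2) ∈ Submodule.span ℂ {z : Module.End ℂ U | ∃ j : Fin k,
        z = E (b j 0) * E (b j 1) ∨ z = E (b j 1) * E (b j 2) ∨
        z = E (b j 0) * E (b j 1) * (E (b j 1) * E (b j 2))} :=
      Submodule.subset_span ⟨σ, Or.inr (Or.inl rfl)⟩
    have m02 : E (b σ 0) * E (b σ 2) ∈ Submodule.span ℂ {z : Module.End ℂ U | ∃ j : Fin k,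
        z = E (b j 0) * E (b j 1) ∨ z = E (b j 1) * E (b j 2) ∨
        z = E (b j 0) * E (b j 1) * (E (b j 1) * E (b j 2))} :=
      Submodule.subset_span ⟨σ, Or.inr (Or.inr (hQ σ).2.symm)⟩
    fin_cases i <;> fin_cases j
    · exact absurd hij (by decide)
    · exact m01
    · exact m02
    · exact absurd hij (by decide)
    · exact absurd hij (by decide)
    · exact m12
    · exact absurd hij (by decide)
    · exact absurd hij (by decide)
    · exact absurd hij (by decide)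
  · rintro _ ⟨σ, rfl | rfl | rfl⟩
    · exact soS_le σ (hm σ 0 1 (by decide))
    · exact soS_le σ (hm σ 1 2 (by decide))
    · rw [SetLike.mem_coe, (hQ σ).2]
      exact soS_le σ (hm σ 0 2 (by decide))

/-- The quaternion algebras of colours of size four. -/
theorem exists_four {N k : ℕ} {E : Fin N → Module.End ℂ U}
    {c : Fin N → Fin k} (hE : CE E)
    (hc : ∀ σ : Fin k, (Finset.univ.filter fun j => c j = σ).card = 4) :
    ∃ Q : QS (k * 2) (soC E c), Nonempty (PairT Q k) := by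
  classical
  choose b hbi hbc hbs using fun σ => Small_idx hc σ
  have hne : ∀ σ (i j : Fin 4), i ≠ j → b σ i ≠ b σ j := fun σ i j h h' => h (hbi σ h')
  have hm : ∀ σ (i j : Fin 4), i ≠ j → E (b σ i) * E (b σ j) ∈ soS E c σ := fun σ i j h =>
    Submodule.subset_span ⟨_, _, hne σ i j h, hbc σ i, hbc σ j, rfl⟩
  have h4 : ∀ σ, Small4 (E (b σ 0)) (E (b σ 1)) (E (b σ 2)) (E (b σ 3)) := fun σ =>
    ⟨hE.sq _, hE.sq _, hE.sq _, hE.sq _, hE.anti _ _ (hne σ 1 0 (by decide)),
      hE.anti _ _ (hne σ 2 0 (by decide)), hE.anti _ _ (hne σ 3 0 (by decide)),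
      hE.anti _ _ (hne σ 2 1 (by decide)), hE.anti _ _ (hne σ 3 1 (by decide)),
      hE.anti _ _ (hne σ 3 2 (by decide))⟩
  obtain ⟨e, he⟩ : ∃ e : Fin k → ℂ → Module.End ℂ U, ∀ σ s, e σ s =
    Small_e (E (b σ 0)) (E (b σ 1)) (E (b σ 2)) (E (b σ 3)) s := ⟨_, fun _ _ => rfl⟩
  obtain ⟨x, hx⟩ : ∃ x : Fin k → ℂ → Module.End ℂ U, ∀ σ s, x σ s =
    Small_x (E (b σ 0)) (E (b σ 1)) (E (b σ 2)) (E (b σ 3)) s := ⟨_, fun _ _ => rfl⟩
  obtain ⟨y, hy⟩ : ∃ y : Fin k → ℂ → Module.End ℂ U, ∀ σ s, y σ s =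
    Small_y (E (b σ 0)) (E (b σ 1)) (E (b σ 2)) (E (b σ 3)) s := ⟨_, fun _ _ => rfl⟩
  have q : ∀ σ s, (s = 1 ∨ s = -1) → SmallQ (e σ s) (x σ s) (y σ s) ∧
      x σ s * y σ s = (2⁻¹ : ℂ) • (E (b σ 0) * E (b σ 2) + s • (E (b σ 1) * E (b σ 3))) ∧
      e σ s * e σ (-s) = 0 ∧ E (b σ 0) * e σ s * E (b σ 0) = e σ (-s) ∧
      E (b σ 3) * e σ s = e σ (-s) * E (b σ 3) := by
    intro σ s hs
    rw [he, he, hx, hy]
    exact Small_q4 (h4 σ) hs
  have eadd : ∀ σ s, e σ s + e σ (-s) = 1 := fun σ s => by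
    rw [he, he]
    exact Small_e_add _ _ _ _ _
  have mx : ∀ σ s, x σ s ∈ soS E c σ := fun σ s => by
    rw [hx]
    exact Submodule.smul_mem _ _ (sub_mem (hm σ 0 1 (by decide))
      (Submodule.smul_mem _ _ (hm σ 2 3 (by decide))))
  have my : ∀ σ s, y σ s ∈ soS E c σ := fun σ s => by
    rw [hy]
    exact Submodule.smul_mem _ _ (sub_mem (hm σ 1 2 (by decide))
      (Submodule.smul_mem _ _ (hm σ 0 3 (by decide))))
  have me : ∀ σ s, e σ s ∈ Algebra.adjoin ℂ (soS E c σ : Set (Module.End ℂ U)) := fun σ s => by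
    rw [he]
    refine Subalgebra.smul_mem _ (add_mem (one_mem _) (Subalgebra.smul_mem _ ?_ _)) _
    rw [← mul_assoc]
    exact mul_mem (Algebra.subset_adjoin (hm σ 0 1 (by decide)))
      (Algebra.subset_adjoin (hm σ 2 3 (by decide)))
  have key : ∀ ρ s, ∀ u ∈ ({e ρ s, x ρ s, y ρ s} : Set (Module.End ℂ U)),
      u ∈ Algebra.adjoin ℂ (soS E c ρ : Set (Module.End ℂ U)) := by
    intro ρ s u hu
    rcases hu with rfl | rfl | rfl
    · exact me ρ s
    · exact Algebra.subset_adjoin (mx ρ s)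
    · exact Algebra.subset_adjoin (my ρ s)
  have ene : ∀ σ s, (s = 1 ∨ s = -1) → e σ s ≠ 0 := by
    intro σ s hs h
    have h1 := (q σ s hs).2.2.2.1
    have h2 := eadd σ s
    rw [h, mul_zero, zero_mul] at h1
    rw [h, ← h1, add_zero] at h2
    exact zero_ne_one h2
  obtain ⟨sg, hsg⟩ : ∃ sg : Bool → ℂ, sg = fun t => if t then 1 else -1 := ⟨_, rfl⟩
  have sg1 : ∀ t, sg t = 1 ∨ sg t = -1 := by
    intro t
    rw [hsg]
    cases t
    · right; rfl
    · left; rfl
  have sgn : ∀ t, -sg t = 1 ∨ -sg t = -1 := by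
    intro t
    rcases sg1 t with h | h
    · right; rw [h]
    · left; rw [h, neg_neg]
  have sg2 : ∀ s t, s ≠ t → sg t = -sg s := by
    intro s t h
    rw [hsg]
    cases s <;> cases t
    · exact absurd rfl h
    · simp
    · simp
    · exact absurd rfl h
  have hcomm : ∀ i j : Fin k × Bool, i ≠ j → ∀ u ∈ ({e i.1 (sg i.2), x i.1 (sg i.2),
      y i.1 (sg i.2)} : Set (Module.End ℂ U)), ∀ v ∈ ({e j.1 (sg j.2), x j.1 (sg j.2),
      y j.1 (sg j.2)} : Set (Module.End ℂ U)), u * v = v * u := by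
    rintro ⟨σ, s⟩ ⟨τ, t⟩ hne u hu v hv
    simp only at hu hv
    by_cases h : σ = τ
    · subst h
      have hst : s ≠ t := by
        rintro rfl
        exact hne rfl
      have qs := (q σ (sg s) (sg1 s))
      have qt := (q σ (sg t) (sg1 t))
      rw [sg2 s t hst] at hv qt
      rw [neg_neg] at qt
      have u1 : u * e σ (sg s) = u ∧ e σ (sg s) * u = u := by
        rcases hu with rfl | rfl | rfl
        · exact ⟨qs.1.ee, qs.1.ee⟩
        · exact ⟨qs.1.xe, qs.1.ex⟩
        · exact ⟨qs.1.ye, qs.1.ey⟩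
      have v1 : v * e σ (-sg s) = v ∧ e σ (-sg s) * v = v := by
        rcases hv with rfl | rfl | rfl
        · exact ⟨qt.1.ee, qt.1.ee⟩
        · exact ⟨qt.1.xe, qt.1.ex⟩
        · exact ⟨qt.1.ye, qt.1.ey⟩
      have e1 : u * v = 0 := by
        rw [← u1.1, ← v1.2, mul_assoc, ← mul_assoc (e σ (sg s)), qs.2.2.1, zero_mul, mul_zero]
      have e2 : v * u = 0 := by
        rw [← v1.1, ← u1.2, mul_assoc, ← mul_assoc (e σ (-sg s)), qt.2.2.1, zero_mul, mul_zero]
      rw [e1, e2]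
    · exact Small_adj2 hE h u (key _ _ u hu) v (key _ _ v hv)

  have hmem : ∀ j : Fin k × Bool, x j.1 (sg j.2) ∈ soC E c ∧ y j.1 (sg j.2) ∈ soC E c ∧
      x j.1 (sg j.2) * y j.1 (sg j.2) ∈ soC E c := by
    rintro ⟨σ, s⟩
    refine ⟨soS_le σ (mx _ _), soS_le σ (my _ _), ?_⟩
    change x σ (sg s) * y σ (sg s) ∈ soC E c
    rw [(q σ (sg s) (sg1 s)).2.1]
    exact Submodule.smul_mem _ _ (add_mem (soS_le σ (hm σ 0 2 (by decide)))
      (Submodule.smul_mem _ _ (soS_le σ (hm σ 1 3 (by decide)))))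

  have hdd : soC E c ≤ Submodule.span ℂ {z : Module.End ℂ U | ∃ j : Fin k × Bool,
      z = (fun j : Fin k × Bool => x j.1 (sg j.2)) j ∨
      z = (fun j : Fin k × Bool => y j.1 (sg j.2)) j ∨
      z = (fun j : Fin k × Bool => x j.1 (sg j.2)) j *
        (fun j : Fin k × Bool => y j.1 (sg j.2)) j} := by
    refine Small_D hE b hbs _ fun σ i j hij => ?_
    obtain ⟨W, hW⟩ : ∃ W, W = Submodule.span ℂ {z : Module.End ℂ U | ∃ j : Fin k × Bool,
        z = (fun j : Fin k × Bool => x j.1 (sg j.2)) j ∨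
        z = (fun j : Fin k × Bool => y j.1 (sg j.2)) j ∨
        z = (fun j : Fin k × Bool => x j.1 (sg j.2)) j *
          (fun j : Fin k × Bool => y j.1 (sg j.2)) j} := ⟨_, rfl⟩
    rw [← hW]
    have sgt : sg true = 1 := by rw [hsg]; rfl
    have sgf : sg false = -1 := by rw [hsg]; rfl
    have wx : ∀ t, x σ (sg t) ∈ W := fun t => by
      rw [hW]; exact Submodule.subset_span ⟨(σ, t), Or.inl rfl⟩
    have wy : ∀ t, y σ (sg t) ∈ W := fun t => by
      rw [hW]; exact Submodule.subset_span ⟨(σ, t), Or.inr (Or.inl rfl)⟩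
    have wz : ∀ t, x σ (sg t) * y σ (sg t) ∈ W := fun t => by
      rw [hW]; exact Submodule.subset_span ⟨(σ, t), Or.inr (Or.inr rfl)⟩
    have wx1 := wx true
    have wx2 := wx false
    have wy1 := wy true
    have wy2 := wy false
    have wz1 := wz true
    have wz2 := wz false
    rw [(q σ _ (sg1 _)).2.1] at wz1 wz2
    rw [hx] at wx1 wx2
    rw [hy] at wy1 wy2
    rw [sgt] at wx1 wy1 wz1
    rw [sgf] at wx2 wy2 wz2
    unfold Small_x at wx1 wx2
    unfold Small_y at wy1 wy2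
    have m01 : E (b σ 0) * E (b σ 1) ∈ W := by
      have := add_mem wx1 wx2
      have e1 : E (b σ 0) * E (b σ 1) = (2⁻¹ : ℂ) • (E (b σ 0) * E (b σ 1) -
        (1 : ℂ) • (E (b σ 2) * E (b σ 3))) + (2⁻¹ : ℂ) • (E (b σ 0) * E (b σ 1) -
        (-1 : ℂ) • (E (b σ 2) * E (b σ 3))) := by module
      rwa [← e1] at this
    have m23 : E (b σ 2) * E (b σ 3) ∈ W := by
      have := sub_mem wx2 wx1
      have e1 : E (b σ 2) * E (b σ 3) = (2⁻¹ : ℂ) • (E (b σ 0) * E (b σ 1) -
        (-1 : ℂ) • (E (b σ 2) * E (b σ 3))) - (2⁻¹ : ℂ) • (E (b σ 0) * E (b σ 1) -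
        (1 : ℂ) • (E (b σ 2) * E (b σ 3))) := by module
      rwa [← e1] at this
    have m12 : E (b σ 1) * E (b σ 2) ∈ W := by
      have := add_mem wy1 wy2
      have e1 : E (b σ 1) * E (b σ 2) = (2⁻¹ : ℂ) • (E (b σ 1) * E (b σ 2) -
        (1 : ℂ) • (E (b σ 0) * E (b σ 3))) + (2⁻¹ : ℂ) • (E (b σ 1) * E (b σ 2) -
        (-1 : ℂ) • (E (b σ 0) * E (b σ 3))) := by module
      rwa [← e1] at this
    have m03 : E (b σ 0) * E (b σ 3) ∈ W := by
      have := sub_mem wy2 wy1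
      have e1 : E (b σ 0) * E (b σ 3) = (2⁻¹ : ℂ) • (E (b σ 1) * E (b σ 2) -
        (-1 : ℂ) • (E (b σ 0) * E (b σ 3))) - (2⁻¹ : ℂ) • (E (b σ 1) * E (b σ 2) -
        (1 : ℂ) • (E (b σ 0) * E (b σ 3))) := by module
      rwa [← e1] at this
    have m02 : E (b σ 0) * E (b σ 2) ∈ W := by
      have := add_mem wz1 wz2
      have e1 : E (b σ 0) * E (b σ 2) = (2⁻¹ : ℂ) • (E (b σ 0) * E (b σ 2) +
        (1 : ℂ) • (E (b σ 1) * E (b σ 3))) + (2⁻¹ : ℂ) • (E (b σ 0) * E (b σ 2) +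
        (-1 : ℂ) • (E (b σ 1) * E (b σ 3))) := by module
      rwa [← e1] at this
    have m13 : E (b σ 1) * E (b σ 3) ∈ W := by
      have := sub_mem wz1 wz2
      have e1 : E (b σ 1) * E (b σ 3) = (2⁻¹ : ℂ) • (E (b σ 0) * E (b σ 2) +
        (1 : ℂ) • (E (b σ 1) * E (b σ 3))) - (2⁻¹ : ℂ) • (E (b σ 0) * E (b σ 2) +
        (-1 : ℂ) • (E (b σ 1) * E (b σ 3))) := by module
      rwa [← e1] at this
    fin_cases i <;> fin_cases j
    · exact absurd hij (by decide)
    · exact m01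
    · exact m02
    · exact m03
    · exact absurd hij (by decide)
    · exact absurd hij (by decide)
    · exact m12
    · exact m13
    · exact absurd hij (by decide)
    · exact absurd hij (by decide)
    · exact absurd hij (by decide)
    · exact m23
    · exact absurd hij (by decide)
    · exact absurd hij (by decide)
    · exact absurd hij (by decide)
    · exact absurd hij (by decide)

  let ε : Fin (k * 2) ≃ Fin k × Bool :=
    finProdFinEquiv.symm.trans (Equiv.prodCongr (Equiv.refl _) finTwoEquiv)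
  have hε : ∀ {s t : Fin (k * 2)}, s ≠ t → ε s ≠ ε t := fun h h' => h (ε.injective h')
  let Q : QS (k * 2) (soC E c) :=
    { e := fun a => e (ε a).1 (sg (ε a).2)
      x := fun a => x (ε a).1 (sg (ε a).2)
      y := fun a => y (ε a).1 (sg (ε a).2)
      q := fun a => (q _ _ (sg1 _)).1
      cxx := fun s t h => hcomm _ _ (hε h) _ (Or.inr (Or.inl rfl)) _ (Or.inr (Or.inl rfl))
      cxy := fun s t h => hcomm _ _ (hε h) _ (Or.inr (Or.inl rfl)) _ (Or.inr (Or.inr rfl))
      cyy := fun s t h => hcomm _ _ (hε h) _ (Or.inr (Or.inr rfl)) _ (Or.inr (Or.inr rfl))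
      ne := fun a => ene _ _ (sg1 _)
      span := by
        refine le_antisymm (le_trans hdd (Submodule.span_mono ?_)) (Submodule.span_le.2 ?_)
        · rintro z ⟨j, hj⟩
          refine ⟨ε.symm j, ?_⟩
          rw [Equiv.apply_symm_apply]
          exact hj
        · rintro _ ⟨a, rfl | rfl | rfl⟩
          · exact (hmem (ε a)).1
          · exact (hmem (ε a)).2.1
          · exact (hmem (ε a)).2.2 }
  have hfl : ∀ t, sg (!t) = -sg t := by
    intro t
    exact sg2 t (!t) (by cases t <;> decide)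
  -- the projectors
  have hP : ∀ (β : Fin k → Bool) (S : Finset (Fin k)), ∃ P : Module.End ℂ U, P ≠ 0 ∧ P * P = P ∧
      (∀ z ∈ soC E c, P * z = z * P) ∧ (∀ σ ∉ S, P * E (b σ 0) = E (b σ 0) * P) ∧
      ∀ σ ∈ S, e σ (sg (β σ)) * P = P := by
    intro β S
    induction S using Finset.induction_on with
    | empty =>
      exact ⟨1, one_ne_zero, mul_one 1, fun z _ => by rw [one_mul, mul_one],
        fun σ _ => by rw [one_mul, mul_one], fun σ h => absurd h (Finset.notMem_empty σ)⟩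
    | insert σ S hσ ih =>
      obtain ⟨P, hP0, hPP, hPM, hPE, hPe⟩ := ih
      obtain ⟨s, hs⟩ : ∃ s, s = sg (β σ) := ⟨_, rfl⟩
      have hs1 : s = 1 ∨ s = -1 := by rw [hs]; exact sg1 _
      have hea : ε (ε.symm (σ, β σ)) = (σ, β σ) := Equiv.apply_symm_apply _ _
      have heM : ∀ z ∈ soC E c, e σ s * z = z * e σ s := by
        intro z hz
        have h1 := Q.e_M (ε.symm (σ, β σ)) hz
        change e (ε (ε.symm (σ, β σ))).1 (sg (ε (ε.symm (σ, β σ))).2) * z =
          z * e (ε (ε.symm (σ, β σ))).1 (sg (ε (ε.symm (σ, β σ))).2) at h1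
        rw [hea, ← hs] at h1
        exact h1
      have hxM : x σ s ∈ soC E c := soS_le σ (mx σ s)
      have heq : e σ s = -(x σ s * x σ s) := by rw [(q σ s hs1).1.xx, neg_neg]
      have heP : e σ s * P = P * e σ s := by
        rw [heq, neg_mul, mul_neg, mul_assoc, ← hPM _ hxM, ← mul_assoc, ← hPM _ hxM, mul_assoc]
      refine ⟨e σ s * P, fun h0 => hP0 ?_, ?_, fun z hz => ?_, fun τ hτ => ?_, fun τ hτ => ?_⟩
      · have h1 := (q σ s hs1).2.2.2.1
        have h2 : e σ (-s) * P = 0 := by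
          rw [← h1, mul_assoc, ← hPE σ hσ, ← mul_assoc, mul_assoc (E (b σ 0)), h0, mul_zero,
            zero_mul]
        have h3 := eadd σ s
        rw [← one_mul P, ← h3, add_mul, h0, h2, add_zero]
      · rw [mul_assoc, ← mul_assoc P, ← heP, mul_assoc, hPP, ← mul_assoc, (q σ s hs1).1.ee]
      · rw [mul_assoc, hPM z hz, ← mul_assoc, heM z hz, mul_assoc]
      · have hτσ : τ ≠ σ := fun h => hτ (by rw [h]; exact Finset.mem_insert_self _ _)
        have hτS : τ ∉ S := fun h => hτ (Finset.mem_insert_of_mem h)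
        have h1 : E (b τ 0) * e σ s = e σ s * E (b τ 0) :=
          Small_adj1 hE (l := b τ 0) (by rw [hbc]; exact hτσ) _ (me σ s)
        rw [mul_assoc, hPE τ hτS, ← mul_assoc, ← h1, mul_assoc]
      · rcases Finset.mem_insert.1 hτ with h1 | h1
        · rw [h1, ← hs, ← mul_assoc, (q σ s hs1).1.ee]
        · by_cases h2 : τ = σ
          · rw [h2, ← hs, ← mul_assoc, (q σ s hs1).1.ee]
          · have h3 : e τ (sg (β τ)) * e σ s = e σ s * e τ (sg (β τ)) := by
              rw [hs]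
              exact hcomm (τ, β τ) (σ, β σ) (fun h => h2 (congrArg Prod.fst h)) _ (Or.inl rfl) _
                (Or.inl rfl)
            rw [← mul_assoc, h3, mul_assoc, hPe τ h1]
  refine ⟨Q, ⟨{
    pr := fun a => (ε a).1
    fl := fun a => ε.symm ((ε a).1, !(ε a).2)
    fl_ne := fun a h => ?_
    pr_fl := fun a => by rw [Equiv.apply_symm_apply]
    two := fun a a' h => ?_
    sur := fun s => ⟨ε.symm (s, true), congrArg Prod.fst (Equiv.apply_symm_apply ε (s, true))⟩
    add := fun a => ?_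
    sec := fun τ hτ => ?_ }⟩⟩
  · have h1 := congrArg ε h
    rw [Equiv.apply_symm_apply] at h1
    have h2 : (!(ε a).2) = (ε a).2 := congrArg Prod.snd h1
    cases h3 : (ε a).2 <;> rw [h3] at h2 <;> exact absurd h2 (by decide)
  · by_cases h1 : (ε a').2 = (ε a).2
    · left
      exact ε.injective (Prod.ext h.symm h1)
    · right
      apply ε.injective
      rw [Equiv.apply_symm_apply]
      refine Prod.ext h.symm ?_
      change (ε a').2 = !(ε a).2
      cases h2 : (ε a').2 <;> cases h3 : (ε a).2 <;> rw [h2, h3] at h1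
      · exact absurd rfl h1
      · rfl
      · rfl
      · exact absurd rfl h1
  · change e (ε a).1 (sg (ε a).2) + e (ε (ε.symm ((ε a).1, !(ε a).2))).1
      (sg (ε (ε.symm ((ε a).1, !(ε a).2))).2) = 1
    rw [Equiv.apply_symm_apply]
    change e (ε a).1 (sg (ε a).2) + e (ε a).1 (sg (!(ε a).2)) = 1
    rw [hfl]
    exact eadd _ _
  · obtain ⟨P, hP0, hPP, hPM, -, hPe⟩ := hP (fun s => (ε (τ s)).2) Finset.univ
    refine ⟨P, hP0, hPP, hPM, fun s => ?_⟩
    have h1 := hPe s (Finset.mem_univ s)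
    change e (ε (τ s)).1 (sg (ε (τ s)).2) * P = P
    have h2 : (ε (τ s)).1 = s := hτ s
    rw [h2]
    exact h1

end Pool.Agent.T9h38.TM
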