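import Pool.Agent.T9h38.TM.Types
import Pool.Agent.T9h38.RM.PlaneF

set_option autoImplicit false
set_option maxHeartbeats 1000000
set_option linter.unusedSectionVars false
set_option linter.unusedVariables false

/-!
# Sums of planes as sums of quaternion algebras
-/

open Module Function TensorProduct

noncomputable section

namespace Pool.Agent.T9h38.TM

open Pool.Agent.Y102 Pool.Agent.W516.DR Pool.Agent.H204R3.GP Pool.Agent.W516.KC
  Pool.Agent.H204R3.SP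
open Pool.Agent.N192.GP
open Pool.Agent.T9h38.RM
open Pool.Agent.R917.GL (M2 tz lb CC CC_of_cx)

variable {g k : ℕ} {A : AbVar g}

theorem CC_mul {X Y : R917.GL.EC A} (hX : CC X) (hY : CC Y) : CC (X * Y) := CC.mul hX hY

theorem CC_sub {X Y : R917.GL.EC A} (hX : CC X) (hY : CC Y) : CC (X - Y) := CC.sub hX hY

theorem CC_neg {X : R917.GL.EC A} (hX : CC X) : CC (-X) := fun Q hQ => by
  refine LinearMap.ext fun u => ?_
  change -(X (Q u)) = Q (-(X u))
  rw [map_neg]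
  exact congrArg Neg.neg (LinearMap.congr_fun (hX Q hQ) u)

theorem CC_smul {X : R917.GL.EC A} (c : ℂ) (hX : CC X) : CC (c • X) := fun Q hQ => by
  rw [smul_mul_assoc, mul_smul_comm, hX Q hQ]

/-- Elements of the commutant are determined by their components. -/
theorem px_ext (D : PX A k) {X Y : R917.GL.EC A} (hX : CC X) (hY : CC Y)
    (h : ∀ σ, D.xi X σ = D.xi Y σ) : X = Y := by
  have h1 := D.injC (X - Y) (CC_sub hX hY) fun σ => by
    rw [map_sub, Pi.sub_apply, h, sub_self]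
  exact sub_eq_zero.1 h1

theorem pauli : pz 0 1 * pz 0 1 = -1 ∧ pz 1 2 * pz 1 2 = -1 ∧ pz 1 2 * pz 0 1 =
    -(pz 0 1 * pz 1 2) ∧ pz 0 1 * pz 1 2 = pz 0 2 := by
  rw [pz01, pz12, pz02]
  refine ⟨?_, ?_, ?_, ?_⟩
  all_goals
    ext i j
    fin_cases i <;> fin_cases j <;> simp [Matrix.mul_apply, Fin.sum_univ_two]

/-- The quaternion algebras of the planes. -/
theorem exists_qs (D : PX A k) : ∃ Q : QS k (cx A.NA), ∀ s t, s ≠ t → Q.e s * Q.e t = 0 := by
  classical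
  obtain ⟨p1, p2, p3, p4⟩ := pauli
  choose x hxM hx1 hx2 using fun σ => D.sur σ (pz 0 1) (tz_pz (by omega) (by omega) (by omega))
  choose y hyM hy1 hy2 using fun σ => D.sur σ (pz 1 2) (tz_pz (by omega) (by omega) (by omega))
  choose z hzM hz1 hz2 using fun σ => D.sur σ (pz 0 2) (tz_pz (by omega) (by omega) (by omega))
  have cx' : ∀ σ, CC (x σ) := fun σ => CC_of_cx (hxM σ)
  have cy' : ∀ σ, CC (y σ) := fun σ => CC_of_cx (hyM σ)
  have cz' : ∀ σ, CC (z σ) := fun σ => CC_of_cx (hzM σ)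
  obtain ⟨e, he⟩ : ∃ e : Fin k → R917.GL.EC A, ∀ σ, e σ = -(x σ * x σ) := ⟨_, fun _ => rfl⟩
  have ce' : ∀ σ, CC (e σ) := fun σ => by rw [he]; exact CC_neg (CC_mul (cx' σ) (cx' σ))
  have he1 : ∀ σ, D.xi (e σ) σ = 1 := fun σ => by
    rw [he, map_neg, Pi.neg_apply, D.mul _ _ (cx' σ) (cx' σ), hx1, p1, neg_neg]
  have he2 : ∀ σ τ, τ ≠ σ → D.xi (e σ) τ = 0 := fun σ τ h => by
    rw [he, map_neg, Pi.neg_apply, D.mul _ _ (cx' σ) (cx' σ), hx2 σ τ h, mul_zero, neg_zero]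
  -- identities between products of two elements
  have key : ∀ {σ : Fin k} {u v w : R917.GL.EC A}, CC u → CC v → CC w →
      (∀ τ, τ ≠ σ → D.xi u τ = 0) → (∀ τ, τ ≠ σ → D.xi w τ = 0) →
      D.xi u σ * D.xi v σ = D.xi w σ → u * v = w := by
    intro σ u v w hu hv hw h1 h2 h3
    refine px_ext D (CC_mul hu hv) hw fun τ => ?_
    rw [D.mul _ _ hu hv]
    by_cases h : τ = σ
    · rw [h]
      exact h3
    · rw [h1 τ h, h2 τ h, zero_mul]
  have hxy : ∀ σ, x σ * y σ = z σ := fun σ =>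
    key (cx' σ) (cy' σ) (cz' σ) (hx2 σ) (hz2 σ) (by rw [hx1, hy1, hz1, p4])
  have neg2 : ∀ {σ : Fin k} {u : R917.GL.EC A}, (∀ τ, τ ≠ σ → D.xi u τ = 0) →
      ∀ τ, τ ≠ σ → D.xi (-u) τ = 0 := by
    intro σ u h τ hτ
    rw [map_neg, Pi.neg_apply, h τ hτ, neg_zero]
  have zero : ∀ {s t : Fin k} {u v : R917.GL.EC A}, s ≠ t → CC u → CC v →
      (∀ τ, τ ≠ s → D.xi u τ = 0) → (∀ τ, τ ≠ t → D.xi v τ = 0) → u * v = 0 := by
    intro s t u v hst hu hv h1 h2
    refine D.injC _ (CC_mul hu hv) fun τ => ?_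
    rw [D.mul _ _ hu hv]
    by_cases h : τ = s
    · rw [h2 τ (by rw [h]; exact hst), mul_zero]
    · rw [h1 τ h, zero_mul]
  refine ⟨⟨e, x, y, fun σ => ⟨?_, ?_, ?_, ?_, ?_, ?_, ?_, ?_⟩, fun s t h => ?_, fun s t h => ?_,
    fun s t h => ?_, fun σ h => ?_, ?_⟩, fun s t h => ?_⟩
  · exact key (ce' σ) (ce' σ) (ce' σ) (he2 σ) (he2 σ) (by rw [he1, mul_one])
  · exact key (ce' σ) (cx' σ) (cx' σ) (he2 σ) (hx2 σ) (by rw [he1, one_mul])
  · exact key (cx' σ) (ce' σ) (cx' σ) (hx2 σ) (hx2 σ) (by rw [he1, mul_one])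
  · exact key (ce' σ) (cy' σ) (cy' σ) (he2 σ) (hy2 σ) (by rw [he1, one_mul])
  · exact key (cy' σ) (ce' σ) (cy' σ) (hy2 σ) (hy2 σ) (by rw [he1, mul_one])
  · exact key (cx' σ) (cx' σ) (CC_neg (ce' σ)) (hx2 σ) (neg2 (he2 σ)) (by
      rw [map_neg, Pi.neg_apply, he1, hx1, p1])
  · exact key (cy' σ) (cy' σ) (CC_neg (ce' σ)) (hy2 σ) (neg2 (he2 σ)) (by
      rw [map_neg, Pi.neg_apply, he1, hy1, p2])
  · rw [hxy]
    exact key (cy' σ) (cx' σ) (CC_neg (cz' σ)) (hy2 σ) (neg2 (hz2 σ)) (by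
      rw [map_neg, Pi.neg_apply, hz1, hy1, hx1, p3, p4])
  · rw [zero h (cx' s) (cx' t) (hx2 s) (hx2 t), zero h.symm (cx' t) (cx' s) (hx2 t) (hx2 s)]
  · rw [zero h (cx' s) (cy' t) (hx2 s) (hy2 t), zero h.symm (cy' t) (cx' s) (hy2 t) (hx2 s)]
  · rw [zero h (cy' s) (cy' t) (hy2 s) (hy2 t), zero h.symm (cy' t) (cy' s) (hy2 t) (hy2 s)]
  · have h1 := he1 σ
    rw [h, map_zero, Pi.zero_apply] at h1
    exact zero_ne_one h1
  · refine le_antisymm (fun X hX => ?_) (Submodule.span_le.2 ?_)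
    · have h1 : X = ∑ σ, ((-Complex.I * D.xi X σ 0 0) • x σ +
          (-Complex.I * (D.xi X σ 0 1 + D.xi X σ 1 0) / 2) • y σ +
          (-(D.xi X σ 0 1 - D.xi X σ 1 0) / 2) • (x σ * y σ)) := by
        refine px_ext D (CC_of_cx hX) (CC_sum _ fun σ _ => CC_add (CC_add (CC_smul _ (cx' σ))
          (CC_smul _ (cy' σ))) (CC_smul _ (CC_mul (cx' σ) (cy' σ)))) fun τ => ?_
        rw [map_sum, Finset.sum_apply, Finset.sum_eq_single τ]
        · rw [map_add, map_add, map_smul, map_smul, map_smul, Pi.add_apply, Pi.add_apply,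
            Pi.smul_apply, Pi.smul_apply, Pi.smul_apply, hxy, hx1, hy1, hz1]
          exact tz_span (D.tz X hX τ)
        · intro σ _ hσ
          rw [map_add, map_add, map_smul, map_smul, map_smul, Pi.add_apply, Pi.add_apply,
            Pi.smul_apply, Pi.smul_apply, Pi.smul_apply, hxy, hx2 σ τ hσ.symm,
            hy2 σ τ hσ.symm, hz2 σ τ hσ.symm, smul_zero, smul_zero, smul_zero, add_zero, add_zero]
        · intro h
          exact absurd (Finset.mem_univ _) h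
      rw [h1]
      exact Submodule.sum_mem _ fun σ _ => Submodule.add_mem _ (Submodule.add_mem _
        (Submodule.smul_mem _ _ (Submodule.subset_span ⟨σ, Or.inl rfl⟩))
        (Submodule.smul_mem _ _ (Submodule.subset_span ⟨σ, Or.inr (Or.inl rfl)⟩)))
        (Submodule.smul_mem _ _ (Submodule.subset_span ⟨σ, Or.inr (Or.inr rfl)⟩))
    · rintro _ ⟨σ, rfl | rfl | rfl⟩
      · exact hxM σ
      · exact hyM σ
      · rw [hxy]
        exact hzM σ
  · exact zero h (ce' s) (ce' t) (he2 s) (he2 t)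

end Pool.Agent.T9h38.TM
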