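import Pool.Agent.T9h38.TM.QFam
import Pool.Agent.T9h38.TM.PxQ
import Pool.Agent.T9h38.TM.FourQ
import Pool.Agent.T9h38.TM.AbReal

set_option autoImplicit false
set_option maxHeartbeats 1000000
set_option linter.unusedSectionVars false
set_option linter.unusedVariables false

/-!
# Families of abelian varieties of plane type, tensor type and spin type
-/

open Module Function TensorProduct

noncomputable section

namespace Pool.Agent.T9h38.TM

open Pool.Agent.Y102 Pool.Agent.W516.DR Pool.Agent.H204R3.GP Pool.Agent.W516.KC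
  Pool.Agent.H204R3.SP
open Pool.Agent.N192.GP
open Pool.Agent.T9h38.RM

/-- The members of the family, with `k` colours of rank `r`. -/
inductive MemA {g : ℕ} (A : AbVar g) (k r : ℕ) : Prop
  | quat (hf : Fine A) (h : A.NA ≠ ⊥ → ∃ Q : QS k (cx A.NA), Ty Q) (hr : r = 3)
  | spin (h : SpinMatK A k r) (hr : 6 ≤ r)

namespace MemA

variable {g k r : ℕ} {A : AbVar g} (h : MemA A k r)
include h

theorem fine : Fine A := by
  rcases h with ⟨hf, h, hr⟩ | ⟨h, hr⟩
  · exact hf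
  · exact fine_spin h

theorem ok : Ok r := by
  rcases h with ⟨hf, h, hr⟩ | ⟨h, hr⟩
  · exact Or.inl hr
  · exact Or.inr hr

theorem col (h0 : A.NA ≠ ⊥) : Nonempty (Col A.NA k r) := by
  rcases h with ⟨hf, h, hr⟩ | ⟨h, hr⟩
  · subst hr
    obtain ⟨Q, -⟩ := h h0
    exact Q.col
  · exact (Mem.spin h hr).col h0

end MemA

section Constr

variable {g k r : ℕ} {A : AbVar g}

theorem nontriv_of {A : AbVar g} (h0 : A.NA ≠ ⊥) : Nontrivial (ℂ ⊗[ℚ] A.H1) := by
  by_contra hc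
  have hs : Subsingleton (ℂ ⊗[ℚ] A.H1) := not_nontrivial_iff_subsingleton.1 hc
  apply h0
  rw [eq_bot_iff]
  intro X hX
  refine mem_of_bc ?_
  have h1 : X.baseChange ℂ = 0 := LinearMap.ext fun w => Subsingleton.elim _ _
  rw [h1]
  exact Submodule.zero_mem _

/-- Sums of planes. -/
theorem memA_plane {K : Type} [Fintype K] (D : PD A K k) : MemA A k 3 := by
  refine .quat (fine_plane D) (fun _ => ?_) rfl
  obtain ⟨D⟩ := D.out.1
  obtain ⟨Q, hQ⟩ := exists_qs D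
  exact ⟨Q, .orth hQ⟩

/-- Tensor products of planes. -/
theorem memA_tens (T : Tens A k) : MemA A k 3 := .quat T.fine (fun _ => ⟨T.Q, .one T.one⟩) rfl

/-- The trivial case. -/
theorem memA_zero (h : A.NA = ⊥) : MemA A k 3 := by
  refine .quat ⟨fun _ _ => ?_, ?_⟩ (fun h0 => absurd h h0) rfl
  · rw [h]
    exact bot_le
  · rw [h]
    exact bot_le

/-- The tensor type in terms of matrices. -/
theorem memA_tens_of_mat (x y : Fin k → Matrix (Fin (2 * g)) (Fin (2 * g)) ℂ)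
    (hx : ∀ s, x s * x s = -1) (hy : ∀ s, y s * y s = -1) (hyx : ∀ s, y s * x s = -(x s * y s))
    (cxx : ∀ s t, s ≠ t → x s * x t = x t * x s) (cxy : ∀ s t, s ≠ t → x s * y t = y t * x s)
    (cyy : ∀ s t, s ≠ t → y s * y t = y t * y s)
    (hl : Submodule.span ℂ {Y | ∃ X ∈ A.NA, Y = toC X} =
      Submodule.span ℂ {Y | ∃ s, Y = x s ∨ Y = y s ∨ Y = x s * y s}) : MemA A k 3 := by
  rcases Nat.eq_zero_or_pos g with hg | hg
  · subst hg
    refine memA_zero ?_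
    rw [eq_bot_iff]
    intro X _
    have h1 : X = 0 := LinearMap.ext fun w => funext fun i => i.elim0
    rw [h1]
    exact Submodule.zero_mem _
  · obtain ⟨T⟩ := tens_of_mat hg x y hx hy hyx cxx cxy cyy hl
    exact memA_tens T

/-- Spin type of rank three. -/
theorem memA_three (h : SpinMatK A k 3) : MemA A k 3 := by
  refine .quat (fine_spin h) (fun h0 => ?_) rfl
  have hn := nontriv_of h0
  obtain ⟨N, E, c, hE, hc, hg⟩ := h.spin
  obtain ⟨Q, hQ⟩ := exists_three hE hc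
  rw [hg]
  exact ⟨Q, .one hQ⟩

/-- Spin type of rank four. -/
theorem memA_four (h : SpinMatK A k 4) : MemA A (k * 2) 3 := by
  refine .quat (fine_spin h) (fun h0 => ?_) rfl
  have hn := nontriv_of h0
  obtain ⟨N, E, c, hE, hc, hg⟩ := h.spin
  obtain ⟨Q, hQ⟩ := exists_four hE hc
  rw [hg]
  exact ⟨Q, .pair k hQ⟩

end Constr

section Fam

variable {I J : Type} [Fintype I] [DecidableEq I] [Fintype J] [DecidableEq J]
  {g : I → ℕ} {A : ∀ i, AbVar (g i)} {d : J → ℕ} {V : ∀ j, DRS (d j)}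

/-- Two sums of quaternion algebras without homomorphisms are separated. -/
theorem sep_quats {i i' : I} {k k' : ℕ} (hf : Fine (A i)) (hf' : Fine (A i'))
    (Q : (A i).NA ≠ ⊥ → ∃ Q : QS k (cx (A i).NA), Ty Q)
    (Q' : (A i').NA ≠ ⊥ → ∃ Q : QS k' (cx (A i').NA), Ty Q)
    (hn : NoIdeals (A i).NA) (hn' : NoIdeals (A i').NA)
    (hom : ∀ f : (A i).H1 →ₗ[ℚ] (A i').H1, IsHomAb (A i) (A i') f → f = 0) :
    Pool.Agent.N192.GP.Sep (ηη A V) (Sum.inl i) (Sum.inl i') := by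
  have hs : NoIdeals (gg (ηη A V) (Sum.inl i)) := by rw [gg_fine hf]; exact hn
  have ht : NoIdeals (gg (ηη A V) (Sum.inl i')) := by rw [gg_fine hf']; exact hn'
  rcases link_or_sep hs ht (perf_fine hf) with hl | hl
  swap
  · exact hl
  by_cases hb : gg (ηη A V) (Sum.inl i) = ⊥
  · unfold Pool.Agent.N192.GP.Sep
    rw [hb]
    exact bot_le
  exfalso
  have hb' : gg (ηη A V) (Sum.inl i') ≠ ⊥ := fun h1 => hb (hl.symm.bot h1)
  have hN : (A i).NA ≠ ⊥ := fun h1 => hb (by rw [gg_fine hf]; exact h1)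
  have hN' : (A i').NA ≠ ⊥ := fun h1 => hb' (by rw [gg_fine hf']; exact h1)
  obtain ⟨Q, t⟩ := Q hN
  obtain ⟨Q', t'⟩ := Q' hN'
  have hn1 := nontriv_of hN
  have hn2 := nontriv_of hN'
  have h1 := lkQ_of (V := V) hf hf' hl
  have h2 := lkQ_of (V := V) hf' hf hl.symm
  obtain ⟨f₀, hf₀, hf₁⟩ := hom_of_link h1 Q Q' (AbR.abRS (A i)) (AbR.abRS (A i')) h2
    (AbR.dec_cx2 (A i) (A i') _) (AbR.dec_cx2 (A i') (A i) _) t t'
  exact hf₀ (inter_zero (V := V) hom hf₁)

theorem not_linkedA {i i' : I} {k k' r : ℕ} (hf : Fine (A i)) (Q : QS k (cx (A i).NA))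
    (h' : SpinMatK (A i') k' r)
    (hr : 6 ≤ r) (hb : gg (ηη A V) (Sum.inl i') ≠ ⊥)
    (hl : Linked (ηη A V) (Sum.inl i) (Sum.inl i')) : False := by
  have hf' := fine_spin h'
  have h1 := lkQ_of (V := V) hf hf' hl
  have h2 : (A i').NA ≠ ⊥ := by
    intro h3
    apply hb
    rw [gg_fine hf']
    exact h3
  obtain ⟨C⟩ := (Mem.spin h' hr).col h2
  exact h2 (no_linkQ Q C h1 hr)

/-- Two members without homomorphisms are separated. -/
theorem sep_memA {i i' : I} {k k' r r' : ℕ} (h : MemA (A i) k r) (h' : MemA (A i') k' r')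
    (hn : NoIdeals (A i).NA) (hn' : NoIdeals (A i').NA)
    (hom : ∀ f : (A i).H1 →ₗ[ℚ] (A i').H1, IsHomAb (A i) (A i') f → f = 0) :
    Pool.Agent.N192.GP.Sep (ηη A V) (Sum.inl i) (Sum.inl i') := by
  have hs : NoIdeals (gg (ηη A V) (Sum.inl i)) := by rw [gg_fine h.fine]; exact hn
  have ht : NoIdeals (gg (ηη A V) (Sum.inl i')) := by rw [gg_fine h'.fine]; exact hn'
  rcases link_or_sep hs ht (perf_fine h.fine) with hl | hl
  swap
  · exact hl
  by_cases hb : gg (ηη A V) (Sum.inl i) = ⊥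
  · unfold Pool.Agent.N192.GP.Sep
    rw [hb]
    exact bot_le
  have hb' : gg (ηη A V) (Sum.inl i') ≠ ⊥ := fun h1 => hb (hl.symm.bot h1)
  have hN : (A i).NA ≠ ⊥ := fun h1 => hb (by rw [gg_fine h.fine]; exact h1)
  have hN' : (A i').NA ≠ ⊥ := fun h1 => hb' (by rw [gg_fine h'.fine]; exact h1)
  obtain ⟨hf, Q, hr⟩ | ⟨hS, hr⟩ := h
  · obtain ⟨hf', Q', hr'⟩ | ⟨hS', hr'⟩ := h'
    · exact sep_quats hf hf' Q Q' hn hn' hom
    · obtain ⟨Q, -⟩ := Q hN
      exact (not_linkedA hf Q hS' hr' hb' hl).elim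
  · obtain ⟨hf', Q', hr'⟩ | ⟨hS', hr'⟩ := h'
    · obtain ⟨Q', -⟩ := Q' hN'
      exact (not_linkedA hf' Q' hS hr hb hl.symm).elim
    · exact sep_spins hS hS' hr hr' hs ht hom

theorem fit_ofA {k r : I → ℕ} (h : ∀ i, MemA (A i) (k i) (r i)) (hn : ∀ i, NoIdeals (A i).NA)
    (hom : ∀ i i', i ≠ i' → ∀ f : (A i).H1 →ₗ[ℚ] (A i').H1, IsHomAb (A i) (A i') f → f = 0)
    (hV : ∀ i j, SepU ⟨2 * g i, DA A i⟩ ⟨d j, V j⟩) : Fit A V where
  fine i := (h i).fine
  sep i i' hne := sep_memA (h i) (h i') (hn i) (hn i') (hom i i' hne)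
  sepV i j := sep_final (hV i j)

/-- **The number of exceptional members.** -/
theorem exc_dimA {r k : I → ℕ} (h : ∀ i, MemA (A i) (k i) (r i)) (hn : ∀ i, NoIdeals (A i).NA)
    (hom : ∀ i i', i ≠ i' → ∀ f : (A i).H1 →ₗ[ℚ] (A i').H1, IsHomAb (A i) (A i') f → f = 0)
    {m : ℕ} (U : DRS m) (hU : ∀ i, ¬SepU ⟨2 * g i, DA A i⟩ ⟨m, U⟩) :
    ∑ i, k i * bet (r i) ≤ m := by
  let V : Unit → DRS m := fun _ => U
  have hnot : ∀ i, ¬Pool.Agent.N192.GP.Sep (ηη A V) (Sum.inl i) (Sum.inr ()) := fun i hs =>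
    hU i (sepU_of_final (V := V) hs)
  have hne : ∀ i, gg (ηη A V) (Sum.inl i) ≠ ⊥ := by
    intro i hb
    apply hnot i
    unfold Pool.Agent.N192.GP.Sep
    rw [hb]
    exact bot_le
  have h1 := fam_dimB (η := ηη A V) (S := Finset.univ.map ⟨Sum.inl, Sum.inl_injective⟩)
    (u := Sum.inr ()) (k := Sum.elim k fun _ => 0) (r := Sum.elim r fun _ => 0)
    (fun s hs => by
      obtain ⟨i, -, rfl⟩ := Finset.mem_map.1 hs
      exact (h i).ok)
    (fun s hs => by
      obtain ⟨i, -, rfl⟩ := Finset.mem_map.1 hs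
      have h2 := hne i
      change Nonempty (Col (gg (ηη A V) (Sum.inl i)) (k i) (r i))
      rw [gg_fine (h i).fine] at h2 ⊢
      exact (h i).col h2)
    (fun s hs => by
      obtain ⟨i, -, rfl⟩ := Finset.mem_map.1 hs
      change NoIdeals (gg (ηη A V) (Sum.inl i))
      rw [gg_fine (h i).fine]
      exact hn i)
    (fun s hs => by
      obtain ⟨i, -, rfl⟩ := Finset.mem_map.1 hs
      exact perf_fine (h i).fine)
    (fun s hs t ht hst => by
      obtain ⟨i, -, rfl⟩ := Finset.mem_map.1 hs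
      obtain ⟨i', -, rfl⟩ := Finset.mem_map.1 ht
      have hne : i ≠ i' := fun h => hst (by rw [h])
      exact sep_memA (h i) (h i') (hn i) (hn i') (hom i i' hne))
    (fun s hs => by
      obtain ⟨i, -, rfl⟩ := Finset.mem_map.1 hs
      exact hnot i)
  rw [Finset.sum_map] at h1
  exact h1

end Fam

theorem MemA.perfU {I : Type} {g : I → ℕ} {A : ∀ i, AbVar (g i)} {i : I} {k r : ℕ}
    (h : MemA (A i) k r) : ggU ⟨2 * g i, DA A i⟩ ≤
      Pool.Agent.N192.GP.brk (ggU ⟨2 * g i, DA A i⟩) (ggU ⟨2 * g i, DA A i⟩) := by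
  have h1 : ggU ⟨2 * g i, DA (fun _ : Unit => A i) ()⟩ =
      ((A i).NA : Submodule ℚ (Module.End ℚ (A i).H1)) :=
    ggU_fine (I := Unit) (A := fun _ => A i) (i := ()) h.fine
  have h2 := h.fine.perf
  rw [← h1] at h2
  exact h2

end Pool.Agent.T9h38.TM
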