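import Pool.Agent.T9h38.TM.RealS

set_option autoImplicit false
set_option maxHeartbeats 1000000
set_option linter.unusedSectionVars false
set_option linter.unusedVariables false

/-!
# Sums of quaternion algebras: the complex structure and the correspondence of the colours
-/

open Module Function TensorProduct

noncomputable section

namespace Pool.Agent.T9h38.TM

open Pool.Agent.Y102 Pool.Agent.W516.DR Pool.Agent.H204R3.GP Pool.Agent.W516.KC
  Pool.Agent.H204R3.SP
open Pool.Agent.N192.GP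
open Pool.Agent.T9h38.RM

section One

variable {U : Type} [AddCommGroup U] [Module ℂ U] {k : ℕ}
  {M : Submodule ℂ (Module.End ℂ U)} (Q : QS k M)

namespace QS

/-- Elements which commute with the generators of a colour. -/
theorem comm_S {s : Fin k} {r : Module.End ℂ U} (hx : r * Q.x s = Q.x s * r)
    (hy : r * Q.y s = Q.y s * r) {z : Module.End ℂ U} (hz : z ∈ Q.S s) : r * z = z * r := by
  obtain ⟨a, b, c, rfl⟩ := Q.exists_S hz
  have hxy : r * (Q.x s * Q.y s) = Q.x s * Q.y s * r := by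
    rw [← mul_assoc, hx, mul_assoc, hy, mul_assoc]
  simp only [mul_add, add_mul, mul_smul_comm, smul_mul_assoc, hx, hy, hxy]

theorem e_comm (s : Fin k) {t : Fin k} {z : Module.End ℂ U} (hz : z ∈ Q.S t) :
    Q.e s * z = z * Q.e s := by
  by_cases h : s = t
  · subst h
    rw [(Q.e_S hz).1, (Q.e_S hz).2]
  · have h1 : Q.e s = -(Q.x s * Q.x s) := by rw [(Q.q s).xx, neg_neg]
    have h2 := Q.comm h (Q.mx s) hz
    rw [h1, neg_mul, mul_neg, mul_assoc, h2, ← mul_assoc, h2, mul_assoc]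

theorem e_e (s t : Fin k) : Q.e s * Q.e t = Q.e t * Q.e s := by
  have h1 : Q.e t = -(Q.x t * Q.x t) := by rw [(Q.q t).xx, neg_neg]
  have h2 := Q.e_comm s (Q.mx t)
  rw [h1, mul_neg, neg_mul, ← mul_assoc, h2, mul_assoc, h2, mul_assoc]

/-- Products of elements of different colours. -/
theorem mul_ne' {s : Fin k} {w r : Module.End ℂ U} (hw : w ∈ Q.S s)
    (h : w * r = 0) (hr : ∀ u ∈ Q.S s, r * u = u * r) (hw0 : w ≠ 0) : Q.e s * r = 0 := by
  have hx := hr _ (Q.mx s)
  have hy := hr _ (Q.my s)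
  obtain ⟨a, b, c, rfl⟩ := Q.exists_S hw
  obtain ⟨h1, h2, h3, h4, h5, -, -⟩ := q_z (Q.q s)
  have h6 := (Q.q s).xx
  have h7 := (Q.q s).yy
  have h8 := (Q.q s).yx
  obtain ⟨w, hwd⟩ : ∃ w, w = a • Q.x s + b • Q.y s + c • (Q.x s * Q.y s) := ⟨_, rfl⟩
  rw [← hwd] at h hw0
  have key : ∀ (u : Module.End ℂ U) (t : ℂ), r * u = u * r →
      u * w + w * u = (-2 * t) • Q.e s → t • (Q.e s * r) = 0 := by
    intro u t hu hut
    have e1 : (u * w + w * u) * r = 0 := by
      rw [add_mul, mul_assoc, h, mul_zero, zero_add, mul_assoc, ← hu, ← mul_assoc, h, zero_mul]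
    rw [hut, smul_mul_assoc] at e1
    have e2 : t • (Q.e s * r) = (-1 / 2 : ℂ) • ((-2 * t) • (Q.e s * r)) := by module
    rw [e2, e1, smul_zero]
  have k1 := key (Q.x s) a hx (by
    rw [hwd]
    simp only [mul_add, add_mul, mul_smul_comm, smul_mul_assoc, h1, h2, h6, h8]
    module)
  have k2 := key (Q.y s) b hy (by
    rw [hwd]
    simp only [mul_add, add_mul, mul_smul_comm, smul_mul_assoc, h3, h4, h7, h8]
    module)
  have k3 := key (Q.x s * Q.y s) c (by rw [← mul_assoc, hx, mul_assoc, hy, mul_assoc]) (by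
    rw [hwd]
    simp only [mul_add, add_mul, mul_smul_comm, smul_mul_assoc, h1, h2, h3, h4, h5]
    module)
  by_contra hr
  apply hw0
  rw [hwd, (smul_eq_zero.1 k1).resolve_right hr, (smul_eq_zero.1 k2).resolve_right hr,
    (smul_eq_zero.1 k3).resolve_right hr, zero_smul, zero_smul, zero_smul, add_zero, add_zero]

end QS

end One

section Two

variable {U : Type} [AddCommGroup U] [Module ℂ U] [FiniteDimensional ℂ U] {k : ℕ}
  {M : Submodule ℂ (Module.End ℂ U)} (Q : QS k M)

namespace QS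

theorem e_M (s : Fin k) {z : Module.End ℂ U} (hz : z ∈ M) : Q.e s * z = z * Q.e s := by
  rw [Q.p_sum hz, Finset.mul_sum, Finset.sum_mul]
  exact Finset.sum_congr rfl fun t _ => Q.e_comm s (Q.p_mem t z)

/-- An element which does not commute with a nonzero element of a colour. -/
theorem exists_br {s : Fin k} {z : Module.End ℂ U} (hz : z ∈ Q.S s) (h : z ≠ 0) :
    ∃ y ∈ Q.S s, y * z - z * y ≠ 0 := by
  by_contra hcon
  push Not at hcon
  exact h (Q.cent hz hcon)

variable {J : Module.End ℂ U} (hJ : J ∈ M) (hJJ : J * J = -1)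

/-- The part outside a colour. -/
theorem rest_comm (hJ : J ∈ M) (s : Fin k) : ∀ u ∈ Q.S s, (J - Q.p s J) * u = u * (J - Q.p s J) := by
  intro u hu
  have e1 := Q.part hu hJ
  have e2 : (J - Q.p s J) * u - u * (J - Q.p s J) =
      (u * Q.p s J - Q.p s J * u) - (u * J - J * u) := by noncomm_ring
  rw [e1, sub_self] at e2
  exact sub_eq_zero.1 e2

include hJ hJJ

theorem nc_rest {s : Fin k} (h : Q.p s J ≠ 0) : Q.e s * (J - Q.p s J) = 0 := by
  obtain ⟨z, hz, hw⟩ := Q.exists_br (Q.p_mem s J) h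
  obtain ⟨ν, hν⟩ := Q.S_sq (Q.p_mem s J)
  have hzJ : z * J - J * z = z * Q.p s J - Q.p s J * z := Q.part hz hJ
  obtain ⟨w, hwd⟩ : ∃ w, w = z * Q.p s J - Q.p s J * z := ⟨_, rfl⟩
  have hwS : w ∈ Q.S s := by
    rw [hwd]
    exact Q.S_br hz (Q.p_mem s J)
  rw [← hwd] at hw hzJ
  have a1 : w * J + J * w = 0 := by
    have e1 : w * J + J * w = z * (J * J) - J * J * z := by
      rw [← hzJ]
      noncomm_ring
    rw [e1, hJJ]
    noncomm_ring
  have a2 : w * Q.p s J + Q.p s J * w = 0 := by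
    have e1 : w * Q.p s J + Q.p s J * w = z * (Q.p s J * Q.p s J) - Q.p s J * Q.p s J * z := by
      rw [hwd]
      noncomm_ring
    rw [e1, hν, mul_smul_comm, smul_mul_assoc, (Q.e_S hz).1, (Q.e_S hz).2, sub_self]
  have hr := Q.rest_comm hJ s
  have a3 : w * (J - Q.p s J) = 0 := by
    have e1 := hr w hwS
    have e2 : (2 : ℂ) • (w * (J - Q.p s J)) = w * (J - Q.p s J) + (J - Q.p s J) * w := by
      rw [e1]
      module
    have e3 : w * (J - Q.p s J) + (J - Q.p s J) * w =
        (w * J + J * w) - (w * Q.p s J + Q.p s J * w) := by noncomm_ring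
    rw [e3, a1, a2, sub_zero] at e2
    exact (smul_eq_zero.1 e2).resolve_left two_ne_zero
  exact Q.mul_ne' hwS a3 hr hw

/-- Different colours with a component of the complex structure are orthogonal. -/
theorem nc_unique {s t : Fin k} (hst : s ≠ t) (hs : Q.p s J ≠ 0) (ht : Q.p t J ≠ 0) :
    Q.e s * Q.e t = 0 := by
  have h1 := Q.nc_rest hJ hJJ hs
  obtain ⟨z, hz, hw⟩ := Q.exists_br (Q.p_mem t J) ht
  rw [← Q.part hz hJ] at hw
  have hwS : z * J - J * z ∈ Q.S t := by
    rw [Q.part hz hJ]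
    exact Q.S_br hz (Q.p_mem t J)
  have h2 : Q.e s * (z * J - J * z) = 0 := by
    have e1 : z * J - J * z = z * (J - Q.p s J) - (J - Q.p s J) * z := by
      have e2 : z * Q.p s J = Q.p s J * z := Q.comm hst.symm hz (Q.p_mem s J)
      have e3 : z * (J - Q.p s J) - (J - Q.p s J) * z =
          z * J - J * z - (z * Q.p s J - Q.p s J * z) := by noncomm_ring
      rw [e3, e2, sub_self, sub_zero]
    rw [e1, mul_sub, ← mul_assoc, ← mul_assoc, h1, zero_mul, sub_zero, Q.e_comm s hz, mul_assoc,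
      h1, mul_zero]
  rw [Q.e_comm s hwS] at h2
  have h3 := Q.mul_ne' hwS h2 (fun u hu => Q.e_comm s hu) hw
  rw [Q.e_e, h3]

/-- Every part of the representation has a colour with a component of the complex structure. -/
theorem nc_exists {P : Module.End ℂ U} (hP : P ≠ 0) (hPM : ∀ z ∈ M, P * z = z * P) :
    ∃ s, Q.p s J ≠ 0 ∧ Q.e s * P ≠ 0 := by
  by_contra hcon
  push Not at hcon
  apply hP
  have h1 : J * P = 0 := by
    rw [Q.p_sum hJ, Finset.sum_mul]
    refine Finset.sum_eq_zero fun s _ => ?_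
    by_cases h : Q.p s J = 0
    · rw [h, zero_mul]
    · rw [← (Q.e_S (Q.p_mem s J)).2, mul_assoc, hcon s h, mul_zero]
  have h2 : J * J * P = 0 := by rw [mul_assoc, h1, mul_zero]
  rw [hJJ, neg_one_mul] at h2
  exact neg_eq_zero.1 h2

end QS

end Two

section Cor

variable {U U' : Type} [AddCommGroup U] [Module ℂ U] [AddCommGroup U'] [Module ℂ U']
  {M : Submodule ℂ (Module.End ℂ U)} {M' : Submodule ℂ (Module.End ℂ U')}
  {𝔮 : Submodule ℂ (Module.End ℂ U × Module.End ℂ U')} (h : LkQ M M' 𝔮)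
  [FiniteDimensional ℂ U] [FiniteDimensional ℂ U'] {k k' : ℕ} (Q : QS k M) (Q' : QS k' M')

/-- Corresponding colours. -/
structure Cor (𝔮 : Submodule ℂ (Module.End ℂ U × Module.End ℂ U')) (Q : QS k M) (Q' : QS k' M')
    (s : Fin k) (t : Fin k') : Prop where
  fwd : ∀ x y, (x, y) ∈ 𝔮 → x ∈ Q.S s → y ∈ Q'.S t
  bwd : ∀ y ∈ Q'.S t, ∃ x ∈ Q.S s, (x, y) ∈ 𝔮

include h

/-- The bijection of the colours. -/
theorem LkQ.exists_equiv : ∃ π : Fin k ≃ Fin k', ∀ s, Cor 𝔮 Q Q' s (π s) := by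
  choose t ht1 ht2 using fun s => h.colour Q Q' s
  have hinj : Function.Injective t := by
    intro a b hab
    by_contra hne
    obtain ⟨y, hy⟩ := h.mem_fst (Q.S_le a (Q.mx a))
    have hy1 := ht1 a _ _ hy (Q.mx a)
    rw [hab] at hy1
    obtain ⟨x, hx, hxy⟩ := ht2 b y hy1
    have h1 := 𝔮.sub_mem hy hxy
    have h2 : ((Q.x a, y) : Module.End ℂ U × Module.End ℂ U') - (x, y) = (Q.x a - x, 0) :=
      Prod.ext rfl (sub_self y)
    rw [h2] at h1
    have h3 := sub_eq_zero.1 (h.inj' _ h1)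
    have h4 := Q.p_same (Q.mx a)
    rw [h3, Q.p_other hne hx] at h4
    exact Q.x_ne a (h3.trans h4.symm)
  have hsur : Function.Surjective t := by
    intro b
    by_contra hcon
    push Not at hcon
    obtain ⟨x, hxy⟩ := h.mem_snd (Q'.S_le b (Q'.mx b))
    have hxM := h.fst_mem hxy
    choose F hF using fun a => h.mem_fst (Q.S_le a (Q.p_mem a x))
    have hFS : ∀ a, F a ∈ Q'.S (t a) := fun a => ht1 a _ _ (hF a) (Q.p_mem a x)
    have h1 : Q'.x b = ∑ a, F a := by
      refine h.uniq hxy ?_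
      have e1 := 𝔮.sum_mem (t := Finset.univ) fun a _ => hF a
      have e2 : (∑ a, ((Q.p a x, F a) : Module.End ℂ U × Module.End ℂ U')) = (x, ∑ a, F a) := by
        refine Prod.ext ?_ ?_
        · rw [Prod.fst_sum]
          exact (Q.p_sum hxM).symm
        · rw [Prod.snd_sum]
      rwa [e2] at e1
    have h2 := Q'.p_same (Q'.mx b)
    rw [h1, map_sum, Finset.sum_eq_zero fun a _ => Q'.p_other (hcon a).symm (hFS a), ← h1] at h2
    exact Q'.x_ne b h2.symm
  exact ⟨Equiv.ofBijective t ⟨hinj, hsur⟩, fun s => ⟨ht1 s, ht2 s⟩⟩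

end Cor

end Pool.Agent.T9h38.TM
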