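import Pool.Agent.T9h38.TM.Gen

set_option autoImplicit false
set_option maxHeartbeats 1000000
set_option linter.unusedSectionVars false
set_option linter.unusedVariables false

/-!
# Intertwining maps for sums of tensor products of planes
-/

open Module Function TensorProduct

noncomputable section

namespace Pool.Agent.T9h38.TM

open Pool.Agent.Y102 Pool.Agent.W516.DR Pool.Agent.H204R3.GP Pool.Agent.W516.KC
  Pool.Agent.H204R3.SP
open Pool.Agent.N192.GP
open Pool.Agent.T9h38.RM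

section Rs

variable {U W : Type} [AddCommGroup U] [Module ℂ U] [AddCommGroup W] [Module ℂ W]
  (r : U →ₗ[ℂ] W) (i : W →ₗ[ℂ] U)

/-- The restriction to a direct summand. -/
def rs (z : Module.End ℂ U) : Module.End ℂ W := r.comp (z.comp i)

theorem rs_apply (z : Module.End ℂ U) (w : W) : rs r i z w = r (z (i w)) := rfl

theorem rs_sub (z w : Module.End ℂ U) : rs r i (z - w) = rs r i z - rs r i w := by
  unfold rs
  rw [LinearMap.sub_comp, LinearMap.comp_sub]

theorem rs_neg (z : Module.End ℂ U) : rs r i (-z) = -rs r i z := by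
  unfold rs
  rw [LinearMap.neg_comp, LinearMap.comp_neg]

theorem rs_smul (c : ℂ) (z : Module.End ℂ U) : rs r i (c • z) = c • rs r i z := by
  unfold rs
  rw [LinearMap.smul_comp, LinearMap.comp_smul]

variable {r i} {P : Module.End ℂ U}

theorem rs_mul (hri : ∀ w, r (i w) = w) (hir : ∀ u, i (r u) = P u) {z w : Module.End ℂ U}
    (hw : P * w = w * P) : rs r i (z * w) = rs r i z * rs r i w := by
  refine LinearMap.ext fun u => ?_
  rw [rs_apply, Module.End.mul_apply, Module.End.mul_apply, rs_apply, rs_apply, hir]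
  have h1 : P (w (i u)) = w (P (i u)) := LinearMap.congr_fun hw (i u)
  rw [h1, ← hir, hri]

theorem rs_one (hri : ∀ w, r (i w) = w) (hir : ∀ u, i (r u) = P u) {z : Module.End ℂ U}
    (hz : z * P = P) : rs r i z = 1 := by
  refine LinearMap.ext fun u => ?_
  rw [rs_apply, Module.End.one_apply]
  have h1 : z (P (i u)) = P (i u) := LinearMap.congr_fun hz (i u)
  rw [← hir, hri] at h1
  rw [h1, hri]

end Rs

section Main

variable {U U' : Type} [AddCommGroup U] [Module ℂ U] [AddCommGroup U'] [Module ℂ U']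
  {M : Submodule ℂ (Module.End ℂ U)} {M' : Submodule ℂ (Module.End ℂ U')}
  {𝔮 : Submodule ℂ (Module.End ℂ U × Module.End ℂ U')} (h : LkQ M M' 𝔮)
  [FiniteDimensional ℂ U] [FiniteDimensional ℂ U'] {k k' : ℕ} (Q : QS k M) (Q' : QS k' M')

include h

/-- **The intertwining map** for two sums of tensor products of planes with a common term. -/
theorem LkQ.exists_TW {W W' : Type} [AddCommGroup W] [Module ℂ W] [AddCommGroup W'] [Module ℂ W']
    [Nontrivial W] [Nontrivial W'] {r : U →ₗ[ℂ] W} {i : W →ₗ[ℂ] U} {r' : U' →ₗ[ℂ] W'}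
    {i' : W' →ₗ[ℂ] U'} {π : Fin k → Fin k'} (hπ : ∀ s, Cor 𝔮 Q Q' s (π s))
    {P : Module.End ℂ U} {P' : Module.End ℂ U'} (hri : ∀ w, r (i w) = w)
    (hir : ∀ u, i (r u) = P u) (hri' : ∀ w, r' (i' w) = w) (hir' : ∀ u, i' (r' u) = P' u)
    (hPM : ∀ z ∈ M, P * z = z * P) (hPM' : ∀ z ∈ M', P' * z = z * P')
    (hcol : ∀ s, (Q.e s * P = P ∧ Q'.e (π s) * P' = P') ∨
      (Q.e s * P = 0 ∧ Q'.e (π s) * P' = 0)) :
    ∃ T : U →ₗ[ℂ] U', T ≠ 0 ∧ ∀ x y, (x, y) ∈ 𝔮 → y.comp T = T.comp x := by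
  classical
  have hP0 : P ≠ 0 := by
    intro h0
    obtain ⟨w, hw⟩ := exists_ne (0 : W)
    apply hw
    rw [← hri w, ← hri w, hir, h0, LinearMap.zero_apply, map_zero]
  have hP : ∀ u, P (P u) = P u := fun u => by rw [← hir u, ← hir, hri]
  choose α hα using fun s => h.mem_fst (Q.S_le s (Q.mx s))
  choose β hβ using fun s => h.mem_fst (Q.S_le s (Q.my s))
  choose γ hγ using fun s => h.mem_fst (Q.S_le s (Q.mz s))
  have hαS : ∀ s, α s ∈ Q'.S (π s) := fun s => (hπ s).fwd _ _ (hα s) (Q.mx s)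
  have hβS : ∀ s, β s ∈ Q'.S (π s) := fun s => (hπ s).fwd _ _ (hβ s) (Q.my s)
  have hγS : ∀ s, γ s ∈ Q'.S (π s) := fun s => (hπ s).fwd _ _ (hγ s) (Q.mz s)
  have hc : ∀ {s} {z : Module.End ℂ U}, z ∈ Q.S s → P * z = z * P := fun hz => hPM _ (Q.S_le _ hz)
  have hc' : ∀ {s} {z : Module.End ℂ U'}, z ∈ Q'.S s → P' * z = z * P' := fun hz =>
    hPM' _ (Q'.S_le _ hz)
  have sqα : ∀ s, Q'.e (π s) * P' = P' → rs r' i' (α s) * rs r' i' (α s) = -1 := by
    intro s hs
    have h1 := h.nu Q Q' (hπ s).bwd (hα s) (Q.mx s) (hαS s) (ν := -1)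
      (by rw [(Q.q s).xx, neg_one_smul])
    rw [← rs_mul hri' hir' (hc' (hαS s)), h1, rs_smul, rs_one hri' hir' hs, neg_one_smul]
  have sqβ : ∀ s, Q'.e (π s) * P' = P' → rs r' i' (β s) * rs r' i' (β s) = -1 := by
    intro s hs
    have h1 := h.nu Q Q' (hπ s).bwd (hβ s) (Q.my s) (hβS s) (ν := -1)
      (by rw [(Q.q s).yy, neg_one_smul])
    rw [← rs_mul hri' hir' (hc' (hβS s)), h1, rs_smul, rs_one hri' hir' hs, neg_one_smul]
  have hrel : ∀ s, Q'.e (π s) * P' = P' → rs r' i' (α s) * rs r' i' (β s) =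
      -(rs r' i' (β s) * rs r' i' (α s)) ∧ -rs r' i' (γ s) = -(rs r' i' (α s) * rs r' i' (β s)) := by
    intro s hs
    obtain ⟨h1, h2, h3, h4, h5, h6, h7⟩ := q_z (Q.q s)
    refine rel_anti (sqα s hs) ?_ ?_
    · have g1 := h.brk (hα s) (hβ s)
      have g2 : Q.x s * Q.y s - Q.y s * Q.x s = (2 : ℂ) • (Q.x s * Q.y s) := by
        rw [(Q.q s).yx]
        module
      rw [g2] at g1
      have g3 := congrArg (rs r' i') (h.uniq g1 (𝔮.smul_mem (2 : ℂ) (hγ s)))
      have g4 : rs r' i' (α s * β s - β s * α s) = (2 : ℂ) • rs r' i' (γ s) :=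
        g3.trans (rs_smul r' i' 2 (γ s))
      rw [rs_sub, rs_mul hri' hir' (hc' (hβS s)), rs_mul hri' hir' (hc' (hαS s))] at g4
      rw [g4]
      module
    · have g1 := h.brk (hγ s) (hα s)
      have g2 : Q.x s * Q.y s * Q.x s - Q.x s * (Q.x s * Q.y s) = (2 : ℂ) • Q.y s := by
        rw [h2, h1]
        module
      rw [g2] at g1
      have g3 := congrArg (rs r' i') (h.uniq g1 (𝔮.smul_mem (2 : ℂ) (hβ s)))
      have g4 : rs r' i' (γ s * α s - α s * γ s) = (2 : ℂ) • rs r' i' (β s) :=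
        g3.trans (rs_smul r' i' 2 (β s))
      rw [rs_sub, rs_mul hri' hir' (hc' (hαS s)), rs_mul hri' hir' (hc' (hγS s))] at g4
      have g5 : -rs r' i' (γ s) * rs r' i' (α s) - rs r' i' (α s) * -rs r' i' (γ s) =
          -(rs r' i' (γ s) * rs r' i' (α s) - rs r' i' (α s) * rs r' i' (γ s)) := by noncomm_ring
      rw [g5, g4]
      module
  have hdiff : ∀ {u v : Module.End ℂ U} {u' v' : Module.End ℂ U'}, (u, u') ∈ 𝔮 → (v, v') ∈ 𝔮 →
      u * v = v * u → u' * v' = v' * u' := by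
    intro u v u' v' hu hv huv
    have g1 := h.brk hu hv
    rw [huv, sub_self] at g1
    exact sub_eq_zero.1 (h.inj _ g1)
  let ι : Type := {s : Fin k // Q.e s * P = P} × Bool
  have hι : ∀ s : {s : Fin k // Q.e s * P = P}, Q'.e (π s.1) * P' = P' := by
    intro s
    rcases hcol s.1 with h1 | h1
    · exact h1.2
    · exact absurd (s.2.symm.trans h1.1) hP0
  let F : ι → Module.End ℂ W := fun a =>
    rs r i (if a.2 then Q.x a.1.1 else Q.y a.1.1)
  let F' : ι → Module.End ℂ W' := fun a =>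
    rs r' i' (if a.2 then α a.1.1 else β a.1.1)
  have hne : ∀ a b : ι, a ≠ b → a.1.1 ≠ b.1.1 ∨ (a.1 = b.1 ∧ a.2 = !b.2) := by
    rintro ⟨s, b⟩ ⟨s', b'⟩ hab
    by_cases hs : s = s'
    · right
      subst hs
      refine ⟨rfl, ?_⟩
      cases b <;> cases b'
      · exact absurd rfl hab
      · rfl
      · rfl
      · exact absurd rfl hab
    · exact Or.inl fun h => hs (Subtype.ext h)
  have hxx : ∀ s : {s : Fin k // Q.e s * P = P}, rs r i (Q.x s.1) * rs r i (Q.x s.1) = -1 := by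
    intro s
    rw [← rs_mul hri hir (hc (Q.mx _)), (Q.q s.1).xx, rs_neg, rs_one hri hir s.2]
  have hyy : ∀ s : {s : Fin k // Q.e s * P = P}, rs r i (Q.y s.1) * rs r i (Q.y s.1) = -1 := by
    intro s
    rw [← rs_mul hri hir (hc (Q.my _)), (Q.q s.1).yy, rs_neg, rs_one hri hir s.2]
  have hyx : ∀ s : {s : Fin k // Q.e s * P = P}, rs r i (Q.y s.1) * rs r i (Q.x s.1) =
      -(rs r i (Q.x s.1) * rs r i (Q.y s.1)) := by
    intro s
    rw [← rs_mul hri hir (hc (Q.mx _)), (Q.q s.1).yx, rs_neg, rs_mul hri hir (hc (Q.my _))]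
  have hlin : ∀ s, ∀ z, (z = Q.x s ∨ z = Q.y s) → z ∈ Q.S s := by
    rintro s z (rfl | rfl)
    · exact Q.mx s
    · exact Q.my s
  have hifS : ∀ a : ι, (if a.2 then Q.x a.1.1 else Q.y a.1.1) ∈ Q.S a.1.1 := by
    intro a
    split_ifs
    · exact Q.mx _
    · exact Q.my _
  have hifS' : ∀ a : ι, (if a.2 then α a.1.1 else β a.1.1) ∈ Q'.S (π a.1.1) := by
    intro a
    split_ifs
    · exact hαS _
    · exact hβS _
  have hFF : ∀ a : ι, ((if a.2 then Q.x a.1.1 else Q.y a.1.1),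
      (if a.2 then α a.1.1 else β a.1.1)) ∈ 𝔮 := by
    rintro ⟨s, b⟩
    cases b
    · exact hβ s.1
    · exact hα s.1
  have htwo : Two F F' := by
    refine ⟨?_, ?_, ?_⟩
    · rintro ⟨s, b⟩
      cases b
      · exact hyy s
      · exact hxx s
    · rintro ⟨s, b⟩
      cases b
      · exact sqβ s.1 (hι s)
      · exact sqα s.1 (hι s)
    · intro a b hab
      rcases hne a b hab with h1 | ⟨h1, h2⟩
      · have e1 := Q.comm h1 (hifS a) (hifS b)
        have e2 := hdiff (hFF a) (hFF b) e1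
        refine ⟨1, one_mul 1, ?_, ?_⟩
        · change rs r i _ * rs r i _ = (1 : ℂ) • (rs r i _ * rs r i _)
          rw [one_smul, ← rs_mul hri hir (hc (hifS b)), ← rs_mul hri hir (hc (hifS a)), e1]
        · change rs r' i' _ * rs r' i' _ = (1 : ℂ) • (rs r' i' _ * rs r' i' _)
          rw [one_smul, ← rs_mul hri' hir' (hc' (hifS' b)), ← rs_mul hri' hir' (hc' (hifS' a)), e2]
      · obtain ⟨s, b1⟩ := a
        obtain ⟨s', b2⟩ := b
        simp only at h1 h2
        subst h1 h2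
        refine ⟨-1, by ring, ?_, ?_⟩
        · cases b2
          · change rs r i (Q.x s.1) * rs r i (Q.y s.1) = (-1 : ℂ) • (rs r i (Q.y s.1) * rs r i (Q.x s.1))
            rw [hyx, neg_one_smul, neg_neg]
          · change rs r i (Q.y s.1) * rs r i (Q.x s.1) = (-1 : ℂ) • (rs r i (Q.x s.1) * rs r i (Q.y s.1))
            rw [hyx, neg_one_smul]
        · cases b2
          · change rs r' i' (α s.1) * rs r' i' (β s.1) = (-1 : ℂ) • (rs r' i' (β s.1) * rs r' i' (α s.1))
            rw [(hrel s.1 (hι s)).1]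
            module
          · change rs r' i' (β s.1) * rs r' i' (α s.1) = (-1 : ℂ) • (rs r' i' (α s.1) * rs r' i' (β s.1))
            rw [(hrel s.1 (hι s)).1]
            module
  obtain ⟨T₀, hT₀⟩ := exists_hom (U := W) (U' := W')
  obtain ⟨T₁, hT₁, ε, hε, h1⟩ := htwo.exists hT₀ Finset.univ
  let G : ι → Module.End ℂ W := fun a =>
    Complex.I • (if a.2 then rs r i (Q.y a.1.1) else rs r i (Q.x a.1.1))
  have hI : ∀ u : Module.End ℂ W, u * u = -1 →
      (Complex.I • u) * (Complex.I • u) = 1 := by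
    intro u hu
    rw [smul_mul_smul_comm, hu, Complex.I_mul_I]
    module
  have hG0 : ∀ a, G a * G a = 1 := by
    rintro ⟨s, b⟩
    cases b
    · exact hI _ (hxx s)
    · exact hI _ (hyy s)
  have hcomm : ∀ {s t} {u v : Module.End ℂ U}, s ≠ t → u ∈ Q.S s → v ∈ Q.S t →
      rs r i u * rs r i v = rs r i v * rs r i u := by
    intro s t u v hst hu hv
    rw [← rs_mul hri hir (hc hv), ← rs_mul hri hir (hc hu), Q.comm hst hu hv]
  have hG1 : ∀ a b, a ≠ b → F b * G a = G a * F b := by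
    intro a b hab
    rcases hne a b hab with h1 | ⟨h1, h2⟩
    · obtain ⟨s, b1⟩ := a
      cases b1
      · change rs r i _ * (Complex.I • rs r i (Q.x s.1)) = (Complex.I • rs r i (Q.x s.1)) * rs r i _
        rw [mul_smul_comm, smul_mul_assoc, hcomm (Ne.symm h1) (hifS b) (Q.mx s.1)]
      · change rs r i _ * (Complex.I • rs r i (Q.y s.1)) = (Complex.I • rs r i (Q.y s.1)) * rs r i _
        rw [mul_smul_comm, smul_mul_assoc, hcomm (Ne.symm h1) (hifS b) (Q.my s.1)]
    · obtain ⟨s, b1⟩ := a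
      obtain ⟨s', b2⟩ := b
      simp only at h1 h2
      subst h1 h2
      cases b2
      · change rs r i (Q.y s.1) * (Complex.I • rs r i (Q.y s.1)) =
          (Complex.I • rs r i (Q.y s.1)) * rs r i (Q.y s.1)
        rw [mul_smul_comm, smul_mul_assoc]
      · change rs r i (Q.x s.1) * (Complex.I • rs r i (Q.x s.1)) =
          (Complex.I • rs r i (Q.x s.1)) * rs r i (Q.x s.1)
        rw [mul_smul_comm, smul_mul_assoc]
  have hG2 : ∀ a, F a * G a = -(G a * F a) := by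
    rintro ⟨s, b⟩
    cases b
    · change rs r i (Q.y s.1) * (Complex.I • rs r i (Q.x s.1)) =
        -((Complex.I • rs r i (Q.x s.1)) * rs r i (Q.y s.1))
      rw [mul_smul_comm, smul_mul_assoc, hyx, smul_neg]
    · change rs r i (Q.x s.1) * (Complex.I • rs r i (Q.y s.1)) =
        -((Complex.I • rs r i (Q.y s.1)) * rs r i (Q.x s.1))
      rw [mul_smul_comm, smul_mul_assoc, hyx, smul_neg, neg_neg]
  obtain ⟨T, hT, ε', -, h2, h3⟩ := Two.fix (F := F) (F' := F') hT₁ hε
    (fun a => h1 a (Finset.mem_univ a)) (G := G) hG0 hG1 hG2 Finset.univ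
  have hT' : ∀ a, (F' a).comp T = T.comp (F a) := by
    intro a
    rw [h2 a, h3 a (Finset.mem_univ a), one_smul]
  have hTu : ∀ (a : ι) w, r' ((if a.2 then α a.1.1 else β a.1.1) (i' (T w))) =
      T (r ((if a.2 then Q.x a.1.1 else Q.y a.1.1) (i w))) := fun a w =>
    LinearMap.congr_fun (hT' a) w
  have hx' : ∀ {s} {z : Module.End ℂ U'}, z ∈ Q'.S s → ∀ w : W', i' (r' (z (i' w))) = z (i' w) := by
    intro s z hz w
    have e1 : P' (z (i' w)) = z (P' (i' w)) := LinearMap.congr_fun (hc' hz) (i' w)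
    rw [hir', e1, ← hir', hri']
  have hxP : ∀ {s} {z : Module.End ℂ U}, z ∈ Q.S s → ∀ u : U, r (z (i (r u))) = r (z u) := by
    intro s z hz u
    have e1 : P (z u) = z (P u) := LinearMap.congr_fun (hc hz) u
    have e2 : r (P (z u)) = r (z u) := by rw [← hir, hri]
    rw [hir, ← e1, e2]
  obtain ⟨Φ, hΦ⟩ : ∃ Φ : U →ₗ[ℂ] U', Φ = i'.comp (T.comp r) := ⟨_, rfl⟩
  have hΦu : ∀ u, Φ u = i' (T (r u)) := fun u => by rw [hΦ]; rfl
  have gen1 : ∀ s, (α s).comp Φ = Φ.comp (Q.x s) ∧ (β s).comp Φ = Φ.comp (Q.y s) := by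
    intro s
    rcases hcol s with ⟨e1, e2⟩ | ⟨e1, e2⟩
    · constructor
      · refine LinearMap.ext fun u => ?_
        have e3 := hTu (⟨s, e1⟩, true) (r u)
        simp only [if_true] at e3
        rw [hxP (Q.mx s)] at e3
        rw [LinearMap.comp_apply, LinearMap.comp_apply, hΦu, hΦu, ← e3, hx' (hαS s)]
      · refine LinearMap.ext fun u => ?_
        have e3 := hTu (⟨s, e1⟩, false) (r u)
        simp only [Bool.false_eq_true, if_false] at e3
        rw [hxP (Q.my s)] at e3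
        rw [LinearMap.comp_apply, LinearMap.comp_apply, hΦu, hΦu, ← e3, hx' (hβS s)]
    · have z1 : ∀ z ∈ Q.S s, ∀ u, Φ (z u) = 0 := by
        intro z hz u
        have e5 : P * z = 0 := by rw [hc hz, ← (Q.e_S hz).2, mul_assoc, e1, mul_zero]
        have e3 : P (z u) = 0 := LinearMap.congr_fun e5 u
        have e4 : r (z u) = 0 := by rw [← hri (r (z u)), hir, e3, map_zero]
        rw [hΦu, e4, map_zero, map_zero]
      have z2 : ∀ z ∈ Q'.S (π s), ∀ u, z (Φ u) = 0 := by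
        intro z hz u
        have e5 : z * P' = 0 := by rw [← (Q'.e_S hz).2, mul_assoc, e2, mul_zero]
        have e6 : P' (Φ u) = Φ u := by rw [hΦu, ← hir', hri']
        rw [← e6]
        exact LinearMap.congr_fun e5 (Φ u)
      constructor
      · refine LinearMap.ext fun u => ?_
        rw [LinearMap.comp_apply, LinearMap.comp_apply, z1 _ (Q.mx s), z2 _ (hαS s)]
      · refine LinearMap.ext fun u => ?_
        rw [LinearMap.comp_apply, LinearMap.comp_apply, z1 _ (Q.my s), z2 _ (hβS s)]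
  have hγαβ : ∀ s, (γ s).comp Φ = Φ.comp (Q.x s * Q.y s) := by
    intro s
    obtain ⟨g1, g2⟩ := gen1 s
    have e0 := h.brk (hα s) (hβ s)
    have e2 : Q.x s * Q.y s - Q.y s * Q.x s = (2 : ℂ) • (Q.x s * Q.y s) := by
      rw [(Q.q s).yx]
      module
    rw [e2] at e0
    have e3 : α s * β s - β s * α s = (2 : ℂ) • γ s :=
      h.uniq e0 (𝔮.smul_mem (2 : ℂ) (hγ s))
    have e4 : γ s = (1 / 2 : ℂ) • (α s * β s - β s * α s) := by
      rw [e3, smul_smul]
      norm_num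
    have e5 : Q.x s * Q.y s = (1 / 2 : ℂ) • (Q.x s * Q.y s - Q.y s * Q.x s) := by
      rw [e2, smul_smul]
      norm_num
    refine LinearMap.ext fun u => ?_
    have g1' : ∀ u, α s (Φ u) = Φ (Q.x s u) := fun u => LinearMap.congr_fun g1 u
    have g2' : ∀ u, β s (Φ u) = Φ (Q.y s u) := fun u => LinearMap.congr_fun g2 u
    rw [e4, e5]
    simp only [LinearMap.comp_apply, LinearMap.smul_apply, LinearMap.sub_apply,
      Module.End.mul_apply, map_smul, map_sub, g1', g2']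
  refine ⟨Φ, fun h0 => hT ?_, fun x y hxy => ?_⟩
  · refine LinearMap.ext fun w => ?_
    have e1 := hΦu (i w)
    rw [h0, LinearMap.zero_apply, hri] at e1
    rw [LinearMap.zero_apply, ← hri' (T w), ← e1, map_zero]
  have hgen : ∀ s, ∀ z, (z = Q.x s ∨ z = Q.y s ∨ z = Q.x s * Q.y s) →
      ∃ y, (z, y) ∈ 𝔮 ∧ y.comp Φ = Φ.comp z := by
    rintro s z (rfl | rfl | rfl)
    · exact ⟨_, hα s, (gen1 s).1⟩
    · exact ⟨_, hβ s, (gen1 s).2⟩
    · exact ⟨_, hγ s, hγαβ s⟩
  have key : ∀ x ∈ M, ∃ y, (x, y) ∈ 𝔮 ∧ y.comp Φ = Φ.comp x := by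
    intro x hx
    rw [Q.span] at hx
    induction hx using Submodule.span_induction with
    | mem x hx =>
      obtain ⟨s, hs⟩ := hx
      exact hgen s x hs
    | zero => exact ⟨0, 𝔮.zero_mem, by rw [LinearMap.zero_comp, LinearMap.comp_zero]⟩
    | add a b _ _ ha hb =>
      obtain ⟨y, hy, hy'⟩ := ha
      obtain ⟨z, hz, hz'⟩ := hb
      exact ⟨y + z, 𝔮.add_mem hy hz, by rw [LinearMap.add_comp, LinearMap.comp_add, hy', hz']⟩
    | smul t a _ ha =>
      obtain ⟨y, hy, hy'⟩ := ha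
      exact ⟨t • y, 𝔮.smul_mem t hy, by rw [LinearMap.smul_comp, LinearMap.comp_smul, hy']⟩
  obtain ⟨y', hy', h4⟩ := key x (h.fst_mem hxy)
  rw [h.uniq hxy hy']
  exact h4

/-- The same, in terms of projectors. -/
theorem LkQ.exists_TG {π : Fin k → Fin k'} (hπ : ∀ s, Cor 𝔮 Q Q' s (π s))
    {P : Module.End ℂ U} {P' : Module.End ℂ U'} (hP0 : P ≠ 0) (hP0' : P' ≠ 0) (hP : P * P = P)
    (hP' : P' * P' = P') (hPM : ∀ z ∈ M, P * z = z * P) (hPM' : ∀ z ∈ M', P' * z = z * P')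
    (hcol : ∀ s, (Q.e s * P = P ∧ Q'.e (π s) * P' = P') ∨
      (Q.e s * P = 0 ∧ Q'.e (π s) * P' = 0)) :
    ∃ T : U →ₗ[ℂ] U', T ≠ 0 ∧ ∀ x y, (x, y) ∈ 𝔮 → y.comp T = T.comp x := by
  have hnt : Nontrivial (LinearMap.range P) := by
    obtain ⟨u, hu⟩ : ∃ u, P u ≠ 0 := by
      by_contra hcon
      push Not at hcon
      exact hP0 (LinearMap.ext hcon)
    exact ⟨⟨P u, u, rfl⟩, 0, fun h0 => hu (congrArg Subtype.val h0)⟩
  have hnt' : Nontrivial (LinearMap.range P') := by
    obtain ⟨u, hu⟩ : ∃ u, P' u ≠ 0 := by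
      by_contra hcon
      push Not at hcon
      exact hP0' (LinearMap.ext hcon)
    exact ⟨⟨P' u, u, rfl⟩, 0, fun h0 => hu (congrArg Subtype.val h0)⟩
  refine h.exists_TW Q Q' (W := LinearMap.range P) (W' := LinearMap.range P')
    (r := P.rangeRestrict) (i := (LinearMap.range P).subtype) (r' := P'.rangeRestrict)
    (i' := (LinearMap.range P').subtype) hπ ?_ (fun u => rfl) ?_ (fun u => rfl) hPM hPM' hcol
  · rintro ⟨_, u, rfl⟩
    exact Subtype.ext (LinearMap.congr_fun hP u)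
  · rintro ⟨_, u, rfl⟩
    exact Subtype.ext (LinearMap.congr_fun hP' u)

end Main

end Pool.Agent.T9h38.TM
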