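import Pool.Agent.T9h38.TM.QLink

set_option autoImplicit false
set_option maxHeartbeats 1000000
set_option linter.unusedSectionVars false
set_option linter.unusedVariables false

/-!
# Separation of sums of quaternion algebras from orthogonal Lie algebras
-/

open Module Function TensorProduct

noncomputable section

namespace Pool.Agent.T9h38.TM

open Pool.Agent.Y102 Pool.Agent.W516.DR Pool.Agent.H204R3.GP Pool.Agent.W516.KC
  Pool.Agent.H204R3.SP
open Pool.Agent.N192.GP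
open Pool.Agent.T9h38.RM

section Perf

variable {W : Type} [AddCommGroup W] [Module ℚ W] [FiniteDimensional ℚ W]

/-- The colours of a sum of quaternion algebras. -/
theorem QS.col {𝔤 : Submodule ℚ (Module.End ℚ W)} {k : ℕ} (Q : QS k (cx 𝔤)) :
    Nonempty (Col 𝔤 k 3) := by
  let e : (ℂ ⊗[ℚ] W) ≃ₗ[ℂ] (Fin (finrank ℂ (ℂ ⊗[ℚ] W)) → ℂ) :=
    (Module.finBasis ℂ (ℂ ⊗[ℚ] W)).equivFun
  let Φ : Module.End ℂ (ℂ ⊗[ℚ] W) ≃ₐ[ℂ] Module.End ℂ (Fin (finrank ℂ (ℂ ⊗[ℚ] W)) → ℂ) :=
    e.conjAlgEquiv ℂ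
  have hlie : ∀ s, ∀ x ∈ cx 𝔤, ∀ y ∈ cx 𝔤, (Φ.toLinearMap ∘ₗ Q.p s) (x * y - y * x) =
      (Φ.toLinearMap ∘ₗ Q.p s) x * (Φ.toLinearMap ∘ₗ Q.p s) y -
        (Φ.toLinearMap ∘ₗ Q.p s) y * (Φ.toLinearMap ∘ₗ Q.p s) x := by
    intro s x hx y hy
    change Φ (Q.p s (x * y - y * x)) = Φ (Q.p s x) * Φ (Q.p s y) - Φ (Q.p s y) * Φ (Q.p s x)
    rw [Q.p_br hx hy, map_sub, map_mul, map_mul]
  have hmem : ∀ s, ∀ x ∈ cx 𝔤, (Φ.toLinearMap ∘ₗ Q.p s) x ∈
      sp 3 (fun a b => Φ (zz (Q.x s) (Q.y s) a b)) := by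
    intro s x hx
    rw [sp_conj]
    exact ⟨_, Q.p_mem s x, rfl⟩
  have hsurj : ∀ s a b, a < 3 → b < 3 → a ≠ b → ∃ x ∈ cx 𝔤,
      (Φ.toLinearMap ∘ₗ Q.p s) x = Φ (zz (Q.x s) (Q.y s) a b) ∧
        ∀ t, t ≠ s → (Φ.toLinearMap ∘ₗ Q.p t) x = 0 := by
    intro s a b ha hb hab
    have h1 : zz (Q.x s) (Q.y s) a b ∈ Q.S s := mem_sp ha hb hab
    refine ⟨zz (Q.x s) (Q.y s) a b, Q.S_le s h1, ?_, fun t ht => ?_⟩
    · change Φ (Q.p s (zz (Q.x s) (Q.y s) a b)) = _
      rw [Q.p_same h1]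
    · change Φ (Q.p t (zz (Q.x s) (Q.y s) a b)) = 0
      rw [Q.p_other ht h1, map_zero]
  exact ⟨Col.mk (finrank ℂ (ℂ ⊗[ℚ] W)) (fun s => Φ.toLinearMap ∘ₗ Q.p s)
    (fun s a b => Φ (zz (Q.x s) (Q.y s) a b)) hlie (fun s => soRel_conj Φ (soRel_zz (Q.q s)))
    hmem hsurj (fun s => simple3 (soRel_conj Φ (soRel_zz (Q.q s))))
    (fun s h0 => Q.x_ne s (by
        have h1 : Φ (Q.x s) = Φ 0 := by rw [map_zero]; exact h0
        exact Φ.injective h1))
    (fun x hx h0 => by
      refine (Q.p_sum hx).trans (Finset.sum_eq_zero fun s _ => ?_)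
      have h1 : Φ (Q.p s x) = Φ 0 := by rw [map_zero]; exact h0 s
      exact Φ.injective h1)⟩

theorem QS.perfQ {𝔤 : Submodule ℚ (Module.End ℚ W)} {k : ℕ} (Q : QS k (cx 𝔤)) :
    𝔤 ≤ Pool.Agent.N192.GP.brk 𝔤 𝔤 := by
  intro X hX
  refine mem_of_bc ?_
  refine (Submodule.span_le.2 ?_) (Q.perf (bc_mem hX))
  rintro _ ⟨x, hx, y, hy, rfl⟩
  induction hx using Submodule.span_induction with
  | mem x hx =>
    obtain ⟨P, hP, rfl⟩ := hx
    induction hy using Submodule.span_induction with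
    | mem y hy =>
      obtain ⟨Q, hQ, rfl⟩ := hy
      rw [← bc_br]
      exact bc_mem (Submodule.subset_span ⟨P, hP, Q, hQ, rfl⟩)
    | zero => rw [mul_zero, zero_mul, sub_zero]; exact Submodule.zero_mem _
    | add a b _ _ ha hb =>
      rw [mul_add, add_mul, add_sub_add_comm]
      exact Submodule.add_mem _ ha hb
    | smul c a _ ha =>
      rw [mul_smul_comm, smul_mul_assoc, ← smul_sub]
      exact Submodule.smul_mem _ c ha
  | zero => rw [mul_zero, zero_mul, sub_zero]; exact Submodule.zero_mem _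
  | add a b _ _ ha hb =>
    rw [mul_add, add_mul, add_sub_add_comm]
    exact Submodule.add_mem _ ha hb
  | smul c a _ ha =>
    rw [mul_smul_comm, smul_mul_assoc, ← smul_sub]
    exact Submodule.smul_mem _ c ha

end Perf

section NoLink

variable {U U' : Type} [AddCommGroup U] [Module ℂ U] [AddCommGroup U'] [Module ℂ U']
  [FiniteDimensional ℂ U] {M : Submodule ℂ (Module.End ℂ U)} {M' : Submodule ℂ (Module.End ℂ U')}
  {𝔮 : Submodule ℂ (Module.End ℂ U × Module.End ℂ U')} (h : LkQ M M' 𝔮) {k : ℕ} (Q : QS k M)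

/-- The relations of an orthogonal Lie algebra of rank at least six, in a colour of rank three. -/
theorem QS.no_six {r : ℕ} (hr : 6 ≤ r) {Y : ℕ → ℕ → Module.End ℂ U} (hY : SoRel r Y) {s : Fin k}
    (hm : ∀ a b, a < r → b < r → a ≠ b → Y a b ∈ Q.S s) : Y 0 1 = 0 := by
  classical
  let ad : Module.End ℂ U → Module.End ℂ (Module.End ℂ U) := fun z =>
    LinearMap.mulLeft ℂ z - LinearMap.mulRight ℂ z
  have had : ∀ z w, ad z w = z * w - w * z := fun _ _ => rfl
  have hst : ∀ {z}, z ∈ Q.S s → ∀ w ∈ Q.S s, ad z w ∈ Q.S s := fun {z} hz w hw => Q.S_br hz hw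
  let R : ℕ → ℕ → Module.End ℂ (Q.S s) := fun a b =>
    if hab : a < r ∧ b < r ∧ a ≠ b then
      (ad (Y a b)).restrict (hst (hm a b hab.1 hab.2.1 hab.2.2)) else 0
  have hR : ∀ a b, a < r → b < r → a ≠ b → ∀ w : Q.S s,
      ((R a b w : Q.S s) : Module.End ℂ U) = Y a b * w.1 - w.1 * Y a b := by
    intro a b ha hb hab w
    simp only [R, dif_pos (⟨ha, hb, hab⟩ : a < r ∧ b < r ∧ a ≠ b)]
    rfl
  have hrel : SoRel r R := by
    refine ⟨fun a b ha hb hab => ?_, fun a b c ha hb hc hab hbc hac => ?_,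
      fun a b c d ha hb hc hd hab hcd hac had' hbc hbd => ?_⟩
    · refine LinearMap.ext fun w => Subtype.ext ?_
      rw [LinearMap.neg_apply, Submodule.coe_neg, hR a b ha hb hab, hR b a hb ha hab.symm,
        hY.anti a b ha hb hab]
      noncomm_ring
    · refine LinearMap.ext fun w => Subtype.ext ?_
      rw [LinearMap.sub_apply, Module.End.mul_apply, Module.End.mul_apply, LinearMap.smul_apply,
        Submodule.coe_sub, Submodule.coe_smul, hR a b ha hb hab, hR b c hb hc hbc,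
        hR b c hb hc hbc, hR a b ha hb hab, hR a c ha hc hac]
      have h1 := hY.br a b c ha hb hc hab hbc hac
      have h2 : Y a b * (Y b c * w.1 - w.1 * Y b c) - (Y b c * w.1 - w.1 * Y b c) * Y a b -
          (Y b c * (Y a b * w.1 - w.1 * Y a b) - (Y a b * w.1 - w.1 * Y a b) * Y b c) =
          (Y a b * Y b c - Y b c * Y a b) * w.1 - w.1 * (Y a b * Y b c - Y b c * Y a b) := by
        noncomm_ring
      rw [h2, h1, smul_mul_assoc, mul_smul_comm, smul_sub]
    · refine LinearMap.ext fun w => Subtype.ext ?_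
      rw [Module.End.mul_apply, Module.End.mul_apply, hR a b ha hb hab, hR c d hc hd hcd,
        hR c d hc hd hcd, hR a b ha hb hab]
      have h1 := hY.comm a b c d ha hb hc hd hab hcd hac had' hbc hbd
      have h2 : Y a b * (Y c d * w.1 - w.1 * Y c d) - (Y c d * w.1 - w.1 * Y c d) * Y a b -
          (Y c d * (Y a b * w.1 - w.1 * Y a b) - (Y a b * w.1 - w.1 * Y a b) * Y c d) =
          (Y a b * Y c d - Y c d * Y a b) * w.1 - w.1 * (Y a b * Y c d - Y c d * Y a b) := by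
        noncomm_ring
      rw [h1, sub_self, zero_mul, mul_zero, sub_zero] at h2
      exact sub_eq_zero.1 h2
  have h01 : R 0 1 = 0 := by
    by_contra hne
    have h1 := hrel.dim hr (by omega) (by omega) (by omega) hne
    have h2 : finrank ℂ (Q.S s) ≤ 3 := by
      rw [Q.S_eq]
      have h3 : ({z | z = Q.x s ∨ z = Q.y s ∨ z = Q.x s * Q.y s} : Set (Module.End ℂ U)) =
          (({Q.x s, Q.y s, Q.x s * Q.y s} : Finset (Module.End ℂ U)) : Set _) := by
        ext z
        simp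
      rw [h3]
      exact (finrank_span_finset_le_card _).trans Finset.card_le_three
    unfold beta at h1
    split_ifs at h1 <;> omega
  refine Q.cent (hm 0 1 (by omega) (by omega) (by omega)) fun w hw => ?_
  have h2 := hR 0 1 (by omega) (by omega) (by omega) ⟨w, hw⟩
  rw [h01, LinearMap.zero_apply, Submodule.coe_zero] at h2
  have h3 : w * Y 0 1 - Y 0 1 * w = -(Y 0 1 * w - w * Y 0 1) := by abel
  rw [h3, ← h2, neg_zero]

end NoLink

section Col

variable {U : Type} [AddCommGroup U] [Module ℂ U] [FiniteDimensional ℂ U]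
  {M : Submodule ℂ (Module.End ℂ U)} {k k' r : ℕ} (Q : QS k M)
  {W : Type} [AddCommGroup W] [Module ℚ W] [FiniteDimensional ℚ W]
  {𝔤 : Submodule ℚ (Module.End ℚ W)} (C : Col 𝔤 k' r)
  {𝔮 : Submodule ℂ (Module.End ℂ U × Module.End ℂ (ℂ ⊗[ℚ] W))} (h : LkQ M (cx 𝔤) 𝔮)

include Q C h in
/-- A sum of quaternion algebras is not linked with a sum of orthogonal Lie algebras of rank at
least six. -/
theorem no_linkQ (hr : 6 ≤ r) : 𝔤 = ⊥ := by
  classical
  have hk : ∀ σ : Fin k', False := by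
    intro σ
    have h3 : ∀ a b, ∃ p ∈ 𝔮, a < r → b < r → a ≠ b → C.q σ p.2 = C.Z σ a b ∧
        ∀ τ, τ ≠ σ → C.q τ p.2 = 0 := by
      intro a b
      by_cases hab : a < r ∧ b < r ∧ a ≠ b
      · obtain ⟨y, hy, e1, e2⟩ := C.surj σ a b hab.1 hab.2.1 hab.2.2
        obtain ⟨x, hx⟩ := h.mem_snd hy
        exact ⟨_, hx, fun _ _ _ => ⟨e1, e2⟩⟩
      · exact ⟨0, Submodule.zero_mem _, fun ha hb hne => absurd ⟨ha, hb, hne⟩ hab⟩
    choose p hp hpq using h3
    have c2 : ∀ p ∈ 𝔮, p.2 ∈ cx 𝔤 := fun p hp => h.snd_mem (x := p.1) hp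
    have c1 : ∀ p ∈ 𝔮, p.1 ∈ M := fun p hp => h.fst_mem (y := p.2) hp
    have hrel : ∀ w ∈ 𝔮, (∀ τ, C.q τ w.2 = 0) → w.1 = 0 := by
      intro w hw h0
      have e1 : w.2 = 0 := C.inj _ (c2 w hw) h0
      refine h.inj' _ ?_
      have e2 : (w.1, (0 : Module.End ℂ (ℂ ⊗[ℚ] W))) = w := Prod.ext rfl e1.symm
      rw [e2]
      exact hw
    -- the relations
    have r1 : ∀ a b, a < r → b < r → a ≠ b → (p a b).1 = -(p b a).1 := by
      intro a b ha hb hab
      have h4 := hrel (p a b + p b a) (Submodule.add_mem _ (hp a b) (hp b a)) (fun τ => by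
        rw [Prod.snd_add, map_add]
        by_cases hτ : τ = σ
        · subst hτ
          rw [(hpq a b ha hb hab).1, (hpq b a hb ha hab.symm).1, (C.rel τ).anti a b ha hb hab,
            neg_add_cancel]
        · rw [(hpq a b ha hb hab).2 τ hτ, (hpq b a hb ha hab.symm).2 τ hτ, add_zero])
      exact eq_neg_of_add_eq_zero_left h4
    have r2 : ∀ a b c, a < r → b < r → c < r → a ≠ b → b ≠ c → a ≠ c →
        (p a b).1 * (p b c).1 - (p b c).1 * (p a b).1 = (2 : ℂ) • (p a c).1 := by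
      intro a b c ha hb hc hab hbc hac
      have h4 := hrel (p a b * p b c - p b c * p a b - (2 : ℂ) • p a c) (Submodule.sub_mem _
        (h.br _ (hp a b) _ (hp b c)) (Submodule.smul_mem _ _ (hp a c))) (fun τ => by
        change C.q τ ((p a b).2 * (p b c).2 - (p b c).2 * (p a b).2 - (2 : ℂ) • (p a c).2) = 0
        rw [map_sub, C.lie τ _ (c2 _ (hp a b)) _ (c2 _ (hp b c)), map_smul]
        by_cases hτ : τ = σ
        · subst hτ
          rw [(hpq a b ha hb hab).1, (hpq b c hb hc hbc).1, (hpq a c ha hc hac).1,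
            (C.rel τ).br a b c ha hb hc hab hbc hac, sub_self]
        · rw [(hpq a b ha hb hab).2 τ hτ, (hpq b c hb hc hbc).2 τ hτ, (hpq a c ha hc hac).2 τ hτ,
            mul_zero, sub_zero, smul_zero, sub_zero])
      exact sub_eq_zero.1 h4
    have r3 : ∀ a b c d, a < r → b < r → c < r → d < r → a ≠ b → c ≠ d → a ≠ c → a ≠ d → b ≠ c →
        b ≠ d → (p a b).1 * (p c d).1 - (p c d).1 * (p a b).1 = 0 := by
      intro a b c d ha hb hc hd hab hcd hac had hbc hbd
      refine hrel (p a b * p c d - p c d * p a b) (h.br _ (hp a b) _ (hp c d)) (fun τ => ?_)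
      change C.q τ ((p a b).2 * (p c d).2 - (p c d).2 * (p a b).2) = 0
      rw [C.lie τ _ (c2 _ (hp a b)) _ (c2 _ (hp c d))]
      by_cases hτ : τ = σ
      · subst hτ
        rw [(hpq a b ha hb hab).1, (hpq c d hc hd hcd).1,
          (C.rel τ).comm a b c d ha hb hc hd hab hcd hac had hbc hbd, sub_self]
      · rw [(hpq a b ha hb hab).2 τ hτ, (hpq c d hc hd hcd).2 τ hτ, mul_zero, sub_zero]
    have h01 : (p 0 1).1 = 0 := by
      rw [Q.p_sum (c1 _ (hp 0 1))]
      refine Finset.sum_eq_zero fun s _ => ?_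
      refine Q.no_six hr (s := s) (Y := fun a b => Q.p s (p a b).1) ?_
        (fun a b _ _ _ => Q.p_mem s _)
      refine ⟨fun a b ha hb hab => ?_, fun a b c ha hb hc hab hbc hac => ?_,
        fun a b c d ha hb hc hd hab hcd hac had hbc hbd => ?_⟩
      · rw [r1 a b ha hb hab, map_neg]
      · rw [← Q.p_br (c1 _ (hp a b)) (c1 _ (hp b c)), r2 a b c ha hb hc hab hbc hac, map_smul]
      · have h4 := Q.p_br (s := s) (c1 _ (hp a b)) (c1 _ (hp c d))
        rw [r3 a b c d ha hb hc hd hab hcd hac had hbc hbd, map_zero] at h4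
        exact sub_eq_zero.1 h4.symm
    have h02 : (p 0 1).2 = 0 := by
      refine h.inj _ ?_
      have e2 : ((0 : Module.End ℂ U), (p 0 1).2) = p 0 1 := Prod.ext h01.symm rfl
      rw [e2]
      exact hp 0 1
    have h03 := (hpq 0 1 (by omega) (by omega) (by omega)).1
    rw [h02, map_zero] at h03
    exact C.ne σ h03.symm
  rw [eq_bot_iff]
  intro Y hY
  refine mem_of_bc ?_
  have h3 : Y.baseChange ℂ = 0 := C.inj _ (bc_mem hY) fun σ => (hk σ).elim
  rw [h3]
  exact Submodule.zero_mem _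

end Col

end Pool.Agent.T9h38.TM
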