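import Pool.Agent.T9h38.TM.QCol

set_option autoImplicit false
set_option maxHeartbeats 1000000
set_option linter.unusedSectionVars false
set_option linter.unusedVariables false

/-!
# Families of abelian varieties of tensor type and of spin type
-/

open Module Function TensorProduct

noncomputable section

namespace Pool.Agent.T9h38.TM

open Pool.Agent.Y102 Pool.Agent.W516.DR Pool.Agent.H204R3.GP Pool.Agent.W516.KC
  Pool.Agent.H204R3.SP
open Pool.Agent.N192.GP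
open Pool.Agent.T9h38.RM

/-- The homology is a multiple of the tensor product of `k` planes. -/
structure Tens {g : ℕ} (A : AbVar g) (k : ℕ) where
  Q : QS k (cx A.NA)
  one : ∀ s, Q.e s = 1

section One

variable {g k : ℕ} {A : AbVar g}

theorem Tens.fine (T : Tens A k) : Fine A := by
  refine ⟨fun 𝔥 h X hX => ?_, T.Q.perfQ⟩
  refine mem_of_bc ?_
  rcases subsingleton_or_nontrivial (ℂ ⊗[ℚ] A.H1) with hs | hn
  · have : X.baseChange ℂ = 0 := by
      ext x
      exact Subsingleton.elim _ _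
    rw [this]
    exact Submodule.zero_mem _
  · obtain ⟨n, φ, ht⟩ := SP.Small_abs (J := Fin k) T.Q.e T.Q.x T.Q.y (cx A.NA) T.Q.q
      (by
        intro i j hij u hu v hv
        rw [T.one] at hu hv
        have key : ∀ s, ∀ u ∈ ({1, T.Q.x s, T.Q.y s} : Set (Module.End ℂ (ℂ ⊗[ℚ] A.H1))),
            u = 1 ∨ u ∈ T.Q.S s := by
          rintro s u (rfl | rfl | rfl)
          · exact Or.inl rfl
          · exact Or.inr (T.Q.mx s)
          · exact Or.inr (T.Q.my s)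
        rcases key i u hu with rfl | hu'
        · rw [one_mul, mul_one]
        · rcases key j v hv with rfl | hv'
          · rw [one_mul, mul_one]
          · exact T.Q.comm hij hu' hv')
      T.Q.ne
      (fun j => ⟨T.Q.S_le j (T.Q.mx j), T.Q.S_le j (T.Q.my j), T.Q.S_le j (T.Q.mz j)⟩)
      T.Q.span.le
      (fun i j _ => by
        left
        rw [T.one, T.one, one_mul]
        exact one_ne_zero)
    have h1 := T.Q.perf (bc_mem hX)
    refine (Submodule.span_le.2 ?_) h1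
    rintro _ ⟨x, hx, y, hy, rfl⟩
    exact ht.br_mem (cx_mono h.le) (cx_mono h.der_le) h.cx_br' h.cx_perfect h.cx_dec h.cx_com
      hx hy

end One

/-- The members of the family. -/
inductive MemT {g : ℕ} (A : AbVar g) (k r : ℕ) : Prop
  | tens (h : Nonempty (Tens A k)) (hr : r = 3)
  | spin (h : SpinMatK A k r) (hr : 6 ≤ r)

namespace MemT

variable {g k r : ℕ} {A : AbVar g} (h : MemT A k r)
include h

theorem fine : Fine A := by
  rcases h with ⟨⟨T⟩, hr⟩ | ⟨h, hr⟩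
  · exact T.fine
  · exact fine_spin h

theorem ok : Ok r := by
  rcases h with ⟨h, hr⟩ | ⟨h, hr⟩
  · exact Or.inl hr
  · exact Or.inr hr

theorem col (h0 : A.NA ≠ ⊥) : Nonempty (Col A.NA k r) := by
  rcases h with ⟨⟨T⟩, hr⟩ | ⟨h, hr⟩
  · subst hr
    exact T.Q.col
  · exact (Mem.spin h hr).col h0

end MemT

section Fam

variable {I J : Type} [Fintype I] [DecidableEq I] [Fintype J] [DecidableEq J]
  {g : I → ℕ} {A : ∀ i, AbVar (g i)} {d : J → ℕ} {V : ∀ j, DRS (d j)}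

theorem lkQ_of {i i' : I} (hf : Fine (A i)) (hf' : Fine (A i'))
    (hl : Linked (ηη A V) (Sum.inl i) (Sum.inl i')) :
    LkQ (U := ℂ ⊗[ℚ] (A i).H1) (U' := ℂ ⊗[ℚ] (A i').H1) (cx (A i).NA) (cx (A i').NA)
      (cx2 ((LG (ηη A V)).map (prq (Sum.inl i) (Sum.inl i')))) := by
  obtain ⟨𝔮, h𝔮⟩ : ∃ 𝔮 : Submodule ℚ (Module.End ℚ (A i).H1 × Module.End ℚ (A i').H1),
    𝔮 = (LG (ηη A V)).map (prq (Sum.inl i) (Sum.inl i')) := ⟨_, rfl⟩
  have hbr : Br 𝔮 := by
    rw [h𝔮]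
    exact qq_br (η := ηη A V) (s := Sum.inl i) (t := Sum.inl i')
  have h1 : 𝔮.map (LinearMap.fst ℚ (Module.End ℚ (A i).H1) (Module.End ℚ (A i').H1)) =
      (A i).NA := by
    rw [h𝔮]
    exact (qq_fst (η := ηη A V) (s := Sum.inl i) (t := Sum.inl i')).trans (gg_fine (V := V) hf)
  have h2 : 𝔮.map (LinearMap.snd ℚ (Module.End ℚ (A i).H1) (Module.End ℚ (A i').H1)) =
      (A i').NA := by
    rw [h𝔮]
    exact (qq_snd (η := ηη A V) (s := Sum.inl i) (t := Sum.inl i')).trans (gg_fine (V := V) hf')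
  have h3 : LkQ (cx (A i).NA) (cx (A i').NA) (cx2 𝔮) := by
    refine ⟨cx2_br hbr, ?_, ?_, fun Y hY => ?_, fun X hX => ?_⟩
    · rw [cx2_fst, h1]
    · rw [cx2_snd, h2]
    · rw [h𝔮] at hY
      exact linkC (η := ηη A V) (s := Sum.inl i) (t := Sum.inl i') hl hY
    · rw [h𝔮] at hX
      exact linkC' (η := ηη A V) (s := Sum.inl i) (t := Sum.inl i') hl hX
  rw [h𝔮] at h3
  exact h3

/-- Two tensor products without homomorphisms are separated. -/
theorem sep_tens {i i' : I} {k k' : ℕ} (T : Tens (A i) k) (T' : Tens (A i') k')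
    (hn : NoIdeals (A i).NA) (hn' : NoIdeals (A i').NA)
    (hom : ∀ f : (A i).H1 →ₗ[ℚ] (A i').H1, IsHomAb (A i) (A i') f → f = 0) :
    Pool.Agent.N192.GP.Sep (ηη A V) (Sum.inl i) (Sum.inl i') := by
  have hs : NoIdeals (gg (ηη A V) (Sum.inl i)) := by rw [gg_fine T.fine]; exact hn
  have ht : NoIdeals (gg (ηη A V) (Sum.inl i')) := by rw [gg_fine T'.fine]; exact hn'
  rcases link_or_sep hs ht (perf_fine T.fine) with hl | hl
  swap
  · exact hl
  by_cases hb : gg (ηη A V) (Sum.inl i) = ⊥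
  · unfold Pool.Agent.N192.GP.Sep
    rw [hb]
    exact bot_le
  exfalso
  have hn1 : Nontrivial (ℂ ⊗[ℚ] (A i).H1) := by
    by_contra hc
    exact hb (gg_bot (s := Sum.inl i) hc)
  have hn2 : Nontrivial (ℂ ⊗[ℚ] (A i').H1) := by
    by_contra hc
    exact hb (hl.symm.bot (gg_bot (s := Sum.inl i') hc))
  obtain ⟨f₀, hf₀, hf₁⟩ := (lkQ_of T.fine T'.fine hl).exists_T T.Q T'.Q T.one T'.one
  exact hf₀ (inter_zero (V := V) hom hf₁)

theorem not_linkedT {i i' : I} {k k' r : ℕ} (T : Tens (A i) k) (h' : SpinMatK (A i') k' r)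
    (hr : 6 ≤ r) (hb : gg (ηη A V) (Sum.inl i') ≠ ⊥)
    (hl : Linked (ηη A V) (Sum.inl i) (Sum.inl i')) : False := by
  have hf' := fine_spin h'
  have h1 := lkQ_of (V := V) T.fine hf' hl
  have h2 : (A i').NA ≠ ⊥ := by
    intro h3
    apply hb
    rw [gg_fine hf']
    exact h3
  obtain ⟨C⟩ := (Mem.spin h' hr).col h2
  exact h2 (no_linkQ T.Q C h1 hr)

/-- Two members without homomorphisms are separated. -/
theorem sep_memT {i i' : I} {k k' r r' : ℕ} (h : MemT (A i) k r) (h' : MemT (A i') k' r')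
    (hn : NoIdeals (A i).NA) (hn' : NoIdeals (A i').NA)
    (hom : ∀ f : (A i).H1 →ₗ[ℚ] (A i').H1, IsHomAb (A i) (A i') f → f = 0) :
    Pool.Agent.N192.GP.Sep (ηη A V) (Sum.inl i) (Sum.inl i') := by
  have hs : NoIdeals (gg (ηη A V) (Sum.inl i)) := by rw [gg_fine h.fine]; exact hn
  have ht : NoIdeals (gg (ηη A V) (Sum.inl i')) := by rw [gg_fine h'.fine]; exact hn'
  rcases link_or_sep hs ht (perf_fine h.fine) with hl | hl
  swap
  · exact hl
  by_cases hb : gg (ηη A V) (Sum.inl i) = ⊥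
  · unfold Pool.Agent.N192.GP.Sep
    rw [hb]
    exact bot_le
  have hb' : gg (ηη A V) (Sum.inl i') ≠ ⊥ := fun h1 => hb (hl.symm.bot h1)
  obtain ⟨⟨T⟩, hr⟩ | ⟨hS, hr⟩ := h
  · obtain ⟨⟨T'⟩, hr'⟩ | ⟨hS', hr'⟩ := h'
    · exact sep_tens T T' hn hn' hom
    · exact (not_linkedT T hS' hr' hb' hl).elim
  · obtain ⟨⟨T'⟩, hr'⟩ | ⟨hS', hr'⟩ := h'
    · exact (not_linkedT T' hS hr hb hl.symm).elim
    · exact sep_spins hS hS' hr hr' hs ht hom

theorem fit_ofT {k r : I → ℕ} (h : ∀ i, MemT (A i) (k i) (r i)) (hn : ∀ i, NoIdeals (A i).NA)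
    (hom : ∀ i i', i ≠ i' → ∀ f : (A i).H1 →ₗ[ℚ] (A i').H1, IsHomAb (A i) (A i') f → f = 0)
    (hV : ∀ i j, SepU ⟨2 * g i, DA A i⟩ ⟨d j, V j⟩) : Fit A V where
  fine i := (h i).fine
  sep i i' hne := sep_memT (h i) (h i') (hn i) (hn i') (hom i i' hne)
  sepV i j := sep_final (hV i j)

/-- **The number of exceptional members.** -/
theorem exc_dimT {r k : I → ℕ} (h : ∀ i, MemT (A i) (k i) (r i)) (hn : ∀ i, NoIdeals (A i).NA)
    (hom : ∀ i i', i ≠ i' → ∀ f : (A i).H1 →ₗ[ℚ] (A i').H1, IsHomAb (A i) (A i') f → f = 0)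
    {m : ℕ} (U : DRS m) (hU : ∀ i, ¬SepU ⟨2 * g i, DA A i⟩ ⟨m, U⟩) :
    ∑ i, k i * bet (r i) ≤ m := by
  let V : Unit → DRS m := fun _ => U
  have hnot : ∀ i, ¬Pool.Agent.N192.GP.Sep (ηη A V) (Sum.inl i) (Sum.inr ()) := fun i hs =>
    hU i (sepU_of_final (V := V) hs)
  have hne : ∀ i, gg (ηη A V) (Sum.inl i) ≠ ⊥ := by
    intro i hb
    apply hnot i
    unfold Pool.Agent.N192.GP.Sep
    rw [hb]
    exact bot_le
  have h1 := fam_dimB (η := ηη A V) (S := Finset.univ.map ⟨Sum.inl, Sum.inl_injective⟩)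
    (u := Sum.inr ()) (k := Sum.elim k fun _ => 0) (r := Sum.elim r fun _ => 0)
    (fun s hs => by
      obtain ⟨i, -, rfl⟩ := Finset.mem_map.1 hs
      exact (h i).ok)
    (fun s hs => by
      obtain ⟨i, -, rfl⟩ := Finset.mem_map.1 hs
      have h2 := hne i
      change Nonempty (Col (gg (ηη A V) (Sum.inl i)) (k i) (r i))
      rw [gg_fine (h i).fine] at h2 ⊢
      exact (h i).col h2)
    (fun s hs => by
      obtain ⟨i, -, rfl⟩ := Finset.mem_map.1 hs
      change NoIdeals (gg (ηη A V) (Sum.inl i))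
      rw [gg_fine (h i).fine]
      exact hn i)
    (fun s hs => by
      obtain ⟨i, -, rfl⟩ := Finset.mem_map.1 hs
      exact perf_fine (h i).fine)
    (fun s hs t ht hst => by
      obtain ⟨i, -, rfl⟩ := Finset.mem_map.1 hs
      obtain ⟨i', -, rfl⟩ := Finset.mem_map.1 ht
      have hne : i ≠ i' := fun h => hst (by rw [h])
      exact sep_memT (h i) (h i') (hn i) (hn i') (hom i i' hne))
    (fun s hs => by
      obtain ⟨i, -, rfl⟩ := Finset.mem_map.1 hs
      exact hnot i)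
  rw [Finset.sum_map] at h1
  exact h1

end Fam

theorem MemT.perfU {I : Type} {g : I → ℕ} {A : ∀ i, AbVar (g i)} {i : I} {k r : ℕ}
    (h : MemT (A i) k r) : ggU ⟨2 * g i, DA A i⟩ ≤
      Pool.Agent.N192.GP.brk (ggU ⟨2 * g i, DA A i⟩) (ggU ⟨2 * g i, DA A i⟩) := by
  have h1 : ggU ⟨2 * g i, DA (fun _ : Unit => A i) ()⟩ =
      ((A i).NA : Submodule ℚ (Module.End ℚ (A i).H1)) :=
    ggU_fine (I := Unit) (A := fun _ => A i) (i := ()) h.fine
  have h2 := h.fine.perf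
  rw [← h1] at h2
  exact h2

/-! ### Matrices -/

/-- The tensor type in terms of matrices. -/
theorem tens_of_mat {g k : ℕ} {A : AbVar g} (hg : 0 < g)
    (x y : Fin k → Matrix (Fin (2 * g)) (Fin (2 * g)) ℂ)
    (hx : ∀ s, x s * x s = -1) (hy : ∀ s, y s * y s = -1) (hyx : ∀ s, y s * x s = -(x s * y s))
    (cxx : ∀ s t, s ≠ t → x s * x t = x t * x s) (cxy : ∀ s t, s ≠ t → x s * y t = y t * x s)
    (cyy : ∀ s t, s ≠ t → y s * y t = y t * y s)
    (hl : Submodule.span ℂ {Y | ∃ X ∈ A.NA, Y = toC X} =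
      Submodule.span ℂ {Y | ∃ s, Y = x s ∨ Y = y s ∨ Y = x s * y s}) : Nonempty (Tens A k) := by
  have : NeZero (2 * g) := ⟨by omega⟩
  have hn : Nontrivial (Matrix (Fin (2 * g)) (Fin (2 * g)) ℂ) := inferInstance
  let m := matE (2 * g)
  have h1 : (1 : Module.End ℂ (ℂ ⊗[ℚ] A.H1)) ≠ 0 := by
    intro h0
    have h2 : m 1 = m 0 := by rw [map_one, map_zero]; exact h0
    exact one_ne_zero (m.injective h2)
  refine ⟨⟨⟨fun _ => 1, fun s => m (x s), fun s => m (y s), fun s => ⟨one_mul _, one_mul _,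
    mul_one _, one_mul _, mul_one _, ?_, ?_, ?_⟩, fun s t hst => ?_, fun s t hst => ?_,
    fun s t hst => ?_, fun _ => h1, ?_⟩, fun _ => rfl⟩⟩
  · rw [← map_mul, hx, map_neg, map_one]
  · rw [← map_mul, hy, map_neg, map_one]
  · rw [← map_mul, hyx, map_neg, map_mul]
  · rw [← map_mul, cxx s t hst, map_mul]
  · rw [← map_mul, cxy s t hst, map_mul]
  · rw [← map_mul, cyy s t hst, map_mul]
  · rw [← map_lie, hl, Submodule.map_span]
    congr 1
    ext Y
    constructor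
    · rintro ⟨_, ⟨s, rfl | rfl | rfl⟩, rfl⟩
      · exact ⟨s, Or.inl rfl⟩
      · exact ⟨s, Or.inr (Or.inl rfl)⟩
      · exact ⟨s, Or.inr (Or.inr (map_mul m _ _))⟩
    · rintro ⟨s, rfl | rfl | rfl⟩
      · exact ⟨_, ⟨s, Or.inl rfl⟩, rfl⟩
      · exact ⟨_, ⟨s, Or.inr (Or.inl rfl)⟩, rfl⟩
      · exact ⟨_, ⟨s, Or.inr (Or.inr rfl)⟩, map_mul m _ _⟩

end Pool.Agent.T9h38.TM
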