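import Pool.Agent.T9h38.TM.Quat

set_option autoImplicit false
set_option maxHeartbeats 1000000
set_option linter.unusedSectionVars false
set_option linter.unusedVariables false

/-!
# Links of sums of quaternion algebras
-/

open Module Function TensorProduct

noncomputable section

namespace Pool.Agent.T9h38.TM

open Pool.Agent.Y102 Pool.Agent.W516.DR Pool.Agent.H204R3.GP Pool.Agent.W516.KC
  Pool.Agent.H204R3.SP
open Pool.Agent.N192.GP
open Pool.Agent.T9h38.RM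

/-- The graph of an isomorphism. -/
structure LkQ {U U' : Type} [AddCommGroup U] [Module ℂ U] [AddCommGroup U'] [Module ℂ U']
    (M : Submodule ℂ (Module.End ℂ U)) (M' : Submodule ℂ (Module.End ℂ U'))
    (𝔮 : Submodule ℂ (Module.End ℂ U × Module.End ℂ U')) : Prop where
  br : Br 𝔮
  fst : 𝔮.map (LinearMap.fst ℂ _ _) = M
  snd : 𝔮.map (LinearMap.snd ℂ _ _) = M'
  inj : ∀ Y, ((0, Y) : Module.End ℂ U × Module.End ℂ U') ∈ 𝔮 → Y = 0
  inj' : ∀ X, ((X, 0) : Module.End ℂ U × Module.End ℂ U') ∈ 𝔮 → X = 0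

section Link

variable {U U' : Type} [AddCommGroup U] [Module ℂ U] [AddCommGroup U'] [Module ℂ U']
  {M : Submodule ℂ (Module.End ℂ U)} {M' : Submodule ℂ (Module.End ℂ U')}
  {𝔮 : Submodule ℂ (Module.End ℂ U × Module.End ℂ U')} (h : LkQ M M' 𝔮)

namespace LkQ

section Basic

include h

theorem mem_fst {x : Module.End ℂ U} (hx : x ∈ M) : ∃ y, (x, y) ∈ 𝔮 := by
  rw [← h.fst] at hx
  obtain ⟨⟨x', y⟩, hp, rfl⟩ := hx
  exact ⟨y, hp⟩

theorem mem_snd {y : Module.End ℂ U'} (hy : y ∈ M') : ∃ x, (x, y) ∈ 𝔮 := by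
  rw [← h.snd] at hy
  obtain ⟨⟨x, y'⟩, hp, rfl⟩ := hy
  exact ⟨x, hp⟩

theorem fst_mem {x : Module.End ℂ U} {y : Module.End ℂ U'} (hp : (x, y) ∈ 𝔮) : x ∈ M := by
  rw [← h.fst]
  exact ⟨_, hp, rfl⟩

theorem snd_mem {x : Module.End ℂ U} {y : Module.End ℂ U'} (hp : (x, y) ∈ 𝔮) : y ∈ M' := by
  rw [← h.snd]
  exact ⟨_, hp, rfl⟩

theorem uniq {x : Module.End ℂ U} {y y' : Module.End ℂ U'} (hp : (x, y) ∈ 𝔮)
    (hp' : (x, y') ∈ 𝔮) : y = y' := by
  have h1 := 𝔮.sub_mem hp hp'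
  have h2 : ((x, y) : Module.End ℂ U × Module.End ℂ U') - (x, y') = (0, y - y') :=
    Prod.ext (sub_self x) rfl
  rw [h2] at h1
  exact sub_eq_zero.1 (h.inj _ h1)

theorem brk {x x' : Module.End ℂ U} {y y' : Module.End ℂ U'} (hp : (x, y) ∈ 𝔮)
    (hp' : (x', y') ∈ 𝔮) : (x * x' - x' * x, y * y' - y' * y) ∈ 𝔮 :=
  h.br _ hp _ hp'

end Basic

variable [FiniteDimensional ℂ U] [FiniteDimensional ℂ U'] {k k' : ℕ} (Q : QS k M) (Q' : QS k' M')

include h

/-- The colours correspond. -/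
theorem colour (s : Fin k) : ∃ t : Fin k',
    (∀ x y, (x, y) ∈ 𝔮 → x ∈ Q.S s → y ∈ Q'.S t) ∧
      ∀ y ∈ Q'.S t, ∃ x ∈ Q.S s, (x, y) ∈ 𝔮 := by
  let X : Submodule ℂ (Module.End ℂ U × Module.End ℂ U') :=
    𝔮 ⊓ (Q.S s).comap (LinearMap.fst ℂ _ _)
  let I : Submodule ℂ (Module.End ℂ U') := X.map (LinearMap.snd ℂ _ _)
  have hI : ∀ y, y ∈ I ↔ ∃ x ∈ Q.S s, (x, y) ∈ 𝔮 := by
    intro y
    constructor
    · rintro ⟨⟨x, y'⟩, hp, rfl⟩
      exact ⟨x, hp.2, hp.1⟩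
    · rintro ⟨x, hx, hp⟩
      exact ⟨(x, y), ⟨hp, hx⟩, rfl⟩
  have hIdl : Idl I M' := by
    refine ⟨fun y hy => ?_, fun w hw y hy => ?_⟩
    · obtain ⟨x, -, hp⟩ := (hI y).1 hy
      exact h.snd_mem hp
    · obtain ⟨x, hx, hp⟩ := (hI y).1 hy
      obtain ⟨v, hv⟩ := h.mem_snd hw
      exact (hI _).2 ⟨v * x - x * v, (Q.S_idl s).2 v (h.fst_mem hv) x hx, h.brk hv hp⟩
  obtain ⟨t, ht⟩ : ∃ t, Q'.S t ≤ I := by
    by_contra hcon
    push Not at hcon
    have h1 : ∀ t, ∀ y ∈ I, Q'.p t y = 0 := fun t => (Q'.dicho t hIdl).resolve_left (hcon t)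
    obtain ⟨y, hp⟩ := h.mem_fst (Q.S_le s (Q.mx s))
    have hy : y ∈ I := (hI y).2 ⟨_, Q.mx s, hp⟩
    have h3 : y = 0 := by
      rw [Q'.p_sum (h.snd_mem hp)]
      exact Finset.sum_eq_zero fun t _ => h1 t y hy
    rw [h3] at hp
    exact Q.x_ne s (h.inj' _ hp)
  let Y : Submodule ℂ (Module.End ℂ U × Module.End ℂ U') :=
    X ⊓ (Q'.S t).comap (LinearMap.snd ℂ _ _)
  let J : Submodule ℂ (Module.End ℂ U) := Y.map (LinearMap.fst ℂ _ _)
  have hJ : ∀ x, x ∈ J ↔ x ∈ Q.S s ∧ ∃ y ∈ Q'.S t, (x, y) ∈ 𝔮 := by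
    intro x
    constructor
    · rintro ⟨⟨x, y⟩, hp, rfl⟩
      exact ⟨hp.1.2, y, hp.2, hp.1.1⟩
    · rintro ⟨hx, y, hy, hp⟩
      exact ⟨(x, y), ⟨⟨hp, hx⟩, hy⟩, rfl⟩
  have hJs : J = Q.S s := by
    refine (Q.simple s J (fun x hx => ((hJ x).1 hx).1) fun w hw x hx => ?_).resolve_left ?_
    · obtain ⟨hx1, y, hy, hp⟩ := (hJ x).1 hx
      obtain ⟨v, hv⟩ := h.mem_fst (Q.S_le s hw)
      exact (hJ _).2 ⟨Q.S_br hw hx1, _, (Q'.S_idl t).2 v (h.snd_mem hv) y hy, h.brk hv hp⟩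
    · intro hb
      obtain ⟨x, hx, hp⟩ := (hI _).1 (ht (Q'.mx t))
      have h1 : x ∈ J := (hJ x).2 ⟨hx, _, Q'.mx t, hp⟩
      rw [hb] at h1
      rw [(Submodule.mem_bot ℂ).1 h1] at hp
      exact Q'.x_ne t (h.inj _ hp)
  refine ⟨t, fun x y hp hx => ?_, fun y hy => (hI y).1 (ht hy)⟩
  rw [← hJs] at hx
  obtain ⟨-, y', hy', hp'⟩ := (hJ x).1 hx
  rw [h.uniq hp hp']
  exact hy'

omit h in
theorem ad3 {e x w : Module.End ℂ U} {ν : ℂ} (hx : x * x = ν • e) (ew : e * w = w)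
    (we : w * e = w) (ex : x * e = x) :
    x * (x * (x * w - w * x) - (x * w - w * x) * x) -
      (x * (x * w - w * x) - (x * w - w * x) * x) * x = (4 * ν) • (x * w - w * x) := by
  have b1 : x * (x * w) = ν • w := by rw [← mul_assoc, hx, smul_mul_assoc, ew]
  have b2 : x * (x * (w * x)) = ν • (w * x) := by
    rw [← mul_assoc, hx, smul_mul_assoc, ← mul_assoc, ew]
  have b3 : w * (x * x) = ν • w := by rw [hx, mul_smul_comm, we]
  have b4 : x * (x * x) = ν • x := by rw [hx, mul_smul_comm, ex]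
  simp only [mul_sub, sub_mul, mul_assoc, b1, b2, b3, b4, mul_smul_comm, smul_mul_assoc]
  module

/-- Corresponding elements have the same square. -/
theorem nu {s : Fin k} {t : Fin k'} (ht : ∀ y ∈ Q'.S t, ∃ x ∈ Q.S s, (x, y) ∈ 𝔮)
    {x : Module.End ℂ U} {y : Module.End ℂ U'} (hp : (x, y) ∈ 𝔮) (hx : x ∈ Q.S s)
    (hy : y ∈ Q'.S t) {ν : ℂ} (hν : x * x = ν • Q.e s) : y * y = ν • Q'.e t := by
  obtain ⟨ν', hν'⟩ := Q'.S_sq hy
  have h3 : ∀ z ∈ Q'.S t, (ν' - ν) • (y * z - z * y) = 0 := by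
    intro z hz
    obtain ⟨w, hw, hq⟩ := ht z hz
    have g1 := h.brk hp hq
    have g3 := h.brk hp (h.brk hp g1)
    rw [ad3 hν (Q.e_S hw).1 (Q.e_S hw).2 (Q.e_S hx).2] at g3
    have g4 := h.uniq g3 (𝔮.smul_mem (4 * ν) g1)
    rw [ad3 hν' (Q'.e_S hz).1 (Q'.e_S hz).2 (Q'.e_S hy).2] at g4
    have g6 : (ν' - ν) • (y * z - z * y) = (1 / 4 : ℂ) • ((4 * ν') • (y * z - z * y) -
        (4 * ν) • (y * z - z * y)) := by module
    rw [g6, g4, sub_self, smul_zero]
  by_cases h1 : ν' - ν = 0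
  · rw [hν', sub_eq_zero.1 h1]
  · have h4 : y = 0 := by
      refine Q'.cent hy fun z hz => ?_
      have h5 := (smul_eq_zero.1 (h3 z hz)).resolve_left h1
      rw [← neg_sub, h5, neg_zero]
    have h5 : x = 0 := by
      rw [h4] at hp
      exact h.inj' _ hp
    rw [h5, mul_zero] at hν
    have h6 : ν = 0 := (smul_eq_zero.1 hν.symm).resolve_right (Q.ne s)
    rw [h4, h6, mul_zero, zero_smul]

/-- **The intertwining map** for two tensor products of planes. -/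
theorem exists_T [Nontrivial U] [Nontrivial U'] (he : ∀ s, Q.e s = 1) (he' : ∀ t, Q'.e t = 1) :
    ∃ T : U →ₗ[ℂ] U', T ≠ 0 ∧ ∀ x y, (x, y) ∈ 𝔮 → y.comp T = T.comp x := by
  classical
  choose t ht1 ht2 using fun s => h.colour Q Q' s
  choose α hα using fun s => h.mem_fst (Q.S_le s (Q.mx s))
  choose β hβ using fun s => h.mem_fst (Q.S_le s (Q.my s))
  choose γ hγ using fun s => h.mem_fst (Q.S_le s (Q.mz s))
  have sqα : ∀ s, α s * α s = -1 := by
    intro s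
    have h1 := h.nu Q Q' (ht2 s) (hα s) (Q.mx s) (ht1 s _ _ (hα s) (Q.mx s)) (ν := -1)
      (by rw [(Q.q s).xx, neg_one_smul])
    rw [h1, he', neg_one_smul]
  have sqβ : ∀ s, β s * β s = -1 := by
    intro s
    have h1 := h.nu Q Q' (ht2 s) (hβ s) (Q.my s) (ht1 s _ _ (hβ s) (Q.my s)) (ν := -1)
      (by rw [(Q.q s).yy, neg_one_smul])
    rw [h1, he', neg_one_smul]
  have hrel : ∀ s, α s * β s = -(β s * α s) ∧ -γ s = -(α s * β s) := by
    intro s
    obtain ⟨h1, h2, h3, h4, h5, h6, h7⟩ := q_z (Q.q s)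
    refine rel_anti (sqα s) ?_ ?_
    · have g1 := h.brk (hα s) (hβ s)
      have g2 : Q.x s * Q.y s - Q.y s * Q.x s = (2 : ℂ) • (Q.x s * Q.y s) := by
        rw [(Q.q s).yx]
        module
      rw [g2] at g1
      rw [h.uniq g1 (𝔮.smul_mem (2 : ℂ) (hγ s))]
      change (2 : ℂ) • γ s = (-2 : ℂ) • -γ s
      module
    · have g1 := h.brk (hγ s) (hα s)
      have g2 : Q.x s * Q.y s * Q.x s - Q.x s * (Q.x s * Q.y s) = (2 : ℂ) • Q.y s := by
        rw [h2, h1]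
        module
      rw [g2] at g1
      have g3 := h.uniq g1 (𝔮.smul_mem (2 : ℂ) (hβ s))
      have g4 : γ s * α s - α s * γ s = (2 : ℂ) • β s := g3
      have g5 : -γ s * α s - α s * -γ s = -(γ s * α s - α s * γ s) := by noncomm_ring
      rw [g5, g4]
      module
  have hdiff : ∀ {u v : Module.End ℂ U} {u' v' : Module.End ℂ U'}, (u, u') ∈ 𝔮 → (v, v') ∈ 𝔮 →
      u * v = v * u → u' * v' = v' * u' := by
    intro u v u' v' hu hv huv
    have g1 := h.brk hu hv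
    rw [huv, sub_self] at g1
    exact sub_eq_zero.1 (h.inj _ g1)
  let F : Fin k × Bool → Module.End ℂ U := fun a => if a.2 then Q.x a.1 else Q.y a.1
  let F' : Fin k × Bool → Module.End ℂ U' := fun a => if a.2 then α a.1 else β a.1
  have hFF : ∀ a, (F a, F' a) ∈ 𝔮 := by
    rintro ⟨s, b⟩
    cases b
    · exact hβ s
    · exact hα s
  have hFS : ∀ a, F a ∈ Q.S a.1 := by
    rintro ⟨s, b⟩
    cases b
    · exact Q.my s
    · exact Q.mx s
  have hne : ∀ a b : Fin k × Bool, a ≠ b → a.1 ≠ b.1 ∨ (a.1 = b.1 ∧ a.2 = !b.2) := by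
    rintro ⟨s, b⟩ ⟨s', b'⟩ hab
    by_cases hs : s = s'
    · right
      subst hs
      refine ⟨rfl, ?_⟩
      cases b <;> cases b'
      · exact absurd rfl hab
      · rfl
      · rfl
      · exact absurd rfl hab
    · exact Or.inl hs
  have htwo : Two F F' := by
    refine ⟨?_, ?_, ?_⟩
    · rintro ⟨s, b⟩
      cases b
      · change Q.y s * Q.y s = -1
        rw [(Q.q s).yy, he]
      · change Q.x s * Q.x s = -1
        rw [(Q.q s).xx, he]
    · rintro ⟨s, b⟩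
      cases b
      · exact sqβ s
      · exact sqα s
    · intro a b hab
      rcases hne a b hab with h1 | ⟨h1, h2⟩
      · have e1 : F a * F b = F b * F a := Q.comm h1 (hFS a) (hFS b)
        refine ⟨1, one_mul 1, by rw [one_smul, e1], ?_⟩
        rw [one_smul]
        exact hdiff (hFF a) (hFF b) e1
      · obtain ⟨s, b1⟩ := a
        obtain ⟨s', b2⟩ := b
        simp only at h1 h2
        subst h1 h2
        refine ⟨-1, by ring, ?_, ?_⟩
        · cases b2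
          · change Q.x s * Q.y s = (-1 : ℂ) • (Q.y s * Q.x s)
            rw [(Q.q s).yx, neg_one_smul, neg_neg]
          · change Q.y s * Q.x s = (-1 : ℂ) • (Q.x s * Q.y s)
            rw [(Q.q s).yx, neg_one_smul]
        · cases b2
          · change α s * β s = (-1 : ℂ) • (β s * α s)
            rw [(hrel s).1, neg_one_smul]
          · change β s * α s = (-1 : ℂ) • (α s * β s)
            rw [(hrel s).1, neg_one_smul, neg_neg]
  obtain ⟨T₀, hT₀⟩ := exists_hom (U := U) (U' := U')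
  obtain ⟨T₁, hT₁, ε, hε, h1⟩ := htwo.exists hT₀ Finset.univ
  let G : Fin k × Bool → Module.End ℂ U := fun a =>
    Complex.I • (if a.2 then Q.y a.1 else Q.x a.1)
  have hI : ∀ u : Module.End ℂ U, u * u = -1 → (Complex.I • u) * (Complex.I • u) = 1 := by
    intro u hu
    rw [smul_mul_smul_comm, hu, Complex.I_mul_I, neg_one_smul, neg_neg]
  have hG0 : ∀ a, G a * G a = 1 := by
    rintro ⟨s, b⟩
    cases b
    · exact hI _ (by
        change Q.x s * Q.x s = -1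
        rw [(Q.q s).xx, he])
    · exact hI _ (by
        change Q.y s * Q.y s = -1
        rw [(Q.q s).yy, he])
  have hG1 : ∀ a b, a ≠ b → F b * G a = G a * F b := by
    intro a b hab
    rcases hne a b hab with h1 | ⟨h1, h2⟩
    · have e1 : G a ∈ Q.S a.1 := by
        obtain ⟨s, b1⟩ := a
        cases b1
        · exact Submodule.smul_mem _ _ (Q.mx s)
        · exact Submodule.smul_mem _ _ (Q.my s)
      exact Q.comm h1.symm (hFS b) e1
    · obtain ⟨s, b1⟩ := a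
      obtain ⟨s', b2⟩ := b
      simp only at h1 h2
      subst h1 h2
      cases b2
      · change Q.y s * (Complex.I • Q.y s) = (Complex.I • Q.y s) * Q.y s
        rw [mul_smul_comm, smul_mul_assoc]
      · change Q.x s * (Complex.I • Q.x s) = (Complex.I • Q.x s) * Q.x s
        rw [mul_smul_comm, smul_mul_assoc]
  have hG2 : ∀ a, F a * G a = -(G a * F a) := by
    rintro ⟨s, b⟩
    cases b
    · change Q.y s * (Complex.I • Q.x s) = -((Complex.I • Q.x s) * Q.y s)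
      rw [mul_smul_comm, smul_mul_assoc, (Q.q s).yx, smul_neg]
    · change Q.x s * (Complex.I • Q.y s) = -((Complex.I • Q.y s) * Q.x s)
      rw [mul_smul_comm, smul_mul_assoc, (Q.q s).yx, smul_neg, neg_neg]
  obtain ⟨T, hT, ε', -, h2, h3⟩ := Two.fix (F := F) (F' := F') hT₁ hε
    (fun a => h1 a (Finset.mem_univ a)) (G := G) hG0 hG1 hG2 Finset.univ
  have hT' : ∀ a, (F' a).comp T = T.comp (F a) := by
    intro a
    rw [h2 a, h3 a (Finset.mem_univ a), one_smul]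
  refine ⟨T, hT, fun x y hxy => ?_⟩
  have hgen : ∀ s, ∀ z, (z = Q.x s ∨ z = Q.y s ∨ z = Q.x s * Q.y s) →
      ∃ y, (z, y) ∈ 𝔮 ∧ y.comp T = T.comp z := by
    rintro s z (rfl | rfl | rfl)
    · exact ⟨_, hα s, hT' (s, true)⟩
    · exact ⟨_, hβ s, hT' (s, false)⟩
    · refine ⟨_, hγ s, ?_⟩
      have e1 : γ s = α s * β s := by
        have e2 := (hrel s).2
        exact neg_injective e2
      have e3 : (α s).comp T = T.comp (Q.x s) := hT' (s, true)
      have e4 : (β s).comp T = T.comp (Q.y s) := hT' (s, false)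
      rw [e1, Module.End.mul_eq_comp, Module.End.mul_eq_comp, LinearMap.comp_assoc, e4,
        ← LinearMap.comp_assoc, e3, LinearMap.comp_assoc]
  have key : ∀ x ∈ M, ∃ y, (x, y) ∈ 𝔮 ∧ y.comp T = T.comp x := by
    intro x hx
    rw [Q.span] at hx
    induction hx using Submodule.span_induction with
    | mem x hx =>
      obtain ⟨s, hs⟩ := hx
      exact hgen s x hs
    | zero => exact ⟨0, 𝔮.zero_mem, by rw [LinearMap.zero_comp, LinearMap.comp_zero]⟩
    | add a b _ _ ha hb =>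
      obtain ⟨y, hy, hy'⟩ := ha
      obtain ⟨z, hz, hz'⟩ := hb
      exact ⟨y + z, 𝔮.add_mem hy hz, by rw [LinearMap.add_comp, LinearMap.comp_add, hy', hz']⟩
    | smul t a _ ha =>
      obtain ⟨y, hy, hy'⟩ := ha
      exact ⟨t • y, 𝔮.smul_mem t hy, by rw [LinearMap.smul_comp, LinearMap.comp_smul, hy']⟩
  obtain ⟨y', hy', h4⟩ := key x (h.fst_mem hxy)
  rw [h.uniq hxy hy']
  exact h4

end LkQ

end Link

end Pool.Agent.T9h38.TM
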