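import Pool.Agent.T9h38.TM.Three
import Pool.Agent.Y102.SP.Small

set_option autoImplicit false
set_option maxHeartbeats 1000000
set_option linter.unusedSectionVars false
set_option linter.unusedVariables false

/-!
# Sums of the trace zero parts of commuting quaternion algebras
-/

open Module Function TensorProduct

noncomputable section

namespace Pool.Agent.T9h38.TM

open Pool.Agent.Y102 Pool.Agent.W516.DR Pool.Agent.H204R3.GP Pool.Agent.W516.KC
  Pool.Agent.H204R3.SP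
open Pool.Agent.N192.GP

section Basic

variable {U : Type} [AddCommGroup U] [Module ℂ U]

/-- A Lie algebra which is the sum of the trace zero parts of `k` commuting algebras of quaternions
(which may have different unit elements). -/
structure QS (k : ℕ) (M : Submodule ℂ (Module.End ℂ U)) where
  e : Fin k → Module.End ℂ U
  x : Fin k → Module.End ℂ U
  y : Fin k → Module.End ℂ U
  q : ∀ s, SP.SmallQ (e s) (x s) (y s)
  cxx : ∀ s t, s ≠ t → x s * x t = x t * x s
  cxy : ∀ s t, s ≠ t → x s * y t = y t * x s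
  cyy : ∀ s t, s ≠ t → y s * y t = y t * y s
  ne : ∀ s, e s ≠ 0
  span : M = Submodule.span ℂ {z | ∃ s, z = x s ∨ z = y s ∨ z = x s * y s}

/-- The structure constants of `so(3)`. -/
def zz (x y : Module.End ℂ U) : ℕ → ℕ → Module.End ℂ U
  | 0, 1 => x
  | 1, 2 => y
  | 0, 2 => x * y
  | 1, 0 => -x
  | 2, 1 => -y
  | 2, 0 => -(x * y)
  | _, _ => 0

theorem q_z {e x y : Module.End ℂ U} (h : SP.SmallQ e x y) :
    x * (x * y) = -y ∧ x * y * x = y ∧ y * (x * y) = x ∧ x * y * y = -x ∧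
      x * y * (x * y) = -e ∧ e * (x * y) = x * y ∧ x * y * e = x * y := by
  have h1 : x * (x * y) = -y := by rw [← mul_assoc, h.xx, neg_mul, h.ey]
  have h2 : x * y * x = y := by rw [mul_assoc, h.yx, mul_neg, h1, neg_neg]
  have h4 : x * y * y = -x := by rw [mul_assoc, h.yy, mul_neg, h.xe]
  have h3 : y * (x * y) = x := by rw [← mul_assoc, h.yx, neg_mul, h4, neg_neg]
  refine ⟨h1, h2, h3, h4, ?_, ?_, ?_⟩
  · rw [← mul_assoc, h2, h.yy]
  · rw [← mul_assoc, h.ex]
  · rw [mul_assoc, h.ye]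

theorem soRel_zz {e x y : Module.End ℂ U} (h : SP.SmallQ e x y) : SoRel 3 (zz x y) := by
  obtain ⟨h1, h2, h3, h4, h5, -, -⟩ := q_z h
  have b1 : x * y - y * x = (2 : ℂ) • (x * y) := by
    rw [h.yx]
    module
  have b2 : y * (x * y) - x * y * y = (2 : ℂ) • x := by
    rw [h3, h4]
    module
  have b3 : x * y * x - x * (x * y) = (2 : ℂ) • y := by
    rw [h2, h1]
    module
  refine ⟨fun a b ha hb hab => ?_, fun a b c ha hb hc hab hbc hac => ?_,
    fun a b c d ha hb hc hd hab hcd hac had hbc hbd => by omega⟩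
  · interval_cases a <;> interval_cases b
    all_goals first
      | exact absurd rfl hab
      | rfl
      | exact (neg_neg _).symm
  · interval_cases a <;> interval_cases b <;> interval_cases c
    all_goals first
      | exact absurd rfl hab
      | exact absurd rfl hbc
      | exact absurd rfl hac
      | exact b1
      | (change x * y * -y - -y * (x * y) = (2 : ℂ) • x
         rw [← b2]
         noncomm_ring)
      | (change -x * (x * y) - x * y * -x = (2 : ℂ) • y
         rw [← b3]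
         noncomm_ring)
      | (change y * -(x * y) - -(x * y) * y = (2 : ℂ) • -x
         rw [smul_neg, ← b2]
         noncomm_ring)
      | (change -(x * y) * x - x * -(x * y) = (2 : ℂ) • -y
         rw [smul_neg, ← b3]
         noncomm_ring)
      | (change -y * -x - -x * -y = (2 : ℂ) • -(x * y)
         rw [smul_neg, ← b1]
         noncomm_ring)

theorem sp_zz (x y : Module.End ℂ U) :
    sp 3 (zz x y) = Submodule.span ℂ {z | z = x ∨ z = y ∨ z = x * y} := by
  refine le_antisymm (Submodule.span_le.2 ?_) (Submodule.span_le.2 ?_)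
  · rintro _ ⟨a, b, ha, hb, hab, rfl⟩
    have m1 : x ∈ Submodule.span ℂ {z | z = x ∨ z = y ∨ z = x * y} :=
      Submodule.subset_span (Or.inl rfl)
    have m2 : y ∈ Submodule.span ℂ {z | z = x ∨ z = y ∨ z = x * y} :=
      Submodule.subset_span (Or.inr (Or.inl rfl))
    have m3 : x * y ∈ Submodule.span ℂ {z | z = x ∨ z = y ∨ z = x * y} :=
      Submodule.subset_span (Or.inr (Or.inr rfl))
    interval_cases a <;> interval_cases b
    all_goals first
      | exact absurd rfl hab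
      | exact m1
      | exact m2
      | exact m3
      | exact Submodule.neg_mem _ m1
      | exact Submodule.neg_mem _ m2
      | exact Submodule.neg_mem _ m3
  · rintro z (rfl | rfl | rfl)
    · exact mem_sp (Z := zz z y) (a := 0) (b := 1) (by omega) (by omega) (by omega)
    · exact mem_sp (Z := zz x z) (a := 1) (b := 2) (by omega) (by omega) (by omega)
    · exact mem_sp (Z := zz x y) (a := 0) (b := 2) (by omega) (by omega) (by omega)

variable {k : ℕ} {M : Submodule ℂ (Module.End ℂ U)} (Q : QS k M)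

namespace QS

/-- The colours. -/
def S (s : Fin k) : Submodule ℂ (Module.End ℂ U) := sp 3 (zz (Q.x s) (Q.y s))

theorem mx (s : Fin k) : Q.x s ∈ Q.S s :=
  mem_sp (Z := zz (Q.x s) (Q.y s)) (a := 0) (b := 1) (by omega) (by omega) (by omega)

theorem my (s : Fin k) : Q.y s ∈ Q.S s :=
  mem_sp (Z := zz (Q.x s) (Q.y s)) (a := 1) (b := 2) (by omega) (by omega) (by omega)

theorem mz (s : Fin k) : Q.x s * Q.y s ∈ Q.S s :=
  mem_sp (Z := zz (Q.x s) (Q.y s)) (a := 0) (b := 2) (by omega) (by omega) (by omega)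

theorem S_eq (s : Fin k) :
    Q.S s = Submodule.span ℂ {z | z = Q.x s ∨ z = Q.y s ∨ z = Q.x s * Q.y s} := sp_zz _ _

theorem S_le (s : Fin k) : Q.S s ≤ M := by
  rw [Q.S_eq]
  refine le_trans (Submodule.span_mono ?_) Q.span.ge
  intro z hz
  exact ⟨s, hz⟩

theorem exists_S {s : Fin k} {z : Module.End ℂ U} (hz : z ∈ Q.S s) :
    ∃ a b c : ℂ, z = a • Q.x s + b • Q.y s + c • (Q.x s * Q.y s) :=
  mem_three (soRel_zz (Q.q s)) hz

theorem S_br {s : Fin k} {z w : Module.End ℂ U} (hz : z ∈ Q.S s) (hw : w ∈ Q.S s) :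
    z * w - w * z ∈ Q.S s := by
  obtain ⟨a, b, c, rfl⟩ := Q.exists_S hz
  obtain ⟨a', b', c', rfl⟩ := Q.exists_S hw
  obtain ⟨h1, h2, h3, h4, h5, -, -⟩ := q_z (Q.q s)
  have h6 := (Q.q s).xx
  have h7 := (Q.q s).yy
  have h8 := (Q.q s).yx
  have h9 : (a • Q.x s + b • Q.y s + c • (Q.x s * Q.y s)) *
      (a' • Q.x s + b' • Q.y s + c' • (Q.x s * Q.y s)) -
      (a' • Q.x s + b' • Q.y s + c' • (Q.x s * Q.y s)) *
      (a • Q.x s + b • Q.y s + c • (Q.x s * Q.y s)) =
      (2 * (b * c' - c * b')) • Q.x s + (2 * (c * a' - a * c')) • Q.y s +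
        (2 * (a * b' - b * a')) • (Q.x s * Q.y s) := by
    simp only [mul_add, add_mul, mul_smul_comm, smul_mul_assoc, h1, h2, h3, h4, h5, h6, h7, h8]
    module
  rw [h9]
  exact Submodule.add_mem _ (Submodule.add_mem _ (Submodule.smul_mem _ _ (Q.mx s))
    (Submodule.smul_mem _ _ (Q.my s))) (Submodule.smul_mem _ _ (Q.mz s))

theorem S_sq {s : Fin k} {z : Module.End ℂ U} (hz : z ∈ Q.S s) : ∃ ν : ℂ, z * z = ν • Q.e s := by
  obtain ⟨a, b, c, rfl⟩ := Q.exists_S hz
  obtain ⟨h1, h2, h3, h4, h5, -, -⟩ := q_z (Q.q s)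
  have h6 := (Q.q s).xx
  have h7 := (Q.q s).yy
  have h8 := (Q.q s).yx
  refine ⟨-(a * a + b * b + c * c), ?_⟩
  simp only [mul_add, add_mul, mul_smul_comm, smul_mul_assoc, h1, h2, h3, h4, h5, h6, h7, h8]
  module

theorem e_S {s : Fin k} {z : Module.End ℂ U} (hz : z ∈ Q.S s) : Q.e s * z = z ∧ z * Q.e s = z := by
  obtain ⟨a, b, c, rfl⟩ := Q.exists_S hz
  obtain ⟨-, -, -, -, -, h6, h7⟩ := q_z (Q.q s)
  refine ⟨?_, ?_⟩
  · rw [mul_add, mul_add, mul_smul_comm, mul_smul_comm, mul_smul_comm, (Q.q s).ex, (Q.q s).ey, h6]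
  · rw [add_mul, add_mul, smul_mul_assoc, smul_mul_assoc, smul_mul_assoc, (Q.q s).xe, (Q.q s).ye, h7]

theorem comm_gen {s t : Fin k} (hst : s ≠ t) {z : Module.End ℂ U}
    (hz : z = Q.x s ∨ z = Q.y s ∨ z = Q.x s * Q.y s) :
    z * Q.x t = Q.x t * z ∧ z * Q.y t = Q.y t * z := by
  rcases hz with rfl | rfl | rfl
  · exact ⟨Q.cxx s t hst, Q.cxy s t hst⟩
  · exact ⟨(Q.cxy t s hst.symm).symm, Q.cyy s t hst⟩
  · constructor
    · rw [mul_assoc, (Q.cxy t s hst.symm).symm, ← mul_assoc, Q.cxx s t hst, mul_assoc]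
    · rw [mul_assoc, Q.cyy s t hst, ← mul_assoc, Q.cxy s t hst, mul_assoc]

theorem comm {s t : Fin k} (hst : s ≠ t) {z w : Module.End ℂ U} (hz : z ∈ Q.S s)
    (hw : w ∈ Q.S t) : z * w = w * z := by
  obtain ⟨a, b, c, rfl⟩ := Q.exists_S hz
  obtain ⟨a', b', c', rfl⟩ := Q.exists_S hw
  have h1 := Q.comm_gen hst (Or.inl rfl)
  have h2 := Q.comm_gen hst (Or.inr (Or.inl rfl))
  have h3 := Q.comm_gen hst (Or.inr (Or.inr rfl))
  have key : ∀ z, z * Q.x t = Q.x t * z ∧ z * Q.y t = Q.y t * z →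
      z * (a' • Q.x t + b' • Q.y t + c' • (Q.x t * Q.y t)) =
        (a' • Q.x t + b' • Q.y t + c' • (Q.x t * Q.y t)) * z := by
    rintro z ⟨e1, e2⟩
    have e3 : z * (Q.x t * Q.y t) = Q.x t * Q.y t * z := by
      rw [← mul_assoc, e1, mul_assoc, e2, mul_assoc]
    simp only [mul_add, add_mul, mul_smul_comm, smul_mul_assoc, e1, e2, e3]
  rw [add_mul, add_mul, smul_mul_assoc, smul_mul_assoc, smul_mul_assoc, key _ h1, key _ h2,
    key _ h3, mul_add, mul_add, mul_smul_comm, mul_smul_comm, mul_smul_comm]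

/-- Sums of elements of the colours. -/
theorem exists_sum {z : Module.End ℂ U} (hz : z ∈ M) :
    ∃ f : Fin k → Module.End ℂ U, (∀ s, f s ∈ Q.S s) ∧ z = ∑ s, f s := by
  classical
  rw [Q.span] at hz
  induction hz using Submodule.span_induction with
  | mem z hz =>
    obtain ⟨s, hs⟩ := hz
    refine ⟨Pi.single s z, fun t => ?_, ?_⟩
    · by_cases h : t = s
      · subst h
        rw [Pi.single_eq_same, Q.S_eq]
        exact Submodule.subset_span hs
      · rw [Pi.single_eq_of_ne h]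
        exact Submodule.zero_mem _
    · rw [Finset.sum_eq_single s, Pi.single_eq_same]
      · intro t _ h
        rw [Pi.single_eq_of_ne h]
      · intro h
        exact absurd (Finset.mem_univ _) h
  | zero => exact ⟨0, fun s => Submodule.zero_mem _, by simp⟩
  | add z w _ _ hz hw =>
    obtain ⟨f, h1, rfl⟩ := hz
    obtain ⟨f', h1', rfl⟩ := hw
    exact ⟨f + f', fun s => Submodule.add_mem _ (h1 s) (h1' s), by
      rw [← Finset.sum_add_distrib]
      rfl⟩
  | smul c z _ hz =>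
    obtain ⟨f, h1, rfl⟩ := hz
    exact ⟨c • f, fun s => Submodule.smul_mem _ _ (h1 s), by
      rw [Finset.smul_sum]
      rfl⟩

theorem simple (s : Fin k) (J : Submodule ℂ (Module.End ℂ U)) (hJ : J ≤ Q.S s)
    (hJ2 : ∀ x ∈ Q.S s, ∀ y ∈ J, x * y - y * x ∈ J) : J = ⊥ ∨ J = Q.S s :=
  simple3 (soRel_zz (Q.q s)) J hJ hJ2

theorem x_ne (s : Fin k) : Q.x s ≠ 0 := by
  intro h
  have h1 := (Q.q s).xx
  rw [h, mul_zero] at h1
  exact Q.ne s (neg_eq_zero.1 h1.symm)

/-- The centre is trivial. -/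
theorem cent {s : Fin k} {z : Module.End ℂ U} (hz : z ∈ Q.S s)
    (h : ∀ y ∈ Q.S s, y * z - z * y = 0) : z = 0 := by
  let Z : Submodule ℂ (Module.End ℂ U) :=
    { carrier := {x | x ∈ Q.S s ∧ ∀ y ∈ Q.S s, y * x - x * y = 0}
      zero_mem' := ⟨Submodule.zero_mem _, fun y _ => by rw [mul_zero, zero_mul, sub_zero]⟩
      add_mem' := fun {a b} ha hb => ⟨Submodule.add_mem _ ha.1 hb.1, fun y hy => by
        have h2 := ha.2 y hy
        have h3 := hb.2 y hy
        have h4 : y * (a + b) - (a + b) * y = (y * a - a * y) + (y * b - b * y) := by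
          rw [mul_add, add_mul]
          abel
        rw [h4, h2, h3, add_zero]⟩
      smul_mem' := fun t a ha => ⟨Submodule.smul_mem _ t ha.1, fun y hy => by
        rw [mul_smul_comm, smul_mul_assoc, ← smul_sub, ha.2 y hy, smul_zero]⟩ }
  have hZ : Z = ⊥ := by
    rcases Q.simple s Z (fun x hx => hx.1) (fun x hx y hy => by
      rw [hy.2 x hx]
      exact Z.zero_mem) with h | h
    · exact h
    · exfalso
      have h2 : Q.x s ∈ Z := by rw [h]; exact Q.mx s
      have h3 := h2.2 _ (Q.my s)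
      rw [(Q.q s).yx] at h3
      have h4 : Q.x s * Q.y s = 0 := by
        have h5 : (2 : ℂ) • (Q.x s * Q.y s) = -(-(Q.x s * Q.y s) - Q.x s * Q.y s) := by module
        rw [h3, neg_zero] at h5
        exact (smul_eq_zero.1 h5).resolve_left two_ne_zero
      have h5 := (q_z (Q.q s)).1
      rw [h4, mul_zero] at h5
      have h6 := (Q.q s).yy
      rw [neg_eq_zero.1 h5.symm, mul_zero] at h6
      exact Q.ne s (neg_eq_zero.1 h6.symm)
  have h3 : z ∈ Z := ⟨hz, h⟩
  rw [hZ] at h3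
  exact (Submodule.mem_bot ℂ).1 h3

end QS

end Basic

section Trace

variable {U : Type} [AddCommGroup U] [Module ℂ U] [FiniteDimensional ℂ U] {k : ℕ}
  {M : Submodule ℂ (Module.End ℂ U)} (Q : QS k M)

/-- The trace. -/
abbrev tr (X : Module.End ℂ U) : ℂ := LinearMap.trace ℂ U X

theorem tr_mul (X Y : Module.End ℂ U) : tr (X * Y) = tr (Y * X) := LinearMap.trace_mul_comm ℂ X Y

theorem tr_neg (X : Module.End ℂ U) : tr (-X) = -tr X := map_neg (LinearMap.trace ℂ U) X

namespace QS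

theorem tr_e (s : Fin k) : tr (Q.e s) ≠ 0 := by
  have hp : IsIdempotentElem (Q.e s) := (Q.q s).ee
  have h1 : tr (Q.e s) = (finrank ℂ (LinearMap.range (Q.e s)) : ℂ) :=
    LinearMap.IsProj.trace (LinearMap.IsIdempotentElem.isProj_range _ hp)
  rw [h1, Nat.cast_ne_zero]
  intro h2
  have h3 : LinearMap.range (Q.e s) = ⊥ := Submodule.finrank_eq_zero.1 h2
  exact Q.ne s (LinearMap.range_eq_bot.1 h3)

/-- An element `w` of square `-e` which anticommutes with `u` and commutes with `v` makes the trace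
of `u v` vanish. -/
theorem tr_zero {e u v w : Module.End ℂ U} (hw : w * w = -e) (hwu : w * u = -(u * w))
    (hwv : w * v = v * w) (heu : e * u = u) (hue : u * e = u) : tr (u * v) = 0 := by
  have h1 : tr (u * v) = -tr (w * (w * u * v)) := by
    rw [← mul_assoc, ← mul_assoc, hw, neg_mul, neg_mul, heu, tr_neg, neg_neg]
  have h2 : w * u * v * w = u * v := by
    calc w * u * v * w = w * u * (v * w) := by rw [mul_assoc]
      _ = w * u * (w * v) := by rw [hwv]
      _ = -(u * w) * (w * v) := by rw [hwu]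
      _ = -(u * (w * w) * v) := by noncomm_ring
      _ = u * e * v := by rw [hw]; noncomm_ring
      _ = u * v := by rw [hue]
  rw [tr_mul w, h2] at h1
  have h3 : (2 : ℂ) * tr (u * v) = 0 := by linear_combination h1
  exact (mul_eq_zero.1 h3).resolve_left two_ne_zero

theorem tr_orth {s t : Fin k} (hst : s ≠ t) {u v : Module.End ℂ U}
    (hu : u = Q.x s ∨ u = Q.y s ∨ u = Q.x s * Q.y s)
    (hv : v = Q.x t ∨ v = Q.y t ∨ v = Q.x t * Q.y t) : tr (u * v) = 0 := by
  obtain ⟨h1, h2, h3, h4, h5, h6, h7⟩ := q_z (Q.q s)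
  have g1 := Q.comm_gen hst.symm hv
  rcases hu with rfl | rfl | rfl
  · exact tr_zero (Q.q s).yy (Q.q s).yx g1.2.symm (Q.q s).ex (Q.q s).xe
  · exact tr_zero (Q.q s).xx (by rw [(Q.q s).yx, neg_neg]) g1.1.symm (Q.q s).ey (Q.q s).ye
  · exact tr_zero (Q.q s).xx (by rw [h1, h2]) g1.1.symm h6 h7

theorem tr_same (s : Fin k) : tr (Q.x s * Q.y s) = 0 ∧ tr (Q.x s * (Q.x s * Q.y s)) = 0 ∧
    tr (Q.y s * (Q.x s * Q.y s)) = 0 := by
  obtain ⟨h1, h2, h3, h4, h5, h6, h7⟩ := q_z (Q.q s)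
  have e1 : tr (Q.x s) = 0 := by
    have := tr_zero (v := 1) (Q.q s).yy (Q.q s).yx (by rw [mul_one, one_mul]) (Q.q s).ex
      (Q.q s).xe
    rwa [mul_one] at this
  have e2 : tr (Q.y s) = 0 := by
    have := tr_zero (v := 1) (Q.q s).xx (u := Q.y s) (by rw [(Q.q s).yx, neg_neg])
      (by rw [mul_one, one_mul]) (Q.q s).ey (Q.q s).ye
    rwa [mul_one] at this
  have e3 : tr (Q.x s * Q.y s) = 0 := by
    have := tr_zero (v := 1) (Q.q s).xx (u := Q.x s * Q.y s) (by rw [h1, h2])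
      (by rw [mul_one, one_mul]) h6 h7
    rwa [mul_one] at this
  refine ⟨e3, ?_, ?_⟩
  · rw [h1, tr_neg, e2, neg_zero]
  · rw [h3, e1]

/-- The projection to a colour. -/
def p (s : Fin k) : Module.End ℂ U →ₗ[ℂ] Module.End ℂ U where
  toFun X := (-(tr (X * Q.x s) / tr (Q.e s))) • Q.x s + (-(tr (X * Q.y s) / tr (Q.e s))) • Q.y s +
    (-(tr (X * (Q.x s * Q.y s)) / tr (Q.e s))) • (Q.x s * Q.y s)
  map_add' X Y := by
    simp only [add_mul, map_add]
    module
  map_smul' c X := by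
    simp only [smul_mul_assoc, map_smul, RingHom.id_apply, smul_eq_mul]
    module

theorem p_apply (s : Fin k) (X : Module.End ℂ U) : Q.p s X =
    (-(tr (X * Q.x s) / tr (Q.e s))) • Q.x s + (-(tr (X * Q.y s) / tr (Q.e s))) • Q.y s +
    (-(tr (X * (Q.x s * Q.y s)) / tr (Q.e s))) • (Q.x s * Q.y s) := rfl

theorem p_mem (s : Fin k) (X : Module.End ℂ U) : Q.p s X ∈ Q.S s := by
  rw [Q.p_apply]
  exact Submodule.add_mem _ (Submodule.add_mem _ (Submodule.smul_mem _ _ (Q.mx s))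
    (Submodule.smul_mem _ _ (Q.my s))) (Submodule.smul_mem _ _ (Q.mz s))

theorem p_same {s : Fin k} {z : Module.End ℂ U} (hz : z ∈ Q.S s) : Q.p s z = z := by
  obtain ⟨a, b, c, rfl⟩ := Q.exists_S hz
  obtain ⟨h1, h2, h3, h4, h5, h6, h7⟩ := q_z (Q.q s)
  obtain ⟨t1, t2, t3⟩ := Q.tr_same s
  have t1' : tr (Q.y s * Q.x s) = 0 := by rw [tr_mul, t1]
  have t2' : tr (Q.x s * Q.y s * Q.x s) = 0 := by rw [tr_mul, t2]
  have t3' : tr (Q.x s * Q.y s * Q.y s) = 0 := by rw [tr_mul, t3]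
  have he := Q.tr_e s
  have n1 : tr (Q.x s * Q.x s) = -tr (Q.e s) := by rw [(Q.q s).xx, tr_neg]
  have n2 : tr (Q.y s * Q.y s) = -tr (Q.e s) := by rw [(Q.q s).yy, tr_neg]
  have n3 : tr (Q.x s * Q.y s * (Q.x s * Q.y s)) = -tr (Q.e s) := by rw [h5, tr_neg]
  rw [Q.p_apply]
  simp only [add_mul, smul_mul_assoc, map_add, map_smul, smul_eq_mul, t1, t1', t2, t2', t3, t3',
    n1, n2, n3, mul_zero, add_zero, zero_add]
  have f : ∀ a : ℂ, -(a * -tr (Q.e s) / tr (Q.e s)) = a := by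
    intro a
    field_simp
  rw [f, f, f]

theorem p_other {s t : Fin k} (hst : t ≠ s) {z : Module.End ℂ U} (hz : z ∈ Q.S s) :
    Q.p t z = 0 := by
  obtain ⟨a, b, c, rfl⟩ := Q.exists_S hz
  have g : ∀ u, (u = Q.x s ∨ u = Q.y s ∨ u = Q.x s * Q.y s) →
      ∀ v, (v = Q.x t ∨ v = Q.y t ∨ v = Q.x t * Q.y t) → tr (u * v) = 0 :=
    fun u hu v hv => Q.tr_orth hst.symm hu hv
  have key : ∀ v, (v = Q.x t ∨ v = Q.y t ∨ v = Q.x t * Q.y t) →
      tr ((a • Q.x s + b • Q.y s + c • (Q.x s * Q.y s)) * v) = 0 := by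
    intro v hv
    simp only [add_mul, smul_mul_assoc, map_add, map_smul, g _ (Or.inl rfl) v hv,
      g _ (Or.inr (Or.inl rfl)) v hv, g _ (Or.inr (Or.inr rfl)) v hv, smul_zero, add_zero]
  rw [Q.p_apply, key _ (Or.inl rfl), key _ (Or.inr (Or.inl rfl)), key _ (Or.inr (Or.inr rfl)),
    zero_div, neg_zero, zero_smul, zero_smul, zero_smul, add_zero, add_zero]

theorem p_fsum {f : Fin k → Module.End ℂ U} (hf : ∀ s, f s ∈ Q.S s) (t : Fin k) :
    Q.p t (∑ s, f s) = f t := by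
  rw [map_sum, Finset.sum_eq_single t]
  · exact Q.p_same (hf t)
  · intro s _ hs
    exact Q.p_other hs.symm (hf s)
  · intro h
    exact absurd (Finset.mem_univ _) h

theorem p_sum {z : Module.End ℂ U} (hz : z ∈ M) : z = ∑ s, Q.p s z := by
  obtain ⟨f, hf, rfl⟩ := Q.exists_sum hz
  exact Finset.sum_congr rfl fun s _ => (Q.p_fsum hf s).symm

/-- The bracket with an element of a colour. -/
theorem part {s : Fin k} {x y : Module.End ℂ U} (hx : x ∈ Q.S s) (hy : y ∈ M) :
    x * y - y * x = x * Q.p s y - Q.p s y * x := by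
  have h1 := Q.p_sum hy
  have h2 : x * y - y * x = ∑ t, (x * Q.p t y - Q.p t y * x) := by
    conv_lhs => rw [h1]
    rw [Finset.mul_sum, Finset.sum_mul, ← Finset.sum_sub_distrib]
  rw [h2, Finset.sum_eq_single s]
  · intro t _ ht
    rw [Q.comm ht.symm hx (Q.p_mem t y), sub_self]
  · intro h
    exact absurd (Finset.mem_univ _) h

theorem p_br {s : Fin k} {x y : Module.End ℂ U} (hx : x ∈ M) (hy : y ∈ M) :
    Q.p s (x * y - y * x) = Q.p s x * Q.p s y - Q.p s y * Q.p s x := by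
  have h1 : x * y - y * x = ∑ t, (Q.p t x * Q.p t y - Q.p t y * Q.p t x) := by
    have h2 : x * y - y * x = ∑ t, (Q.p t x * y - y * Q.p t x) := by
      conv_lhs => rw [Q.p_sum hx]
      rw [Finset.mul_sum, Finset.sum_mul, ← Finset.sum_sub_distrib]
    rw [h2]
    exact Finset.sum_congr rfl fun t _ => Q.part (Q.p_mem t x) hy
  rw [h1, Q.p_fsum (fun t => Q.S_br (Q.p_mem t x) (Q.p_mem t y))]

theorem S_idl (s : Fin k) : Idl (Q.S s) M := by
  refine ⟨Q.S_le s, fun x hx y hy => ?_⟩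
  have h1 := Q.part hy hx
  have h2 : x * y - y * x = Q.p s x * y - y * Q.p s x := by
    rw [← neg_sub, h1, neg_sub]
  rw [h2]
  exact Q.S_br (Q.p_mem s x) hy

/-- An ideal contains one colour, or its projection to it is trivial. -/
theorem dicho (s : Fin k) {I : Submodule ℂ (Module.End ℂ U)} (hI : Idl I M) :
    Q.S s ≤ I ∨ ∀ x ∈ I, Q.p s x = 0 := by
  rcases Q.simple s (I ⊓ Q.S s) inf_le_right (fun x hx y hy =>
      ⟨hI.2 x (Q.S_le s hx) y hy.1, Q.S_br hx hy.2⟩) with h1 | h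
  swap
  · exact Or.inl (inf_eq_right.1 h)
  right
  intro x hx
  refine Q.cent (Q.p_mem s x) fun y hy => ?_
  rw [← Q.part hy (hI.1 hx)]
  have h5 : y * x - x * y ∈ I ⊓ Q.S s := by
    refine ⟨hI.2 y (Q.S_le s hy) x hx, ?_⟩
    rw [Q.part hy (hI.1 hx)]
    exact Q.S_br hy (Q.p_mem s x)
  rw [h1] at h5
  exact (Submodule.mem_bot ℂ).1 h5

include Q in
theorem perf : M ≤ Submodule.span ℂ {z | ∃ x ∈ M, ∃ y ∈ M, z = x * y - y * x} := by
  intro z hz
  rw [Q.p_sum hz]
  refine Submodule.sum_mem _ fun s _ => ?_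
  have h1 := perf3 (soRel_zz (Q.q s)) (Q.p_mem s z)
  refine Submodule.span_mono ?_ h1
  rintro _ ⟨x, hx, y, hy, rfl⟩
  exact ⟨x, Q.S_le s hx, y, Q.S_le s hy, rfl⟩

end QS

end Trace

end Pool.Agent.T9h38.TM
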