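import Pool.Agent.T9h38.TM.Gen

set_option autoImplicit false
set_option maxHeartbeats 1000000
set_option linter.unusedSectionVars false
set_option linter.unusedVariables false

/-!
# Noncompact colours correspond to noncompact colours
-/

open Module Function TensorProduct

noncomputable section

namespace Pool.Agent.T9h38.TM

open Pool.Agent.Y102 Pool.Agent.W516.DR Pool.Agent.H204R3.GP Pool.Agent.W516.KC
  Pool.Agent.H204R3.SP
open Pool.Agent.N192.GP
open Pool.Agent.T9h38.RM

section Eig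

variable {U : Type} [AddCommGroup U] [Module ℂ U] [FiniteDimensional ℂ U] {k : ℕ}
  {M : Submodule ℂ (Module.End ℂ U)} (Q : QS k M)

/-- A common eigenvector of commuting operators `F a` with `F a ^ 3 = ν a F a`. -/
theorem simulG {ι : Type} [DecidableEq ι] {F : ι → Module.End ℂ U} {ν : ι → ℂ}
    {E : Module.End ℂ U} (hE0 : E ≠ 0) (hE : E * E = E) (hEF : ∀ a, E * F a = F a * E)
    (hc : ∀ a b, a ≠ b → F a * F b = F b * F a) (hm : ∀ a, F a * F a * F a = ν a • F a)
    (S : Finset ι) : ∃ v : U, v ≠ 0 ∧ E v = v ∧ ∃ l : ι → ℂ, ∀ a ∈ S, F a v = l a • v := by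
  have hEE : ∀ u, E (E u) = E u := fun u => LinearMap.congr_fun hE u
  have hEF' : ∀ a u, E (F a u) = F a (E u) := fun a u => LinearMap.congr_fun (hEF a) u
  induction S using Finset.induction_on with
  | empty =>
    obtain ⟨v, hv⟩ : ∃ v, E v ≠ 0 := by
      by_contra hcon
      push Not at hcon
      exact hE0 (LinearMap.ext hcon)
    exact ⟨E v, hv, hEE v, 0, fun a ha => absurd ha (Finset.notMem_empty a)⟩
  | insert b S hb ih =>
    obtain ⟨v, hv, hEv, l, h⟩ := ih
    have hne : ∀ a ∈ S, a ≠ b := fun a ha h => hb (h ▸ ha)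
    have hab : ∀ a ∈ S, ∀ u, F a (F b u) = F b (F a u) := fun a ha u =>
      LinearMap.congr_fun (hc a b (hne a ha)) u
    by_cases h0 : F b v = 0
    · refine ⟨v, hv, hEv, Function.update l b 0, fun a ha => ?_⟩
      rcases Finset.mem_insert.1 ha with rfl | ha'
      · rw [Function.update_self, zero_smul, h0]
      · rw [Function.update_of_ne (hne a ha')]
        exact h a ha'
    · obtain ⟨m, hmm⟩ := IsAlgClosed.exists_eq_mul_self (ν b)
      have hbb : F b (F b (F b v)) = (m * m) • F b v := by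
        rw [← hmm]
        exact LinearMap.congr_fun (hm b) v
      have hEw : E (F b v) = F b v := by rw [hEF', hEv]
      have hFw : ∀ a ∈ S, F a (F b v) = l a • F b v := fun a ha => by
        rw [hab a ha, h a ha, map_smul]
      by_cases h1 : F b (F b v) + m • F b v = 0
      · refine ⟨F b v, h0, hEw, Function.update l b (-m), fun a ha => ?_⟩
        rcases Finset.mem_insert.1 ha with rfl | ha'
        · rw [Function.update_self, neg_smul]
          exact eq_neg_of_add_eq_zero_left h1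
        · rw [Function.update_of_ne (hne a ha')]
          exact hFw a ha'
      · refine ⟨_, h1, ?_, Function.update l b m, fun a ha => ?_⟩
        · rw [map_add, map_smul, hEF', hEw]
        · rcases Finset.mem_insert.1 ha with rfl | ha'
          · rw [Function.update_self, map_add, map_smul, hbb]
            module
          · rw [Function.update_of_ne (hne a ha'), map_add, map_smul, hab a ha', hFw a ha',
              map_smul]
            module

/-- Two eigenvalues whose difference is `2 l`, `l ^ 2 = ν`. -/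
theorem QS.eig {Z : Module.End ℂ U} (hZ : Z ∈ M) (a : Fin k) {ν : ℂ}
    (hν : Q.p a Z * Q.p a Z = ν • Q.e a) :
    ∃ (S l : ℂ) (v v' : U), v ≠ 0 ∧ v' ≠ 0 ∧ l * l = ν ∧ Z v = S • v ∧ Z v' = (S - 2 * l) • v' := by
  classical
  choose μ hμ using fun b => Q.S_sq (Q.p_mem b Z)
  obtain ⟨v, hv, hEv, l, hl⟩ := simulG (F := fun b => Q.p b Z) (ν := μ) (E := Q.e a) (Q.ne a)
    (Q.q a).ee (fun b => Q.e_comm a (Q.p_mem b Z))
    (fun b c hbc => Q.comm hbc (Q.p_mem b Z) (Q.p_mem c Z))
    (fun b => by rw [hμ, smul_mul_assoc, (Q.e_S (Q.p_mem b Z)).1]) Finset.univ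
  have hl' : ∀ b, Q.p b Z v = l b • v := fun b => hl b (Finset.mem_univ b)
  have hla : l a * l a = ν := by
    have h1 := LinearMap.congr_fun hν v
    rw [Module.End.mul_apply, LinearMap.smul_apply, hEv, hl', map_smul, hl', smul_smul] at h1
    have h2 : (l a * l a - ν) • v = 0 := by rw [sub_smul, h1, sub_self]
    exact sub_eq_zero.1 ((smul_eq_zero.1 h2).resolve_right hv)
  have hZv : Z v = (∑ b, l b) • v := by
    conv_lhs => rw [Q.p_sum hZ]
    rw [LinearMap.sum_apply, Finset.sum_smul]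
    exact Finset.sum_congr rfl fun b _ => hl' b
  by_cases h0 : ν = 0
  · have hl0 : l a = 0 := by
      rw [h0] at hla
      exact mul_self_eq_zero.1 hla
    refine ⟨_, l a, v, v, hv, hv, hla, hZv, ?_⟩
    rw [hl0, mul_zero, sub_zero]
    exact hZv
  · obtain ⟨g, hgS, hga, c, hc, hgg⟩ := Q.exists_flip (Q.p_mem a Z) hν h0
    have hgv : g v ≠ 0 := by
      intro h1
      have e1 := LinearMap.congr_fun hgg v
      rw [Module.End.mul_apply, h1, map_zero, LinearMap.smul_apply, hEv] at e1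
      rcases smul_eq_zero.1 e1.symm with h2 | h2
      · exact hc h2
      · exact hv h2
    refine ⟨_, l a, v, g v, hv, hgv, hla, hZv, ?_⟩
    have e0 : ∀ b, Q.p b Z (g v) = (if b = a then -l a else l b) • g v := by
      intro b
      by_cases hba : b = a
      · subst hba
        rw [if_pos rfl]
        have e1 := LinearMap.congr_fun hga v
        rw [Module.End.mul_apply, LinearMap.neg_apply, Module.End.mul_apply, hl', map_smul] at e1
        rw [neg_smul, e1, neg_neg]
      · rw [if_neg hba]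
        have e1 : Q.p b Z * g = g * Q.p b Z := Q.comm hba (Q.p_mem b Z) hgS
        have e2 := LinearMap.congr_fun e1 v
        rw [Module.End.mul_apply, Module.End.mul_apply, hl', map_smul] at e2
        exact e2
    conv_lhs => rw [Q.p_sum hZ]
    rw [LinearMap.sum_apply, Finset.sum_congr rfl fun b _ => e0 b, ← Finset.sum_smul]
    congr 1
    have e3 : ∀ b, (if b = a then -l a else l b) = l b - if b = a then 2 * l a else 0 := by
      intro b
      by_cases h1 : b = a
      · rw [if_pos h1, if_pos h1, h1]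
        ring
      · rw [if_neg h1, if_neg h1, sub_zero]
    rw [Finset.sum_congr rfl fun b _ => e3 b, Finset.sum_sub_distrib, Finset.sum_ite_eq',
      if_pos (Finset.mem_univ a)]

/-- Sums of commuting elements of square zero are nilpotent. -/
theorem nil_sum {ι : Type} [DecidableEq ι] {F : ι → Module.End ℂ U}
    (hc : ∀ a b, a ≠ b → F a * F b = F b * F a) (hm : ∀ a, F a * F a = 0) (S : Finset ι) :
    IsNilpotent (∑ a ∈ S, F a) := by
  induction S using Finset.induction_on with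
  | empty =>
    rw [Finset.sum_empty]
    exact IsNilpotent.zero
  | insert b S hb ih =>
    rw [Finset.sum_insert hb]
    refine Commute.isNilpotent_add ?_ ⟨2, by rw [pow_two, hm]⟩ ih
    refine Commute.sum_right _ _ _ fun a ha => ?_
    exact hc b a fun h => hb (h ▸ ha)

end Eig

section Real

variable {U : Type} [AddCommGroup U] [Module ℂ U] {M : Submodule ℂ (Module.End ℂ U)} (R : RS M)

namespace RS

theorem sym_real {X : Module.End ℂ U} (hX : ∀ u v, R.B (X u) v = R.B u (X v)) (hr : R.Re X)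
    {v : U} (hv : v ≠ 0) {z : ℂ} (h : X v = z • v) : z.im = 0 := by
  obtain ⟨r, hr0, hr1⟩ := R.pos v hv
  have h1 := hX v (R.c v)
  rw [← hr, h, R.csmul, map_smul, LinearMap.smul_apply, map_smul, hr1, smul_eq_mul,
    smul_eq_mul] at h1
  have h2 : z = starRingEnd ℂ z := mul_right_cancel₀ (by exact_mod_cast hr0.ne') h1
  exact Complex.conj_eq_iff_im.1 h2.symm

theorem skew_re {X : Module.End ℂ U} (hX : ∀ u v, R.B (X u) v = -R.B u (X v)) (hr : R.Re X)
    {v : U} (hv : v ≠ 0) {z : ℂ} (h : X v = z • v) : z.re = 0 := by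
  obtain ⟨r, hr0, hr1⟩ := R.pos v hv
  have h1 := hX v (R.c v)
  rw [← hr, h, R.csmul, map_smul, LinearMap.smul_apply, map_smul, hr1, smul_eq_mul,
    smul_eq_mul, ← neg_mul] at h1
  have h2 : z = -starRingEnd ℂ z := mul_right_cancel₀ (by exact_mod_cast hr0.ne') h1
  have h3 := congrArg Complex.re h2
  rw [Complex.neg_re, Complex.conj_re] at h3
  linarith

theorem sym_pow {X : Module.End ℂ U} (hX : ∀ u v, R.B (X u) v = R.B u (X v)) (n : ℕ) :
    ∀ u v, R.B ((X ^ n) u) v = R.B u ((X ^ n) v) := by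
  induction n with
  | zero => intro u v; rfl
  | succ n ih =>
    intro u v
    have h1 : (X ^ (n + 1)) u = (X ^ n) (X u) := by rw [pow_succ]; rfl
    have h2 : (X ^ (n + 1)) v = X ((X ^ n) v) := by rw [pow_succ']; rfl
    rw [h1, h2, ih, hX]

theorem re_pow {X : Module.End ℂ U} (hr : R.Re X) (n : ℕ) : R.Re (X ^ n) := by
  induction n with
  | zero => intro u; rfl
  | succ n ih =>
    rw [pow_succ]
    exact RS.Re.mul R ih hr

theorem sym_nil {X : Module.End ℂ U} (hX : ∀ u v, R.B (X u) v = R.B u (X v)) (hr : R.Re X)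
    (h : IsNilpotent X) : X = 0 := by
  obtain ⟨n, hn⟩ := h
  have key : ∀ m, X ^ (2 ^ m) = 0 → X = 0 := by
    intro m
    induction m with
    | zero =>
      intro h
      rwa [pow_zero, pow_one] at h
    | succ m ih =>
      intro h
      refine ih (R.sym_sq (R.sym_pow hX _) (R.re_pow hr _) ?_)
      rw [← pow_add, ← two_mul, ← pow_succ']
      exact h
  refine key n ?_
  have h1 : n ≤ 2 ^ n := Nat.lt_two_pow_self.le
  exact pow_eq_zero_of_le h1 hn

end RS

end Real

section Main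

variable {U U' : Type} [AddCommGroup U] [Module ℂ U] [AddCommGroup U'] [Module ℂ U']
  [FiniteDimensional ℂ U] [FiniteDimensional ℂ U']
  {M : Submodule ℂ (Module.End ℂ U)} {M' : Submodule ℂ (Module.End ℂ U')}
  {𝔮 : Submodule ℂ (Module.End ℂ U × Module.End ℂ U')} (h : LkQ M M' 𝔮) {k k' : ℕ}
  (Q : QS k M) (Q' : QS k' M') (R : RS M) (R' : RS M')

include h in
/-- **Noncompact colours correspond to noncompact colours.** -/
theorem nc_transfer
    (hdec : ∀ p ∈ 𝔮, ∃ p₁ ∈ 𝔮, ∃ p₂ ∈ 𝔮, p = p₁ + Complex.I • p₂ ∧ (R.Re p₁.1 ∧ R'.Re p₁.2) ∧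
      R.Re p₂.1 ∧ R'.Re p₂.2) {π : Fin k → Fin k'} (hinj : Function.Injective π)
    (hπ : ∀ s, Cor 𝔮 Q Q' s (π s)) {a : Fin k} (ha : Q.p a R.J ≠ 0) :
    Q'.p (π a) R'.J ≠ 0 := by
  classical
  intro hb
  obtain ⟨X, hX, hw⟩ := Q.exists_br (Q.p_mem a R.J) ha
  rw [← Q.part hX R.JM] at hw
  obtain ⟨X1, hX1d⟩ : ∃ X1, X1 = X * R.J - R.J * X := ⟨_, rfl⟩
  rw [← hX1d] at hw
  have hX1S : X1 ∈ Q.S a := by
    rw [hX1d, Q.part hX R.JM]
    exact Q.S_br hX (Q.p_mem a R.J)
  have hX1J : X1 * R.J + R.J * X1 = 0 := by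
    have e1 : X1 * R.J + R.J * X1 = X * (R.J * R.J) - R.J * R.J * X := by
      rw [hX1d]
      noncomm_ring
    rw [e1, R.JJ]
    noncomm_ring
  obtain ⟨Y1, hY1⟩ := h.mem_fst (Q.S_le a hX1S)
  have hY1S := (hπ a).fwd _ _ hY1 hX1S
  have hY1J : Y1 * R'.J - R'.J * Y1 = 0 := by
    rw [Q'.part hY1S R'.JM, hb, mul_zero, zero_mul, sub_zero]
  -- the real parts
  obtain ⟨⟨A1, B1⟩, hp1, ⟨A2, B2⟩, hp2, hpp, ⟨rA1, rB1⟩, rA2, rB2⟩ := hdec _ hY1
  simp only at rA1 rB1 rA2 rB2
  have eX : X1 = A1 + Complex.I • A2 := congrArg Prod.fst hpp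
  have eY : Y1 = B1 + Complex.I • B2 := congrArg Prod.snd hpp
  have zA := R.zero_of (X := A1 * R.J + R.J * A1) (Y := A2 * R.J + R.J * A2)
    (RS.Re.add R (RS.Re.mul R rA1 R.Jc) (RS.Re.mul R R.Jc rA1))
    (RS.Re.add R (RS.Re.mul R rA2 R.Jc) (RS.Re.mul R R.Jc rA2)) (by
    rw [← hX1J, eX]
    simp only [mul_add, add_mul, mul_smul_comm, smul_mul_assoc]
    module)
  have zB := R'.zero_of (X := B1 * R'.J - R'.J * B1) (Y := B2 * R'.J - R'.J * B2)
    (RS.Re.sub R' (RS.Re.mul R' rB1 R'.Jc) (RS.Re.mul R' R'.Jc rB1))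
    (RS.Re.sub R' (RS.Re.mul R' rB2 R'.Jc) (RS.Re.mul R' R'.Jc rB2)) (by
    rw [← hY1J, eY]
    simp only [mul_add, add_mul, mul_smul_comm, smul_mul_assoc]
    module)
  obtain ⟨Z, T, hZT, rZ, rT, hZ0, hZJ, hTJ⟩ : ∃ (Z : Module.End ℂ U) (T : Module.End ℂ U'),
      (Z, T) ∈ 𝔮 ∧ R.Re Z ∧ R'.Re T ∧ Z ≠ 0 ∧ Z * R.J = -(R.J * Z) ∧ T * R'.J = R'.J * T := by
    by_cases h0 : A1 = 0
    · refine ⟨A2, B2, hp2, rA2, rB2, fun h1 => hw ?_, eq_neg_of_add_eq_zero_left zA.2,
        sub_eq_zero.1 zB.2⟩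
      rw [eX, h0, h1, smul_zero, add_zero]
    · exact ⟨A1, B1, hp1, rA1, rB1, h0, eq_neg_of_add_eq_zero_left zA.1, sub_eq_zero.1 zB.1⟩
  have hZM := h.fst_mem hZT
  have hTM := h.snd_mem hZT
  have sZ := R.sy Z hZM hZJ
  have sT := R'.sk T hTM hTJ
  -- the components
  choose F hF using fun a => h.mem_fst (Q.S_le a (Q.p_mem a Z))
  have hFS : ∀ a, F a ∈ Q'.S (π a) := fun a => (hπ a).fwd _ _ (hF a) (Q.p_mem a Z)
  have hTF : T = ∑ a, F a := by
    refine h.uniq hZT ?_
    have e1 := 𝔮.sum_mem (t := Finset.univ) fun a _ => hF a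
    have e2 : (∑ a, ((Q.p a Z, F a) : Module.End ℂ U × Module.End ℂ U')) = (Z, ∑ a, F a) := by
      refine Prod.ext ?_ ?_
      · rw [Prod.fst_sum]
        exact (Q.p_sum hZM).symm
      · rw [Prod.snd_sum]
    rwa [e2] at e1
  have hpT : ∀ a, Q'.p (π a) T = F a := by
    intro a
    rw [hTF, map_sum, Finset.sum_eq_single a]
    · exact Q'.p_same (hFS a)
    · intro b _ hba
      exact Q'.p_other (fun h1 => hba (hinj h1).symm) (hFS b)
    · intro h1
      exact absurd (Finset.mem_univ _) h1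
  choose ν hν using fun a => Q.S_sq (Q.p_mem a Z)
  have hFν : ∀ a, Q'.p (π a) T * Q'.p (π a) T = ν a • Q'.e (π a) := by
    intro a
    rw [hpT]
    exact h.nu Q Q' (hπ a).bwd (hF a) (Q.p_mem a Z) (hFS a) (hν a)
  have hν0 : ∀ a, ν a = 0 := by
    intro a
    obtain ⟨S, l, v, v', hv, hv', hl, h1, h2⟩ := Q.eig hZM a (hν a)
    obtain ⟨S', l', w, w', hw, hw', hl', h1', h2'⟩ := Q'.eig hTM (π a) (hFν a)
    have i1 := R.sym_real sZ rZ hv h1
    have i2 := R.sym_real sZ rZ hv' h2
    have i3 := R'.skew_re sT rT hw h1'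
    have i4 := R'.skew_re sT rT hw' h2'
    have i5 : l.im = 0 := by
      simp only [Complex.sub_im, Complex.mul_im, Complex.re_ofNat, Complex.im_ofNat, i1] at i2
      linarith
    have i6 : l'.re = 0 := by
      simp only [Complex.sub_re, Complex.mul_re, Complex.re_ofNat, Complex.im_ofNat, i3] at i4
      linarith
    have e1 : ν a = ((l.re * l.re : ℝ) : ℂ) := by
      rw [← hl]
      apply Complex.ext
      · rw [Complex.mul_re, Complex.ofReal_re, i5]
        ring
      · rw [Complex.mul_im, Complex.ofReal_im, i5]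
        ring
    have e2 : ν a = ((-(l'.im * l'.im) : ℝ) : ℂ) := by
      rw [← hl']
      apply Complex.ext
      · rw [Complex.mul_re, Complex.ofReal_re, i6]
        ring
      · rw [Complex.mul_im, Complex.ofReal_im, i6]
        ring
    have e3 : l.re * l.re = -(l'.im * l'.im) := by exact_mod_cast e1.symm.trans e2
    have e4 : l.re * l.re = 0 := by nlinarith [mul_self_nonneg l.re, mul_self_nonneg l'.im]
    rw [e1, e4, Complex.ofReal_zero]
  apply hZ0
  refine R.sym_nil sZ rZ ?_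
  rw [Q.p_sum hZM]
  exact nil_sum (fun a b hab => Q.comm hab (Q.p_mem a Z) (Q.p_mem b Z))
    (fun a => by rw [hν, hν0, zero_smul]) Finset.univ

end Main

end Pool.Agent.T9h38.TM
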