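import Pool.Agent.T9h38.TM.QLink

set_option autoImplicit false
set_option maxHeartbeats 1000000
set_option linter.unusedSectionVars false
set_option linter.unusedVariables false

/-!
# Real structures: sums of planes and tensor products of planes are not linked
-/

open Module Function TensorProduct

noncomputable section

namespace Pool.Agent.T9h38.TM

open Pool.Agent.Y102 Pool.Agent.W516.DR Pool.Agent.H204R3.GP Pool.Agent.W516.KC
  Pool.Agent.H204R3.SP
open Pool.Agent.N192.GP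
open Pool.Agent.T9h38.RM

section Struct

variable {U : Type} [AddCommGroup U] [Module ℂ U]

/-- A real structure with a complex structure and a polarization. -/
structure RS (M : Submodule ℂ (Module.End ℂ U)) where
  c : U → U
  cadd : ∀ u v, c (u + v) = c u + c v
  csmul : ∀ (z : ℂ) u, c (z • u) = (starRingEnd ℂ z) • c u
  cc : ∀ u, c (c u) = u
  B : U →ₗ[ℂ] U →ₗ[ℂ] ℂ
  pos : ∀ u, u ≠ 0 → ∃ r : ℝ, 0 < r ∧ B u (c u) = r
  J : Module.End ℂ U
  JJ : J * J = -1
  Jc : ∀ u, c (J u) = J (c u)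
  JM : J ∈ M
  sk : ∀ X ∈ M, X * J = J * X → ∀ u v, B (X u) v = -B u (X v)
  sy : ∀ X ∈ M, X * J = -(J * X) → ∀ u v, B (X u) v = B u (X v)

variable {M : Submodule ℂ (Module.End ℂ U)} (R : RS M)

namespace RS

/-- Real operators. -/
def Re (X : Module.End ℂ U) : Prop := ∀ u, R.c (X u) = X (R.c u)

theorem czero : R.c 0 = 0 := by
  have h := R.cadd 0 0
  rw [add_zero] at h
  exact left_eq_add.1 h

theorem cneg (u : U) : R.c (-u) = -R.c u := by
  have h := R.csmul (-1) u
  rw [neg_one_smul, map_neg, map_one, neg_one_smul] at h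
  exact h

theorem Re.add {X Y : Module.End ℂ U} (hX : R.Re X) (hY : R.Re Y) : R.Re (X + Y) := fun u => by
  rw [LinearMap.add_apply, LinearMap.add_apply, R.cadd, hX, hY]

theorem Re.neg {X : Module.End ℂ U} (hX : R.Re X) : R.Re (-X) := fun u => by
  rw [LinearMap.neg_apply, LinearMap.neg_apply, R.cneg, hX]

theorem Re.sub {X Y : Module.End ℂ U} (hX : R.Re X) (hY : R.Re Y) : R.Re (X - Y) := by
  rw [sub_eq_add_neg]
  exact Re.add R hX (Re.neg R hY)

theorem Re.mul {X Y : Module.End ℂ U} (hX : R.Re X) (hY : R.Re Y) : R.Re (X * Y) := fun u => by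
  rw [Module.End.mul_apply, Module.End.mul_apply, hX, hY]

theorem Re.J : R.Re R.J := R.Jc

theorem zero_of {X Y : Module.End ℂ U} (hX : R.Re X) (hY : R.Re Y) (h : X + Complex.I • Y = 0) :
    X = 0 ∧ Y = 0 := by
  have h1 : ∀ u, X u + Complex.I • Y u = 0 := fun u => by
    have h2 := LinearMap.congr_fun h u
    rwa [LinearMap.add_apply, LinearMap.smul_apply, LinearMap.zero_apply] at h2
  have h3 : ∀ u, X u - Complex.I • Y u = 0 := by
    intro u
    have h4 := congrArg R.c (h1 (R.c u))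
    rw [R.cadd, R.csmul, hX, hY, R.cc, Complex.conj_I, R.czero, neg_smul, ← sub_eq_add_neg] at h4
    exact h4
  have h5 : ∀ u, X u = 0 := by
    intro u
    have h6 : (2 : ℂ) • X u = (X u + Complex.I • Y u) + (X u - Complex.I • Y u) := by module
    rw [h1, h3, add_zero] at h6
    exact (smul_eq_zero.1 h6).resolve_left two_ne_zero
  refine ⟨LinearMap.ext h5, LinearMap.ext fun u => ?_⟩
  have h6 := h1 u
  rw [h5, zero_add] at h6
  exact (smul_eq_zero.1 h6).resolve_left Complex.I_ne_zero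

/-- The eigenvalues of skew operators are imaginary. -/
theorem skew_eig {X : Module.End ℂ U} (hX : ∀ u v, R.B (X u) v = -R.B u (X v)) (hr : R.Re X)
    {v : U} (hv : v ≠ 0) {t : ℝ} (h : X v = (t : ℂ) • v) : t = 0 := by
  obtain ⟨r, hr0, hr1⟩ := R.pos v hv
  have h1 := hX v (R.c v)
  rw [← hr, h, R.csmul, Complex.conj_ofReal, map_smul, LinearMap.smul_apply, map_smul, hr1,
    smul_eq_mul] at h1
  have h2 : (2 * t * r : ℂ) = 0 := by linear_combination h1
  have h3 : 2 * t * r = 0 := by exact_mod_cast h2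
  rcases mul_eq_zero.1 h3 with h4 | h4
  · linarith
  · exact absurd h4 hr0.ne'

/-- The squares of the eigenvalues of symmetric operators are real. -/
theorem sym_eig {X : Module.End ℂ U} (hX : ∀ u v, R.B (X u) v = R.B u (X v)) (hr : R.Re X)
    {v : U} (hv : v ≠ 0) {z : ℂ} (h : X (X v) = z • v) : ∃ n : ℝ, 0 ≤ n ∧ z = n := by
  obtain ⟨r, hr0, hr1⟩ := R.pos v hv
  have h1 := hX (X v) (R.c v)
  rw [← hr, h, map_smul, LinearMap.smul_apply, hr1, smul_eq_mul] at h1
  by_cases h0 : X v = 0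
  · rw [h0, map_zero, LinearMap.zero_apply] at h1
    refine ⟨0, le_rfl, ?_⟩
    rcases mul_eq_zero.1 h1 with h2 | h2
    · rw [h2, Complex.ofReal_zero]
    · exact absurd (by exact_mod_cast h2) hr0.ne'
  · obtain ⟨r', hr0', hr1'⟩ := R.pos _ h0
    rw [hr1'] at h1
    refine ⟨r' / r, (div_pos hr0' hr0).le, ?_⟩
    rw [Complex.ofReal_div, eq_div_iff (by exact_mod_cast hr0.ne')]
    exact h1

theorem sym_sq {X : Module.End ℂ U} (hX : ∀ u v, R.B (X u) v = R.B u (X v)) (hr : R.Re X)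
    (h : X * X = 0) : X = 0 := by
  refine LinearMap.ext fun v => ?_
  by_contra h0
  rw [LinearMap.zero_apply] at h0
  obtain ⟨r, hr0, hr1⟩ := R.pos _ h0
  have h1 := hX (X v) (R.c v)
  have h2 : X (X v) = 0 := LinearMap.congr_fun h v
  rw [← hr, h2, map_zero, LinearMap.zero_apply, hr1] at h1
  exact hr0.ne' (by exact_mod_cast h1.symm)

end RS

end Struct

section Simul

variable {U : Type} [AddCommGroup U] [Module ℂ U] [Nontrivial U]

/-- A common eigenvector of commuting operators with real eigenvalues. -/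
theorem simul {ι : Type} [DecidableEq ι] {F : ι → Module.End ℂ U} {m : ι → ℝ}
    (hc : ∀ a b, a ≠ b → F a * F b = F b * F a) (hm : ∀ a, F a * F a = ((m a : ℂ) * m a) • 1)
    (S : Finset ι) : ∃ v : U, v ≠ 0 ∧ ∃ l : ι → ℝ, (∀ a, l a = m a ∨ l a = -m a) ∧
      ∀ a ∈ S, F a v = (l a : ℂ) • v := by
  induction S using Finset.induction_on with
  | empty =>
    obtain ⟨v, hv⟩ := exists_ne (0 : U)
    exact ⟨v, hv, m, fun a => Or.inl rfl, fun a ha => absurd ha (Finset.notMem_empty a)⟩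
  | insert b S hb ih =>
    obtain ⟨v, hv, l, hl, h⟩ := ih
    have hbb : F b (F b v) = ((m b : ℂ) * m b) • v := by
      have h1 := LinearMap.congr_fun (hm b) v
      rwa [Module.End.mul_apply, LinearMap.smul_apply, Module.End.one_apply] at h1
    have hne : ∀ a ∈ S, a ≠ b := fun a ha h => hb (h ▸ ha)
    by_cases h0 : F b v + (m b : ℂ) • v = 0
    · refine ⟨v, hv, Function.update l b (-m b), fun a => ?_, fun a ha => ?_⟩
      · by_cases hab : a = b
        · subst hab
          rw [Function.update_self]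
          exact Or.inr rfl
        · rw [Function.update_of_ne hab]
          exact hl a
      · rcases Finset.mem_insert.1 ha with rfl | ha'
        · rw [Function.update_self, Complex.ofReal_neg, neg_smul]
          exact eq_neg_of_add_eq_zero_left h0
        · rw [Function.update_of_ne (hne a ha')]
          exact h a ha'
    · refine ⟨_, h0, Function.update l b (m b), fun a => ?_, fun a ha => ?_⟩
      · by_cases hab : a = b
        · subst hab
          rw [Function.update_self]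
          exact Or.inl rfl
        · rw [Function.update_of_ne hab]
          exact hl a
      · rcases Finset.mem_insert.1 ha with rfl | ha'
        · rw [Function.update_self, map_add, map_smul, hbb]
          module
        · rw [Function.update_of_ne (hne a ha'), map_add, map_smul, h a ha']
          have h1 : F a (F b v) = F b (F a v) := LinearMap.congr_fun (hc a b (hne a ha')) v
          rw [h1, h a ha', map_smul]
          module

end Simul

section QS

variable {U : Type} [AddCommGroup U] [Module ℂ U] [FiniteDimensional ℂ U] {k : ℕ}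
  {M : Submodule ℂ (Module.End ℂ U)} (Q : QS k M)

/-- Products of elements of different colours. -/
theorem QS.mul_ne {s : Fin k} (he : Q.e s = 1) {w r : Module.End ℂ U} (hw : w ∈ Q.S s)
    (h : w * r = 0) (hx : r * Q.x s = Q.x s * r) (hy : r * Q.y s = Q.y s * r) (hw0 : w ≠ 0) :
    r = 0 := by
  obtain ⟨a, b, c, rfl⟩ := Q.exists_S hw
  obtain ⟨h1, h2, h3, h4, h5, -, -⟩ := q_z (Q.q s)
  have h6 := (Q.q s).xx
  have h7 := (Q.q s).yy
  have h8 := (Q.q s).yx
  rw [he] at h5 h6 h7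
  obtain ⟨w, hwd⟩ : ∃ w, w = a • Q.x s + b • Q.y s + c • (Q.x s * Q.y s) := ⟨_, rfl⟩
  rw [← hwd] at h hw0
  have key : ∀ (u : Module.End ℂ U) (t : ℂ), r * u = u * r → u * w + w * u = (-2 * t) • 1 →
      t • r = 0 := by
    intro u t hu hut
    have e1 : (u * w + w * u) * r = 0 := by
      rw [add_mul, mul_assoc, h, mul_zero, zero_add, mul_assoc, ← hu, ← mul_assoc, h, zero_mul]
    rw [hut, smul_mul_assoc, one_mul] at e1
    have e2 : t • r = (-1 / 2 : ℂ) • ((-2 * t) • r) := by module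
    rw [e2, e1, smul_zero]
  have k1 := key (Q.x s) a hx (by
    rw [hwd]
    simp only [mul_add, add_mul, mul_smul_comm, smul_mul_assoc, h1, h2, h6, h8]
    module)
  have k2 := key (Q.y s) b hy (by
    rw [hwd]
    simp only [mul_add, add_mul, mul_smul_comm, smul_mul_assoc, h3, h4, h7, h8]
    module)
  have k3 := key (Q.x s * Q.y s) c (by rw [← mul_assoc, hx, mul_assoc, hy, mul_assoc]) (by
    rw [hwd]
    simp only [mul_add, add_mul, mul_smul_comm, smul_mul_assoc, h1, h2, h3, h4, h5]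
    module)
  by_contra hr
  apply hw0
  rw [hwd, (smul_eq_zero.1 k1).resolve_right hr, (smul_eq_zero.1 k2).resolve_right hr,
    (smul_eq_zero.1 k3).resolve_right hr, zero_smul, zero_smul, zero_smul, add_zero, add_zero]

/-- An element which anticommutes with a given one. -/
theorem QS.exists_flip {s : Fin k} {z : Module.End ℂ U} (hz : z ∈ Q.S s) {ν : ℂ}
    (h : z * z = ν • Q.e s) (hν : ν ≠ 0) :
    ∃ g ∈ Q.S s, g * z = -(z * g) ∧ ∃ c : ℂ, c ≠ 0 ∧ g * g = c • Q.e s := by
  obtain ⟨a, b, c, rfl⟩ := Q.exists_S hz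
  obtain ⟨h1, h2, h3, h4, h5, -, -⟩ := q_z (Q.q s)
  have h6 := (Q.q s).xx
  have h7 := (Q.q s).yy
  have h8 := (Q.q s).yx
  have hsq : ∀ a b c : ℂ, (a • Q.x s + b • Q.y s + c • (Q.x s * Q.y s)) *
      (a • Q.x s + b • Q.y s + c • (Q.x s * Q.y s)) = (-(a * a + b * b + c * c)) • Q.e s := by
    intro a b c
    simp only [mul_add, add_mul, mul_smul_comm, smul_mul_assoc, h1, h2, h3, h4, h5, h6, h7, h8]
    module
  have hν' : ν = -(a * a + b * b + c * c) := by
    rw [hsq] at h
    have e1 : (-(a * a + b * b + c * c) - ν) • Q.e s = 0 := by rw [sub_smul, h, sub_self]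
    exact (sub_eq_zero.1 ((smul_eq_zero.1 e1).resolve_right (Q.ne s))).symm
  have hac : ∀ a' b' c' : ℂ, a * a' + b * b' + c * c' = 0 →
      (a' • Q.x s + b' • Q.y s + c' • (Q.x s * Q.y s)) *
        (a • Q.x s + b • Q.y s + c • (Q.x s * Q.y s)) =
      -((a • Q.x s + b • Q.y s + c • (Q.x s * Q.y s)) *
        (a' • Q.x s + b' • Q.y s + c' • (Q.x s * Q.y s))) := by
    intro a' b' c' h0
    have e1 : (a' • Q.x s + b' • Q.y s + c' • (Q.x s * Q.y s)) *
        (a • Q.x s + b • Q.y s + c • (Q.x s * Q.y s)) +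
        (a • Q.x s + b • Q.y s + c • (Q.x s * Q.y s)) *
        (a' • Q.x s + b' • Q.y s + c' • (Q.x s * Q.y s)) =
        (-2 * (a * a' + b * b' + c * c')) • Q.e s := by
      simp only [mul_add, add_mul, mul_smul_comm, smul_mul_assoc, h1, h2, h3, h4, h5, h6, h7, h8]
      module
    rw [h0, mul_zero, zero_smul] at e1
    exact eq_neg_of_add_eq_zero_left e1
  have hmem : ∀ a b c : ℂ, a • Q.x s + b • Q.y s + c • (Q.x s * Q.y s) ∈ Q.S s := fun a b c =>
    Submodule.add_mem _ (Submodule.add_mem _ (Submodule.smul_mem _ _ (Q.mx s))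
      (Submodule.smul_mem _ _ (Q.my s))) (Submodule.smul_mem _ _ (Q.mz s))
  by_cases d1 : a * a + b * b = 0
  · by_cases d2 : a * a + c * c = 0
    · have d3 : b * b + c * c ≠ 0 := by
        intro d3
        apply hν
        rw [hν']
        linear_combination (-1 / 2 : ℂ) * (d1 + d2 + d3)
      refine ⟨_, hmem 0 c (-b), hac _ _ _ (by ring), -(b * b + c * c), neg_ne_zero.2 d3, ?_⟩
      rw [hsq]
      congr 1
      ring
    · refine ⟨_, hmem c 0 (-a), hac _ _ _ (by ring), -(a * a + c * c), neg_ne_zero.2 d2, ?_⟩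
      rw [hsq]
      congr 1
      ring
  · refine ⟨_, hmem b (-a) 0, hac _ _ _ (by ring), -(a * a + b * b), neg_ne_zero.2 d1, ?_⟩
    rw [hsq]
    congr 1
    ring

/-- The complex structure of a tensor product of planes belongs to one colour. -/
theorem QS.one_col [Nontrivial U] (he : ∀ s, Q.e s = 1) {J : Module.End ℂ U} (hJ : J ∈ M)
    (hJJ : J * J = -1) : ∃ s, J ∈ Q.S s := by
  obtain ⟨s, hs⟩ : ∃ s, Q.p s J ≠ 0 := by
    by_contra hcon
    push Not at hcon
    have h1 : J = 0 := by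
      rw [Q.p_sum hJ]
      exact Finset.sum_eq_zero fun s _ => hcon s
    rw [h1, mul_zero] at hJJ
    exact one_ne_zero (neg_eq_zero.1 hJJ.symm)
  refine ⟨s, ?_⟩
  obtain ⟨z, hz, hw⟩ : ∃ z ∈ Q.S s, z * Q.p s J - Q.p s J * z ≠ 0 := by
    by_contra hcon
    push Not at hcon
    exact hs (Q.cent (Q.p_mem s J) hcon)
  obtain ⟨ν, hν⟩ := Q.S_sq (Q.p_mem s J)
  rw [he] at hν
  have hzJ : z * J - J * z = z * Q.p s J - Q.p s J * z := Q.part hz hJ
  obtain ⟨w, hwd⟩ : ∃ w, w = z * Q.p s J - Q.p s J * z := ⟨_, rfl⟩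
  have hwS : w ∈ Q.S s := by
    rw [hwd]
    exact Q.S_br hz (Q.p_mem s J)
  rw [← hwd] at hw hzJ
  have a1 : w * J + J * w = 0 := by
    have e1 : w * J + J * w = z * (J * J) - J * J * z := by
      rw [← hzJ]
      noncomm_ring
    rw [e1, hJJ]
    noncomm_ring
  have a2 : w * Q.p s J + Q.p s J * w = 0 := by
    have e1 : w * Q.p s J + Q.p s J * w = z * (Q.p s J * Q.p s J) - Q.p s J * Q.p s J * z := by
      rw [hwd]
      noncomm_ring
    rw [e1, hν, mul_smul_comm, smul_mul_assoc, mul_one, one_mul, sub_self]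
  have hr : ∀ u ∈ Q.S s, (J - Q.p s J) * u = u * (J - Q.p s J) := by
    intro u hu
    have e1 := Q.part hu hJ
    have e2 : (J - Q.p s J) * u - u * (J - Q.p s J) =
        (u * Q.p s J - Q.p s J * u) - (u * J - J * u) := by noncomm_ring
    rw [e1, sub_self] at e2
    exact sub_eq_zero.1 e2
  have a3 : w * (J - Q.p s J) = 0 := by
    have e1 := hr w hwS
    have e2 : (2 : ℂ) • (w * (J - Q.p s J)) = w * (J - Q.p s J) + (J - Q.p s J) * w := by
      rw [e1]
      module
    have e3 : w * (J - Q.p s J) + (J - Q.p s J) * w =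
        (w * J + J * w) - (w * Q.p s J + Q.p s J * w) := by noncomm_ring
    rw [e3, a1, a2, sub_zero] at e2
    exact (smul_eq_zero.1 e2).resolve_left two_ne_zero
  have h1 := Q.mul_ne (he s) hwS a3 (hr _ (Q.mx s)) (hr _ (Q.my s)) hw
  rw [sub_eq_zero.1 h1]
  exact Q.p_mem s J

end QS

section Main

variable {U U' : Type} [AddCommGroup U] [Module ℂ U] [AddCommGroup U'] [Module ℂ U']
  [FiniteDimensional ℂ U] [FiniteDimensional ℂ U'] [Nontrivial U']
  {M : Submodule ℂ (Module.End ℂ U)} {M' : Submodule ℂ (Module.End ℂ U')}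
  {𝔮 : Submodule ℂ (Module.End ℂ U × Module.End ℂ U')} (h : LkQ M M' 𝔮) {k k' : ℕ}
  (Q : QS k M) (Q' : QS k' M') (R : RS M) (R' : RS M')

include h in
/-- **A sum of at least two planes which are not isomorphic is not linked with a tensor product
of planes.** -/
theorem real_no_link (horth : ∀ s t, s ≠ t → Q.e s * Q.e t = 0) (hone : ∀ t, Q'.e t = 1)
    (hdec : ∀ p ∈ 𝔮, ∃ p₁ ∈ 𝔮, ∃ p₂ ∈ 𝔮, p = p₁ + Complex.I • p₂ ∧ (R.Re p₁.1 ∧ R'.Re p₁.2) ∧
      R.Re p₂.1 ∧ R'.Re p₂.2) (hk : ∃ a b : Fin k, a ≠ b) : False := by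
  classical
  choose t ht1 ht2 using fun s => h.colour Q Q' s
  -- the correspondence is injective
  have htinj : ∀ a b, t a = t b → a = b := by
    intro a b hab
    by_contra hne
    obtain ⟨y, hy⟩ := h.mem_fst (Q.S_le a (Q.mx a))
    have hy1 := ht1 a _ _ hy (Q.mx a)
    rw [hab] at hy1
    obtain ⟨x, hx, hxy⟩ := ht2 b y hy1
    have h1 := 𝔮.sub_mem hy hxy
    have h2 : ((Q.x a, y) : Module.End ℂ U × Module.End ℂ U') - (x, y) = (Q.x a - x, 0) :=
      Prod.ext rfl (sub_self y)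
    rw [h2] at h1
    have h3 := sub_eq_zero.1 (h.inj' _ h1)
    have h4 := Q.p_same (Q.mx a)
    rw [h3, Q.p_other hne hx] at h4
    exact Q.x_ne a (h3.trans h4.symm)
  obtain ⟨b0, hb0⟩ := Q'.one_col hone R'.JM R'.JJ
  obtain ⟨a1, ha1⟩ : ∃ a, t a ≠ b0 := by
    obtain ⟨a, b, hab⟩ := hk
    by_contra hcon
    push Not at hcon
    exact hab (htinj a b ((hcon a).trans (hcon b).symm))
  have hSe : ∀ {a b}, a ≠ b → ∀ z ∈ Q.S a, z * Q.e b = 0 := by
    intro a b hab z hz
    rw [← (Q.e_S hz).2, mul_assoc, horth a b hab, mul_zero]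
  have hee : ∀ {a} {z : Module.End ℂ U}, z ∈ M → z * Q.e a = Q.p a z := by
    intro a z hz
    have e1 : z * Q.e a = ∑ b, Q.p b z * Q.e a := by
      conv_lhs => rw [Q.p_sum hz]
      rw [Finset.sum_mul]
    rw [e1, Finset.sum_eq_single a]
    · exact (Q.e_S (Q.p_mem a z)).2
    · intro b _ hb
      exact hSe hb _ (Q.p_mem b z)
    · intro hh
      exact absurd (Finset.mem_univ _) hh
  have hJ1 : Q.p a1 R.J ≠ 0 := by
    intro h0
    have h1 := hee (a := a1) R.JM
    rw [h0] at h1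
    have h2 : R.J * R.J * Q.e a1 = 0 := by rw [mul_assoc, h1, mul_zero]
    rw [R.JJ, neg_one_mul] at h2
    exact Q.ne a1 (neg_eq_zero.1 h2)
  obtain ⟨X, hX, hw⟩ : ∃ z ∈ Q.S a1, z * Q.p a1 R.J - Q.p a1 R.J * z ≠ 0 := by
    by_contra hcon
    push Not at hcon
    exact hJ1 (Q.cent (Q.p_mem a1 R.J) hcon)
  rw [← Q.part hX R.JM] at hw
  obtain ⟨X1, hX1d⟩ : ∃ X1, X1 = X * R.J - R.J * X := ⟨_, rfl⟩
  rw [← hX1d] at hw
  have hX1S : X1 ∈ Q.S a1 := by
    rw [hX1d, Q.part hX R.JM]
    exact Q.S_br hX (Q.p_mem a1 R.J)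
  have hX1J : X1 * R.J + R.J * X1 = 0 := by
    have e1 : X1 * R.J + R.J * X1 = X * (R.J * R.J) - R.J * R.J * X := by
      rw [hX1d]
      noncomm_ring
    rw [e1, R.JJ]
    noncomm_ring
  obtain ⟨Y1, hY1⟩ := h.mem_fst (Q.S_le a1 hX1S)
  have hY1S := ht1 a1 _ _ hY1 hX1S
  have hY1J : Y1 * R'.J - R'.J * Y1 = 0 := by rw [Q'.comm ha1 hY1S hb0, sub_self]
  -- the real parts
  obtain ⟨⟨A1, B1⟩, hp1, ⟨A2, B2⟩, hp2, hpp, ⟨rA1, rB1⟩, rA2, rB2⟩ := hdec _ hY1
  simp only at rA1 rB1 rA2 rB2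
  have eX : X1 = A1 + Complex.I • A2 := congrArg Prod.fst hpp
  have eY : Y1 = B1 + Complex.I • B2 := congrArg Prod.snd hpp
  have zA := R.zero_of (X := A1 * R.J + R.J * A1) (Y := A2 * R.J + R.J * A2)
    (RS.Re.add R (RS.Re.mul R rA1 R.Jc) (RS.Re.mul R R.Jc rA1))
    (RS.Re.add R (RS.Re.mul R rA2 R.Jc) (RS.Re.mul R R.Jc rA2)) (by
    rw [← hX1J, eX]
    simp only [mul_add, add_mul, mul_smul_comm, smul_mul_assoc]
    module)
  have zB := R'.zero_of (X := B1 * R'.J - R'.J * B1) (Y := B2 * R'.J - R'.J * B2)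
    (RS.Re.sub R' (RS.Re.mul R' rB1 R'.Jc) (RS.Re.mul R' R'.Jc rB1))
    (RS.Re.sub R' (RS.Re.mul R' rB2 R'.Jc) (RS.Re.mul R' R'.Jc rB2)) (by
    rw [← hY1J, eY]
    simp only [mul_add, add_mul, mul_smul_comm, smul_mul_assoc]
    module)
  obtain ⟨Z, T, hZT, rZ, rT, hZ0, hZJ, hTJ⟩ : ∃ (Z : Module.End ℂ U) (T : Module.End ℂ U'),
      (Z, T) ∈ 𝔮 ∧ R.Re Z ∧ R'.Re T ∧ Z ≠ 0 ∧ Z * R.J = -(R.J * Z) ∧ T * R'.J = R'.J * T := by
    by_cases h0 : A1 = 0
    · refine ⟨A2, B2, hp2, rA2, rB2, fun h1 => hw ?_, eq_neg_of_add_eq_zero_left zA.2,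
        sub_eq_zero.1 zB.2⟩
      rw [eX, h0, h1, smul_zero, add_zero]
    · exact ⟨A1, B1, hp1, rA1, rB1, h0, eq_neg_of_add_eq_zero_left zA.1, sub_eq_zero.1 zB.1⟩
  have hZM := h.fst_mem hZT
  have hTM := h.snd_mem hZT
  have sZ := R.sy Z hZM hZJ
  have sT := R'.sk T hTM hTJ
  -- the components
  choose F hF using fun a => h.mem_fst (Q.S_le a (Q.p_mem a Z))
  have hFS : ∀ a, F a ∈ Q'.S (t a) := fun a => ht1 a _ _ (hF a) (Q.p_mem a Z)
  have hTF : T = ∑ a, F a := by
    refine h.uniq hZT ?_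
    have e1 := 𝔮.sum_mem (t := Finset.univ) fun a _ => hF a
    have e2 : (∑ a, ((Q.p a Z, F a) : Module.End ℂ U × Module.End ℂ U')) = (Z, ∑ a, F a) := by
      refine Prod.ext ?_ ?_
      · rw [Prod.fst_sum]
        exact (Q.p_sum hZM).symm
      · rw [Prod.snd_sum]
    rwa [e2] at e1
  choose ν hν using fun a => Q.S_sq (Q.p_mem a Z)
  have hFν : ∀ a, F a * F a = ν a • 1 := by
    intro a
    rw [h.nu Q Q' (ht2 a) (hF a) (Q.p_mem a Z) (hFS a) (hν a), hone]
  -- the squares are not negative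
  have hn : ∀ a, ∃ n : ℝ, 0 ≤ n ∧ ν a = n := by
    intro a
    obtain ⟨v, hv⟩ : ∃ v, Q.e a v ≠ 0 := by
      by_contra hcon
      push Not at hcon
      exact Q.ne a (LinearMap.ext hcon)
    have e1 : Z * Z * Q.e a = ν a • Q.e a := by
      rw [mul_assoc, hee hZM, ← (Q.e_S (Q.p_mem a Z)).1, ← mul_assoc, hee hZM, hν]
    have e2 := LinearMap.congr_fun e1 v
    rw [Module.End.mul_apply, Module.End.mul_apply, LinearMap.smul_apply] at e2
    exact R.sym_eig sZ rZ hv e2
  choose n hn0 hn using hn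
  obtain ⟨a0, ha0⟩ : ∃ a, n a ≠ 0 := by
    by_contra hcon
    push Not at hcon
    apply hZ0
    refine R.sym_sq sZ rZ ?_
    have e1 : Z * Z = ∑ a, Z * Q.p a Z := by
      rw [← Finset.mul_sum, ← Q.p_sum hZM]
    rw [e1]
    refine Finset.sum_eq_zero fun a _ => ?_
    rw [← (Q.e_S (Q.p_mem a Z)).1, ← mul_assoc, hee hZM, hν, hn, hcon, Complex.ofReal_zero,
      zero_smul]
  -- the common eigenvector
  have hFc : ∀ a b, a ≠ b → F a * F b = F b * F a := fun a b hab =>
    Q'.comm (fun h1 => hab (htinj a b h1)) (hFS a) (hFS b)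
  obtain ⟨v, hv, l, hl, hev⟩ := simul (m := fun a => Real.sqrt (n a)) hFc (fun a => by
    rw [hFν, hn, ← Complex.ofReal_mul, Real.mul_self_sqrt (hn0 a)]) Finset.univ
  have hTv : T v = ((∑ a, l a : ℝ) : ℂ) • v := by
    rw [hTF, LinearMap.sum_apply, Complex.ofReal_sum, Finset.sum_smul]
    exact Finset.sum_congr rfl fun a ha => hev a ha
  have hsum := R'.skew_eig sT rT hv hTv
  obtain ⟨f, hfS, hfa, c, hc, hff⟩ := Q'.exists_flip (hFS a0) (by rw [hone]; exact hFν a0)
    (by rw [hn]; exact_mod_cast ha0)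
  have hfv : f v ≠ 0 := by
    intro h0
    have e1 := LinearMap.congr_fun hff v
    rw [Module.End.mul_apply, h0, map_zero, LinearMap.smul_apply, hone, Module.End.one_apply] at e1
    rcases smul_eq_zero.1 e1.symm with h2 | h2
    · exact hc h2
    · exact hv h2
  have hTf : T (f v) = ((∑ a, l a - 2 * l a0 : ℝ) : ℂ) • f v := by
    have e0 : ∀ a, F a (f v) = ((if a = a0 then -l a0 else l a : ℝ) : ℂ) • f v := by
      intro a
      by_cases haa : a = a0
      · subst haa
        rw [if_pos rfl]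
        have e1 := LinearMap.congr_fun hfa v
        rw [Module.End.mul_apply, LinearMap.neg_apply, Module.End.mul_apply,
          hev a (Finset.mem_univ a), map_smul] at e1
        rw [Complex.ofReal_neg, neg_smul, e1, neg_neg]
      · rw [if_neg haa]
        have e1 : F a * f = f * F a := Q'.comm (fun h1 => haa (htinj _ _ h1)) (hFS a) hfS
        have e2 := LinearMap.congr_fun e1 v
        rw [Module.End.mul_apply, Module.End.mul_apply, hev a (Finset.mem_univ a), map_smul] at e2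
        exact e2
    rw [hTF, LinearMap.sum_apply, Finset.sum_congr rfl fun a _ => e0 a, ← Finset.sum_smul,
      ← Complex.ofReal_sum]
    congr 2
    have e3 : ∀ a, (if a = a0 then -l a0 else l a : ℝ) =
        l a - if a = a0 then 2 * l a0 else 0 := by
      intro a
      by_cases h1 : a = a0
      · rw [if_pos h1, if_pos h1, h1]
        ring
      · rw [if_neg h1, if_neg h1, sub_zero]
    rw [Finset.sum_congr rfl fun a _ => e3 a, Finset.sum_sub_distrib, Finset.sum_ite_eq',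
      if_pos (Finset.mem_univ a0)]
  have hsum2 := R'.skew_eig sT rT hfv hTf
  have hl0 : l a0 = 0 := by linarith
  have hs0 : Real.sqrt (n a0) = 0 := by
    rcases hl a0 with h1 | h1
    · rw [← h1, hl0]
    · linarith
  exact ha0 ((Real.sqrt_eq_zero (hn0 a0)).1 hs0)

end Main

end Pool.Agent.T9h38.TM
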