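import Pool.Agent.T9h38.RM.FamE

set_option autoImplicit false
set_option maxHeartbeats 1000000
set_option linter.unusedSectionVars false
set_option linter.unusedVariables false

/-!
# Orthogonal Lie algebras of rank three
-/

open Module Function TensorProduct

noncomputable section

namespace Pool.Agent.T9h38.TM

open Pool.Agent.Y102 Pool.Agent.W516.DR Pool.Agent.H204R3.GP Pool.Agent.W516.KC
  Pool.Agent.H204R3.SP
open Pool.Agent.N192.GP

section Gen

variable {U : Type} [AddCommGroup U] [Module ℂ U]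

/-- The first coordinate. -/
theorem coord {p q s : Module.End ℂ U} (h1 : p * q - q * p = (2 : ℂ) • s)
    (h3 : s * p - p * s = (2 : ℂ) • q) {J : Submodule ℂ (Module.End ℂ U)}
    (hJ : ∀ y ∈ J, p * y - y * p ∈ J) {a b c : ℂ} (hw : a • p + b • q + c • s ∈ J) :
    a • p ∈ J := by
  have e1 : ∀ b c : ℂ, p * (b • q + c • s) - (b • q + c • s) * p =
      (-2 * c) • q + (2 * b) • s := by
    intro b c
    have e2 : p * (b • q + c • s) - (b • q + c • s) * p =
        b • (p * q - q * p) - c • (s * p - p * s) := by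
      simp only [mul_add, add_mul, mul_smul_comm, smul_mul_assoc, smul_sub]
      abel
    rw [e2, h1, h3]
    module
  have e3 : p * (a • p + b • q + c • s) - (a • p + b • q + c • s) * p =
      (-2 * c) • q + (2 * b) • s := by
    rw [← e1, add_assoc, mul_add, add_mul, mul_smul_comm, smul_mul_assoc]
    abel
  have h4 := hJ _ hw
  rw [e3] at h4
  have h5 := hJ _ h4
  rw [e1] at h5
  have h6 := J.add_mem hw (J.smul_mem (1 / 4 : ℂ) h5)
  have h7 : a • p + b • q + c • s + (1 / 4 : ℂ) • ((-2 * (2 * b)) • q + (2 * (-2 * c)) • s) =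
      a • p := by module
  rwa [h7] at h6

variable {Z : ℕ → ℕ → Module.End ℂ U}

theorem rels (h : SoRel 3 Z) : Z 0 1 * Z 1 2 - Z 1 2 * Z 0 1 = (2 : ℂ) • Z 0 2 ∧
    Z 1 2 * Z 0 2 - Z 0 2 * Z 1 2 = (2 : ℂ) • Z 0 1 ∧
    Z 0 2 * Z 0 1 - Z 0 1 * Z 0 2 = (2 : ℂ) • Z 1 2 := by
  have a1 := h.anti 2 0 (by omega) (by omega) (by omega)
  have a2 := h.anti 1 0 (by omega) (by omega) (by omega)
  have a3 := h.anti 2 1 (by omega) (by omega) (by omega)
  have b1 := h.br 0 1 2 (by omega) (by omega) (by omega) (by omega) (by omega) (by omega)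
  have b2 := h.br 1 2 0 (by omega) (by omega) (by omega) (by omega) (by omega) (by omega)
  have b3 := h.br 2 0 1 (by omega) (by omega) (by omega) (by omega) (by omega) (by omega)
  rw [a1, a2] at b2
  rw [a1, a3] at b3
  refine ⟨b1, ?_, ?_⟩
  · have h1 : Z 1 2 * Z 0 2 - Z 0 2 * Z 1 2 = -(Z 1 2 * -Z 0 2 - -Z 0 2 * Z 1 2) := by
      rw [mul_neg, neg_mul]
      abel
    rw [h1, b2, smul_neg, neg_neg]
  · have h1 : Z 0 2 * Z 0 1 - Z 0 1 * Z 0 2 = -(-Z 0 2 * Z 0 1 - Z 0 1 * -Z 0 2) := by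
      rw [mul_neg, neg_mul]
      abel
    rw [h1, b3, smul_neg, neg_neg]

theorem mem_three (h : SoRel 3 Z) {x : Module.End ℂ U} (hx : x ∈ sp 3 Z) :
    ∃ a b c : ℂ, x = a • Z 0 1 + b • Z 1 2 + c • Z 0 2 := by
  unfold sp at hx
  induction hx using Submodule.span_induction with
  | mem x hx =>
    obtain ⟨a, b, ha, hb, hab, rfl⟩ := hx
    have a1 := h.anti 2 0 (by omega) (by omega) (by omega)
    have a2 := h.anti 1 0 (by omega) (by omega) (by omega)
    have a3 := h.anti 2 1 (by omega) (by omega) (by omega)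
    interval_cases a <;> interval_cases b
    all_goals first
      | exact absurd rfl hab
      | exact ⟨1, 0, 0, by module⟩
      | exact ⟨0, 1, 0, by module⟩
      | exact ⟨0, 0, 1, by module⟩
      | exact ⟨-1, 0, 0, by rw [a2]; module⟩
      | exact ⟨0, -1, 0, by rw [a3]; module⟩
      | exact ⟨0, 0, -1, by rw [a1]; module⟩
  | zero => exact ⟨0, 0, 0, by module⟩
  | add x y _ _ hx hy =>
    obtain ⟨a, b, c, rfl⟩ := hx
    obtain ⟨a', b', c', rfl⟩ := hy
    exact ⟨a + a', b + b', c + c', by module⟩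
  | smul t x _ hx =>
    obtain ⟨a, b, c, rfl⟩ := hx
    exact ⟨t * a, t * b, t * c, by module⟩

theorem sp3_le (h : SoRel 3 Z) {J : Submodule ℂ (Module.End ℂ U)} (h1 : Z 0 1 ∈ J)
    (h2 : Z 1 2 ∈ J) (h3 : Z 0 2 ∈ J) : sp 3 Z ≤ J := by
  intro x hx
  obtain ⟨a, b, c, rfl⟩ := mem_three h hx
  exact J.add_mem (J.add_mem (J.smul_mem _ h1) (J.smul_mem _ h2)) (J.smul_mem _ h3)

/-- The Lie algebra is simple. -/
theorem simple3 (h : SoRel 3 Z) (J : Submodule ℂ (Module.End ℂ U)) (hJ : J ≤ sp 3 Z)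
    (hJ2 : ∀ x ∈ sp 3 Z, ∀ y ∈ J, x * y - y * x ∈ J) : J = ⊥ ∨ J = sp 3 Z := by
  by_cases hb : J = ⊥
  · exact Or.inl hb
  right
  obtain ⟨w, hw, hw0⟩ := (Submodule.ne_bot_iff _).1 hb
  obtain ⟨a, b, c, rfl⟩ := mem_three h (hJ hw)
  obtain ⟨r1, r2, r3⟩ := rels h
  have m1 : Z 0 1 ∈ sp 3 Z := mem_sp (by omega) (by omega) (by omega)
  have m2 : Z 1 2 ∈ sp 3 Z := mem_sp (by omega) (by omega) (by omega)
  have m3 : Z 0 2 ∈ sp 3 Z := mem_sp (by omega) (by omega) (by omega)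
  have c1 : a • Z 0 1 ∈ J := coord r1 r3 (fun y hy => hJ2 _ m1 y hy) hw
  have c2 : b • Z 1 2 ∈ J := by
    refine coord (b := c) (c := a) r2 r1 (fun y hy => hJ2 _ m2 y hy) ?_
    have e1 : b • Z 1 2 + c • Z 0 2 + a • Z 0 1 = a • Z 0 1 + b • Z 1 2 + c • Z 0 2 := by abel
    rw [e1]
    exact hw
  have c3 : c • Z 0 2 ∈ J := by
    refine coord (b := a) (c := b) r3 r2 (fun y hy => hJ2 _ m3 y hy) ?_
    have e1 : c • Z 0 2 + a • Z 0 1 + b • Z 1 2 = a • Z 0 1 + b • Z 1 2 + c • Z 0 2 := by abel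
    rw [e1]
    exact hw
  have step : ∀ {p q s : Module.End ℂ U}, p * q - q * p = (2 : ℂ) • s →
      q ∈ sp 3 Z → p ∈ J → s ∈ J := by
    intro p q s h1 hq hp
    have h2 := J.smul_mem (-1 / 2 : ℂ) (hJ2 q hq p hp)
    have h3 : (-1 / 2 : ℂ) • (q * p - p * q) = s := by
      have h4 : q * p - p * q = -(p * q - q * p) := by abel
      rw [h4, h1]
      module
    rwa [h3] at h2
  have hcoef : ∀ {t : ℂ} {p : Module.End ℂ U}, t • p ∈ J → t • p ≠ 0 → p ∈ J := by
    intro t p htp h0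
    have ht : t ≠ 0 := fun h1 => h0 (by rw [h1, zero_smul])
    have h1 := J.smul_mem t⁻¹ htp
    rwa [smul_smul, inv_mul_cancel₀ ht, one_smul] at h1
  have hall : Z 0 1 ∈ J ∧ Z 1 2 ∈ J ∧ Z 0 2 ∈ J := by
    by_cases g1 : a • Z 0 1 = 0
    · by_cases g2 : b • Z 1 2 = 0
      · have g3 : c • Z 0 2 ≠ 0 := fun g3 => hw0 (by rw [g1, g2, g3, add_zero, add_zero])
        have k3 := hcoef c3 g3
        have k2 := step r3 m1 k3
        exact ⟨step r2 m3 k2, k2, k3⟩
      · have k2 := hcoef c2 g2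
        have k1 := step r2 m3 k2
        exact ⟨k1, k2, step r1 m2 k1⟩
    · have k1 := hcoef c1 g1
      have k3 := step r1 m2 k1
      exact ⟨k1, step r3 m1 k3, k3⟩
  exact le_antisymm hJ (sp3_le h hall.1 hall.2.1 hall.2.2)

theorem perf3 (h : SoRel 3 Z) : sp 3 Z ≤
    Submodule.span ℂ {z | ∃ x ∈ sp 3 Z, ∃ y ∈ sp 3 Z, z = x * y - y * x} := by
  obtain ⟨r1, r2, r3⟩ := rels h
  have m1 : Z 0 1 ∈ sp 3 Z := mem_sp (by omega) (by omega) (by omega)
  have m2 : Z 1 2 ∈ sp 3 Z := mem_sp (by omega) (by omega) (by omega)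
  have m3 : Z 0 2 ∈ sp 3 Z := mem_sp (by omega) (by omega) (by omega)
  have key : ∀ {p q s : Module.End ℂ U}, p * q - q * p = (2 : ℂ) • s → p ∈ sp 3 Z → q ∈ sp 3 Z →
      s ∈ Submodule.span ℂ {z | ∃ x ∈ sp 3 Z, ∃ y ∈ sp 3 Z, z = x * y - y * x} := by
    intro p q s h1 hp hq
    have h2 : s = (1 / 2 : ℂ) • (p * q - q * p) := by
      rw [h1]
      module
    rw [h2]
    exact Submodule.smul_mem _ _ (Submodule.subset_span ⟨p, hp, q, hq, rfl⟩)
  exact sp3_le h (key r2 m2 m3) (key r3 m3 m1) (key r1 m1 m2)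

end Gen

section Spin

variable {U : Type} [AddCommGroup U] [Module ℂ U] [FiniteDimensional ℂ U] [Nontrivial U]
  {N k : ℕ} {E : Fin N → Module.End ℂ U} {c : Fin N → Fin k} (hE : SP.CE E) {s : Fin k}
  (hs : (Finset.univ.filter fun j => c j = s).card = 3)
include hE hs

theorem soS_simple (J : Submodule ℂ (Module.End ℂ U)) (hJ : J ≤ SP.soS E c s)
    (hJ2 : ∀ x ∈ SP.soS E c s, ∀ y ∈ J, x * y - y * x ∈ J) : J = ⊥ ∨ J = SP.soS E c s := by
  obtain ⟨Z, h1, h2, -⟩ := exists_enumZ hE s hs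
  rw [← h2] at hJ hJ2 ⊢
  exact simple3 h1 J hJ hJ2

theorem soS_perf : SP.soS E c s ≤
    Submodule.span ℂ {z | ∃ x ∈ SP.soS E c s, ∃ y ∈ SP.soS E c s, z = x * y - y * x} := by
  obtain ⟨Z, h1, h2, -⟩ := exists_enumZ hE s hs
  rw [← h2]
  exact perf3 h1

theorem soS_pos : 0 < finrank ℂ (SP.soS E c s) := by
  rw [finrank_soS hE hs]
  omega

/-- The centre is trivial. -/
theorem soS_cent {x : Module.End ℂ U} (hx : x ∈ SP.soS E c s)
    (h : ∀ y ∈ SP.soS E c s, y * x - x * y = 0) : x = 0 := by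
  let Z : Submodule ℂ (Module.End ℂ U) :=
    { carrier := {x | x ∈ SP.soS E c s ∧ ∀ y ∈ SP.soS E c s, y * x - x * y = 0}
      zero_mem' := ⟨Submodule.zero_mem _, fun y _ => by rw [mul_zero, zero_mul, sub_zero]⟩
      add_mem' := fun {a b} ha hb => ⟨Submodule.add_mem _ ha.1 hb.1, fun y hy => by
        have h2 := ha.2 y hy
        have h3 := hb.2 y hy
        have h4 : y * (a + b) - (a + b) * y = (y * a - a * y) + (y * b - b * y) := by
          rw [mul_add, add_mul]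
          abel
        rw [h4, h2, h3, add_zero]⟩
      smul_mem' := fun t a ha => ⟨Submodule.smul_mem _ t ha.1, fun y hy => by
        rw [mul_smul_comm, smul_mul_assoc, ← smul_sub, ha.2 y hy, smul_zero]⟩ }
  have hZ : Z = ⊥ := by
    rcases soS_simple hE hs Z (fun x hx => hx.1) (fun x hx y hy => by
      rw [hy.2 x hx]
      exact Z.zero_mem) with h | h
    · exact h
    · exfalso
      have h2 : SP.soS E c s ≤ ⊥ := by
        refine (soS_perf hE hs).trans (Submodule.span_le.2 ?_)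
        rintro _ ⟨x, hx, y, hy, rfl⟩
        have h3 : y ∈ Z := by rw [h]; exact hy
        rw [h3.2 x hx]
        exact Submodule.zero_mem _
      rw [le_bot_iff] at h2
      have hpos := soS_pos hE hs
      rw [h2, finrank_bot] at hpos
      exact lt_irrefl _ hpos
  have h3 : x ∈ Z := ⟨hx, h⟩
  rw [hZ] at h3
  exact (Submodule.mem_bot ℂ).1 h3

/-- An ideal contains one colour, or its projection to it is trivial. -/
theorem dicho3 {I : Submodule ℂ (Module.End ℂ U)} (hI : Idl I (SP.soC E c)) :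
    SP.soS E c s ≤ I ∨ ∀ x ∈ I, SP.pS E c s x = 0 := by
  rcases soS_simple hE hs (I ⊓ SP.soS E c s) inf_le_right (fun x hx y hy =>
      ⟨hI.2 x (SP.soS_le s hx) y hy.1, SP.soS_br hE hx hy.2⟩) with h1 | h
  swap
  · exact Or.inl (inf_eq_right.1 h)
  right
  intro x hx
  refine soS_cent hE hs (SP.pS_mem hE (hI.1 hx)) fun y hy => ?_
  have h4 := SP.pS_br hE (σ := s) (SP.soS_le s hy) (hI.1 hx)
  rw [SP.pS_same hE hy] at h4
  rw [← h4]
  have h5 : y * x - x * y ∈ I ⊓ SP.soS E c s := by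
    refine ⟨hI.2 y (SP.soS_le s hy) x hx, ?_⟩
    have h6 := SP.Link_part hE hy (hI.1 hx)
    have h7 : y * x - x * y = y * SP.pS E c s x - SP.pS E c s x * y := by
      rw [← neg_sub, h6, neg_sub]
    rw [h7]
    exact SP.soS_br hE hy (SP.pS_mem hE (hI.1 hx))
  rw [h1] at h5
  rw [(Submodule.mem_bot ℂ).1 h5, map_zero]

/-- The squares are scalar. -/
theorem soS_sq {y : Module.End ℂ U} (hy : y ∈ SP.soS E c s) :
    ∃ ν : ℂ, y * y = ν • (1 : Module.End ℂ U) := by
  obtain ⟨e, he, he1, he2⟩ := exists_enum hs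
  have hF := enum_CE hE he
  have hso := enum_soE (E := E) he he1 he2
  rw [← hso] at hy
  obtain ⟨F, hFd⟩ : ∃ F : Fin 3 → Module.End ℂ U, F = fun a => E (e a) := ⟨_, rfl⟩
  rw [← hFd] at hF hy
  have key : ∃ a b c : ℂ, y = a • (F 0 * F 1) + b • (F 1 * F 2) + c • (F 0 * F 2) := by
    unfold SP.soE at hy
    induction hy using Submodule.span_induction with
    | mem x hx =>
      obtain ⟨i, j, hij, rfl⟩ := hx
      have a1 := hF.anti 2 0 (by decide)
      have a2 := hF.anti 1 0 (by decide)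
      have a3 := hF.anti 2 1 (by decide)
      fin_cases i <;> fin_cases j
      all_goals first
        | exact absurd rfl hij
        | (refine ⟨1, 0, 0, ?_⟩
           simp
           done)
        | (refine ⟨0, 1, 0, ?_⟩
           simp
           done)
        | (refine ⟨0, 0, 1, ?_⟩
           simp
           done)
        | (refine ⟨-1, 0, 0, ?_⟩
           simp [a2]
           done)
        | (refine ⟨0, -1, 0, ?_⟩
           simp [a3]
           done)
        | (refine ⟨0, 0, -1, ?_⟩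
           simp [a1]
           done)
    | zero => exact ⟨0, 0, 0, by simp⟩
    | add x y _ _ hx hy =>
      obtain ⟨a, b, c, rfl⟩ := hx
      obtain ⟨a', b', c', rfl⟩ := hy
      exact ⟨a + a', b + b', c + c', by module⟩
    | smul t x _ hx =>
      obtain ⟨a, b, c, rfl⟩ := hx
      exact ⟨t * a, t * b, t * c, by module⟩
  obtain ⟨a, b, c', rfl⟩ := key
  have q1 : F 0 * F 1 * (F 0 * F 1) = -1 := SP.simple_sq hF (by decide)
  have q2 : F 1 * F 2 * (F 1 * F 2) = -1 := SP.simple_sq hF (by decide)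
  have q3 : F 0 * F 2 * (F 0 * F 2) = -1 := SP.simple_sq hF (by decide)
  have s0 := hF.sq 0
  have s1 := hF.sq 1
  have s2 := hF.sq 2
  have t10 := hF.anti 1 0 (by decide)
  have t20 := hF.anti 2 0 (by decide)
  have t21 := hF.anti 2 1 (by decide)
  have x1 : F 0 * F 1 * (F 1 * F 2) = F 0 * F 2 := by
    rw [mul_assoc, ← mul_assoc (F 1), s1, one_mul]
  have x2 : F 1 * F 2 * (F 0 * F 1) = -(F 0 * F 2) := by
    rw [mul_assoc, ← mul_assoc (F 2), t20, neg_mul, mul_neg, mul_assoc (F 0), t21, mul_neg,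
      mul_neg, neg_neg, ← mul_assoc, ← mul_assoc, t10, neg_mul, mul_assoc (F 0), s1, mul_one,
      neg_mul]
  have x3 : F 0 * F 1 * (F 0 * F 2) = -(F 1 * F 2) := by
    rw [mul_assoc, ← mul_assoc (F 1), t10, neg_mul, mul_neg, mul_assoc (F 0), ← mul_assoc (F 0), s0,
      one_mul]
  have x4 : F 0 * F 2 * (F 0 * F 1) = F 1 * F 2 := by
    rw [mul_assoc, ← mul_assoc (F 2), t20, neg_mul, mul_neg, mul_assoc (F 0), ← mul_assoc (F 0), s0,
      one_mul, t21, neg_neg]
  have x5 : F 1 * F 2 * (F 0 * F 2) = -(F 1 * F 0) := by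
    rw [mul_assoc, ← mul_assoc (F 2), t20, neg_mul, mul_neg, mul_assoc (F 0), s2, mul_one]
  have x6 : F 0 * F 2 * (F 1 * F 2) = -(F 0 * F 1) := by
    rw [mul_assoc, ← mul_assoc (F 2), t21, neg_mul, mul_neg, mul_assoc (F 1), s2, mul_one]
  refine ⟨-(a * a + b * b + c' * c'), ?_⟩
  simp only [mul_add, add_mul, mul_smul_comm, smul_mul_assoc, q1, q2, q3, x1, x2, x3, x4, x5, x6,
    t10]
  module

end Spin

end Pool.Agent.T9h38.TM
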