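import Pool.Agent.T9h38.TM.InterG
import Pool.Agent.T9h38.TM.RealG

set_option autoImplicit false
set_option maxHeartbeats 1000000
set_option linter.unusedSectionVars false
set_option linter.unusedVariables false

/-!
# Linked sums of quaternion algebras of the three types
-/

open Module Function TensorProduct

noncomputable section

namespace Pool.Agent.T9h38.TM

open Pool.Agent.Y102 Pool.Agent.W516.DR Pool.Agent.H204R3.GP Pool.Agent.W516.KC
  Pool.Agent.H204R3.SP
open Pool.Agent.N192.GP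
open Pool.Agent.T9h38.RM

section Def

variable {U : Type} [AddCommGroup U] [Module ℂ U] {k : ℕ} {M : Submodule ℂ (Module.End ℂ U)}

/-- The colours occur in pairs; every section of the pairs is a term of the representation. -/
structure PairT (Q : QS k M) (m : ℕ) where
  pr : Fin k → Fin m
  fl : Fin k → Fin k
  fl_ne : ∀ a, fl a ≠ a
  pr_fl : ∀ a, pr (fl a) = pr a
  two : ∀ a b, pr a = pr b → b = a ∨ b = fl a
  sur : Function.Surjective pr
  add : ∀ a, Q.e a + Q.e (fl a) = 1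
  sec : ∀ τ : Fin m → Fin k, (∀ s, pr (τ s) = s) → ∃ P : Module.End ℂ U, P ≠ 0 ∧ P * P = P ∧
    (∀ z ∈ M, P * z = z * P) ∧ ∀ s, Q.e (τ s) * P = P

/-- The three types. -/
inductive Ty (Q : QS k M) : Prop
  | orth (h : ∀ s t, s ≠ t → Q.e s * Q.e t = 0)
  | one (h : ∀ s, Q.e s = 1)
  | pair (m : ℕ) (h : Nonempty (PairT Q m))

namespace PairT

variable {Q : QS k M} {m : ℕ} (D : PairT Q m)

theorem sec_zero {τ : Fin m → Fin k} (hτ : ∀ s, D.pr (τ s) = s) {P : Module.End ℂ U}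
    (hP : ∀ s, Q.e (τ s) * P = P) {x : Fin k} (hx : x ≠ τ (D.pr x)) : Q.e x * P = 0 := by
  have h1 : D.pr (τ (D.pr x)) = D.pr x := hτ _
  rcases D.two _ _ h1 with h2 | h2
  · exact absurd h2 hx
  · have h3 := D.add (τ (D.pr x))
    rw [← h2] at h3
    have h4 : Q.e x = 1 - Q.e (τ (D.pr x)) := eq_sub_of_add_eq' h3
    rw [h4, sub_mul, one_mul, hP, sub_self]

/-- Colours of different pairs occur together. -/
theorem ee_ne {a b : Fin k} (hab : D.pr a ≠ D.pr b) : Q.e a * Q.e b ≠ 0 := by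
  classical
  intro h0
  choose σ hσ using D.sur
  let τ : Fin m → Fin k := fun s => if s = D.pr a then a else if s = D.pr b then b else σ s
  have hτ : ∀ s, D.pr (τ s) = s := by
    intro s
    change D.pr (if s = D.pr a then a else if s = D.pr b then b else σ s) = s
    by_cases h1 : s = D.pr a
    · rw [if_pos h1, h1]
    · rw [if_neg h1]
      by_cases h2 : s = D.pr b
      · rw [if_pos h2, h2]
      · rw [if_neg h2, hσ]
  obtain ⟨P, hP0, -, -, hP⟩ := D.sec τ hτ
  have ha : τ (D.pr a) = a := if_pos rfl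
  have hb : τ (D.pr b) = b := (if_neg hab.symm).trans (if_pos rfl)
  have h1 := hP (D.pr a)
  have h2 := hP (D.pr b)
  rw [ha] at h1
  rw [hb] at h2
  apply hP0
  rw [← h1, ← h2, ← mul_assoc, h0, zero_mul]

theorem fib (t : Fin m) : (Finset.univ.filter fun x => D.pr x = t).card = 2 := by
  classical
  obtain ⟨a, ha⟩ := D.sur t
  have h1 : (Finset.univ.filter fun x => D.pr x = t) = {a, D.fl a} := by
    ext x
    rw [Finset.mem_filter, Finset.mem_insert, Finset.mem_singleton]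
    constructor
    · rintro ⟨-, hx⟩
      exact D.two a x (ha.trans hx.symm)
    · rintro (rfl | rfl)
      · exact ⟨Finset.mem_univ _, ha⟩
      · exact ⟨Finset.mem_univ _, (D.pr_fl a).trans ha⟩
  rw [h1, Finset.card_pair (D.fl_ne a).symm]

end PairT

/-- The marriage theorem for two systems of pairs. -/
theorem marriage {k k' m m' : ℕ} {pr : Fin k → Fin m} {pr' : Fin k' → Fin m'}
    (hpr : Function.Surjective pr)
    (hf : ∀ t, (Finset.univ.filter fun x => pr x = t).card = 2)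
    (hf' : ∀ t, (Finset.univ.filter fun x => pr' x = t).card = 2) (π : Fin k ≃ Fin k') :
    ∃ (a : Fin m → Fin k) (f : Fin m → Fin m'), Function.Injective f ∧ (∀ s, pr (a s) = s) ∧
      ∀ s, pr' (π (a s)) = f s := by
  classical
  let N : Fin m → Finset (Fin m') := fun s =>
    (Finset.univ.filter fun x => pr x = s).image fun x => pr' (π x)
  have hall : ∀ A : Finset (Fin m), A.card ≤ (A.biUnion N).card := by
    intro A
    let E : Finset (Fin k) := Finset.univ.filter fun x => pr x ∈ A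
    have h1 : E.image pr = A := by
      ext s
      rw [Finset.mem_image]
      constructor
      · rintro ⟨x, hx, rfl⟩
        exact (Finset.mem_filter.1 hx).2
      · intro hs
        obtain ⟨x, rfl⟩ := hpr s
        exact ⟨x, Finset.mem_filter.2 ⟨Finset.mem_univ _, hs⟩, rfl⟩
    have h2 : E.image (fun x => pr' (π x)) = A.biUnion N := by
      ext t
      rw [Finset.mem_image, Finset.mem_biUnion]
      constructor
      · rintro ⟨x, hx, rfl⟩
        exact ⟨pr x, (Finset.mem_filter.1 hx).2, Finset.mem_image.2 ⟨x, Finset.mem_filter.2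
          ⟨Finset.mem_univ _, rfl⟩, rfl⟩⟩
      · rintro ⟨s, hs, ht⟩
        obtain ⟨x, hx, rfl⟩ := Finset.mem_image.1 ht
        refine ⟨x, Finset.mem_filter.2 ⟨Finset.mem_univ _, ?_⟩, rfl⟩
        rw [(Finset.mem_filter.1 hx).2]
        exact hs
    have h3 : 2 * (E.image pr).card ≤ E.card := by
      refine Finset.mul_card_image_le_card E 2 fun s hs => ?_
      rw [← hf s]
      refine Finset.card_le_card fun x hx => ?_
      have h4 := (Finset.mem_filter.1 hx).2
      refine Finset.mem_filter.2 ⟨Finset.mem_filter.2 ⟨Finset.mem_univ _, ?_⟩, h4⟩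
      rw [h4, ← h1]
      exact hs
    have h4 : E.card ≤ 2 * (E.image fun x => pr' (π x)).card := by
      refine Finset.card_le_mul_card_image E 2 fun t ht => ?_
      rw [← hf' t]
      refine Finset.card_le_card_of_injOn π (fun x hx => ?_) (fun x _ y _ h => π.injective h)
      exact Finset.mem_coe.2 (Finset.mem_filter.2 ⟨Finset.mem_univ _, (Finset.mem_filter.1
        (Finset.mem_coe.1 hx)).2⟩)
    rw [h1] at h3
    rw [h2] at h4
    omega
  obtain ⟨f, hfi, hfN⟩ := (Finset.all_card_le_biUnion_card_iff_exists_injective N).1 hall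
  have h5 : ∀ s, ∃ x, pr x = s ∧ pr' (π x) = f s := by
    intro s
    obtain ⟨x, hx, hxf⟩ := Finset.mem_image.1 (hfN s)
    exact ⟨x, (Finset.mem_filter.1 hx).2, hxf⟩
  choose a ha hb using h5
  exact ⟨a, f, hfi, ha, hb⟩

end Def

section Link

variable {U U' : Type} [AddCommGroup U] [Module ℂ U] [AddCommGroup U'] [Module ℂ U']
  [FiniteDimensional ℂ U] [FiniteDimensional ℂ U'] [Nontrivial U] [Nontrivial U']
  {M : Submodule ℂ (Module.End ℂ U)} {M' : Submodule ℂ (Module.End ℂ U')}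
  {𝔮 : Submodule ℂ (Module.End ℂ U × Module.End ℂ U')} (h : LkQ M M' 𝔮) {k k' : ℕ}
  (Q : QS k M) (Q' : QS k' M') (R : RS M) (R' : RS M')

/-- The real elements span. -/
def Dec (R : RS M) (R' : RS M') (𝔮 : Submodule ℂ (Module.End ℂ U × Module.End ℂ U')) : Prop :=
  ∀ p ∈ 𝔮, ∃ p₁ ∈ 𝔮, ∃ p₂ ∈ 𝔮, p = p₁ + Complex.I • p₂ ∧ (R.Re p₁.1 ∧ R'.Re p₁.2) ∧
    R.Re p₂.1 ∧ R'.Re p₂.2

include h

/-- A sum of planes is linked with sums of planes only. -/
theorem orth_of_link (hdec : Dec R R' 𝔮) (ho : ∀ s t, s ≠ t → Q.e s * Q.e t = 0) :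
    ∀ s t, s ≠ t → Q'.e s * Q'.e t = 0 := by
  obtain ⟨π, hπ⟩ := h.exists_equiv Q Q'
  have hnc : ∀ s, Q.p s R.J ≠ 0 := by
    intro s
    obtain ⟨t, ht, hts⟩ := Q.nc_exists R.JM R.JJ (Q.ne s) fun z hz => Q.e_M s hz
    have : t = s := by
      by_contra hne
      exact hts (ho t s hne)
    rwa [this] at ht
  have hnc' : ∀ s, Q'.p s R'.J ≠ 0 := by
    intro s
    obtain ⟨a, rfl⟩ := π.surjective s
    exact nc_transfer h Q Q' R R' hdec (π := π) π.injective hπ (hnc a)
  exact fun s t hst => Q'.nc_unique R'.JM R'.JJ hst (hnc' s) (hnc' t)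

/-- Pairs are not linked with tensor products. -/
theorem pair_one (hdec : Dec R R' 𝔮) {m : ℕ} (D : PairT Q m) (h1 : ∀ s, Q'.e s = 1) : False := by
  classical
  obtain ⟨π, hπ⟩ := h.exists_equiv Q Q'
  obtain ⟨a, ha, -⟩ := Q.nc_exists R.JM R.JJ (P := 1) one_ne_zero fun z _ => by
    rw [one_mul, mul_one]
  have hfa : Q.p (D.fl a) R.J ≠ 0 := by
    choose σ hσ using D.sur
    let τ : Fin m → Fin k := fun s => if s = D.pr a then D.fl a else σ s
    have hτ : ∀ s, D.pr (τ s) = s := by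
      intro s
      change D.pr (if s = D.pr a then D.fl a else σ s) = s
      by_cases h1 : s = D.pr a
      · rw [if_pos h1, D.pr_fl, h1]
      · rw [if_neg h1, hσ]
    have hτa : τ (D.pr a) = D.fl a := if_pos rfl
    obtain ⟨P, hP0, -, hPM, hP⟩ := D.sec τ hτ
    obtain ⟨b, hb, hbP⟩ := Q.nc_exists R.JM R.JJ hP0 hPM
    have hbτ : b = τ (D.pr b) := by
      by_contra hne
      exact hbP (D.sec_zero hτ hP hne)
    by_cases hab : D.pr a = D.pr b
    · rw [← hab, hτa] at hbτ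
      rwa [hbτ] at hb
    · exfalso
      have hne : a ≠ b := fun h0 => hab (by rw [h0])
      exact D.ee_ne hab (Q.nc_unique R.JM R.JJ hne ha hb)
  have e1 := nc_transfer h Q Q' R R' hdec (π := π) π.injective hπ ha
  have e2 := nc_transfer h Q Q' R R' hdec (π := π) π.injective hπ hfa
  have e3 := Q'.nc_unique R'.JM R'.JJ (fun h0 => D.fl_ne a (π.injective h0).symm) e1 e2
  rw [h1, h1, mul_one] at e3
  exact one_ne_zero e3

theorem hom_orth (R : RS M) (ho : ∀ s t, s ≠ t → Q.e s * Q.e t = 0)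
    (ho' : ∀ s t, s ≠ t → Q'.e s * Q'.e t = 0) :
    ∃ T : U →ₗ[ℂ] U', T ≠ 0 ∧ ∀ x y, (x, y) ∈ 𝔮 → y.comp T = T.comp x := by
  obtain ⟨π, hπ⟩ := h.exists_equiv Q Q'
  obtain ⟨a, ha, -⟩ := Q.nc_exists R.JM R.JJ (P := 1) one_ne_zero fun z _ => by
    rw [one_mul, mul_one]
  refine h.exists_TG Q Q' hπ (Q.ne a) (Q'.ne (π a)) (Q.q a).ee (Q'.q (π a)).ee
    (fun z hz => Q.e_M a hz) (fun z hz => Q'.e_M (π a) hz) fun s => ?_
  by_cases hs : s = a
  · left
    rw [hs]
    exact ⟨(Q.q a).ee, (Q'.q (π a)).ee⟩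
  · right
    exact ⟨ho s a hs, ho' _ _ fun h0 => hs (π.injective h0)⟩

theorem hom_one (h1 : ∀ s, Q.e s = 1) (h1' : ∀ s, Q'.e s = 1) :
    ∃ T : U →ₗ[ℂ] U', T ≠ 0 ∧ ∀ x y, (x, y) ∈ 𝔮 → y.comp T = T.comp x := by
  obtain ⟨π, hπ⟩ := h.exists_equiv Q Q'
  refine h.exists_TG Q Q' hπ (P := 1) (P' := 1) one_ne_zero one_ne_zero (mul_one 1) (mul_one 1)
    (fun z _ => by rw [one_mul, mul_one]) (fun z _ => by rw [one_mul, mul_one]) fun s => ?_
  left
  rw [h1, h1', mul_one, mul_one]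
  exact ⟨rfl, rfl⟩

theorem hom_pair {m m' : ℕ} (D : PairT Q m) (D' : PairT Q' m') :
    ∃ T : U →ₗ[ℂ] U', T ≠ 0 ∧ ∀ x y, (x, y) ∈ 𝔮 → y.comp T = T.comp x := by
  obtain ⟨π, hπ⟩ := h.exists_equiv Q Q'
  obtain ⟨a, f, hf, ha, hb⟩ := marriage D.sur D.fib D'.fib π
  obtain ⟨a', f', hf', -, -⟩ := marriage D'.sur D'.fib D.fib π.symm
  have e1 : m ≤ m' := by simpa using Fintype.card_le_of_injective f hf
  have e2 : m' ≤ m := by simpa using Fintype.card_le_of_injective f' hf'
  have e3 : m = m' := le_antisymm e1 e2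
  subst e3
  have hfb : Function.Bijective f := (Fintype.bijective_iff_injective_and_card f).2 ⟨hf, rfl⟩
  obtain ⟨φ, hφ⟩ : ∃ φ : Fin m ≃ Fin m, ∀ s, φ s = f s := ⟨Equiv.ofBijective f hfb, fun _ => rfl⟩
  let τ' : Fin m → Fin k' := fun t => π (a (φ.symm t))
  have hτ' : ∀ t, D'.pr (τ' t) = t := by
    intro t
    change D'.pr (π (a (φ.symm t))) = t
    rw [hb, ← hφ, Equiv.apply_symm_apply]
  obtain ⟨P, hP0, hPP, hPM, hP⟩ := D.sec a ha
  obtain ⟨P', hP0', hPP', hPM', hP'⟩ := D'.sec τ' hτ'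
  refine h.exists_TG Q Q' hπ hP0 hP0' hPP hPP' hPM hPM' fun x => ?_
  by_cases hx : x = a (D.pr x)
  · left
    refine ⟨?_, ?_⟩
    · rw [hx]
      exact hP _
    · have e4 : π x = τ' (f (D.pr x)) := by
        change π x = π (a (φ.symm (f (D.pr x))))
        rw [← hφ, Equiv.symm_apply_apply, ← hx]
      rw [e4]
      exact hP' _
  · right
    refine ⟨D.sec_zero ha hP hx, D'.sec_zero hτ' hP' fun h0 => ?_⟩
    have e4 : x = a (φ.symm (D'.pr (π x))) := π.injective h0
    have e5 : D.pr x = φ.symm (D'.pr (π x)) := by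
      conv_lhs => rw [e4]
      exact ha _
    rw [← e5] at e4
    exact hx e4

/-- **Linked sums of quaternion algebras of the three types have a common term.** -/
theorem hom_of_link {𝔮' : Submodule ℂ (Module.End ℂ U' × Module.End ℂ U)} (h' : LkQ M' M 𝔮')
    (hdec : Dec R R' 𝔮) (hdec' : Dec R' R 𝔮') (t : Ty Q) (t' : Ty Q') :
    ∃ T : U →ₗ[ℂ] U', T ≠ 0 ∧ ∀ x y, (x, y) ∈ 𝔮 → y.comp T = T.comp x := by
  by_cases ho : ∀ s t, s ≠ t → Q.e s * Q.e t = 0
  · exact hom_orth h Q Q' R ho (orth_of_link h Q Q' R R' hdec ho)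
  by_cases ho' : ∀ s t, s ≠ t → Q'.e s * Q'.e t = 0
  · exact absurd (orth_of_link h' Q' Q R' R hdec' ho') ho
  obtain t | t | ⟨m, ⟨D⟩⟩ := t
  · exact absurd t ho
  · obtain t' | t' | ⟨m', ⟨D'⟩⟩ := t'
    · exact absurd t' ho'
    · exact hom_one h Q Q' t t'
    · exact (pair_one h' Q' Q R' R hdec' D' t).elim
  · obtain t' | t' | ⟨m', ⟨D'⟩⟩ := t'
    · exact absurd t' ho'
    · exact (pair_one h Q Q' R R' hdec D t').elim
    · exact hom_pair h Q Q' D D'

end Link

end Pool.Agent.T9h38.TM
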